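import Mathlib

set_option autoImplicit false

open Filter Topology MeasureTheory
open scoped FourierTransform ENNReal NNReal

noncomputable section

namespace Pool.Agent.Helper192.Dil

/-- The symbol `-i sgn ξ` of the Hilbert transform. -/
def hsym (ξ : ℝ) : ℂ := -Complex.I * (Real.sign ξ : ℂ)

theorem norm_hsym_le (ξ : ℝ) : ‖hsym ξ‖ ≤ 1 := by
  unfold hsym
  rw [norm_mul, norm_neg, Complex.norm_I, one_mul, Complex.norm_real, Real.norm_eq_abs]
  rcases lt_trichotomy ξ 0 with h | h | h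
  · rw [Real.sign_of_neg h]; norm_num
  · rw [h, Real.sign_zero]; norm_num
  · rw [Real.sign_of_pos h]; norm_num

theorem measurable_hsym : Measurable hsym := by
  unfold hsym
  refine measurable_const.mul (Complex.measurable_ofReal.comp ?_)
  unfold Real.sign
  refine Measurable.ite measurableSet_Iio measurable_const ?_
  exact Measurable.ite measurableSet_Ioi measurable_const measurable_const

section
variable {E : Type*} [NormedAddCommGroup E] [NormedSpace ℂ E]

theorem memLp_hsym (f : Lp E 2 (volume : Measure ℝ)) : MemLp (fun ξ => hsym ξ • f ξ) 2 (volume : Measure ℝ) := by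
  refine MemLp.of_le (Lp.memLp f) ?_ ?_
  · exact measurable_hsym.aestronglyMeasurable.smul (Lp.memLp f).1
  · refine Eventually.of_forall (fun ξ => ?_)
    rw [norm_smul]
    have := norm_hsym_le ξ
    have h0 := norm_nonneg (f ξ)
    nlinarith

end

/-- The (scalar) Hilbert transform on `L²(ℝ)`: the Fourier multiplier with symbol `-i sgn ξ`. -/
def hilbert (f : Lp ℂ 2 (volume : Measure ℝ)) : Lp ℂ 2 (volume : Measure ℝ) :=
  𝓕⁻ ((memLp_hsym (𝓕 f)).toLp (fun ξ => hsym ξ • (𝓕 f) ξ))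

/-- UMD: the Hilbert transform, acting on `Y`-valued functions, is bounded on `L²(ℝ; Y)`, that is, there is a constant `C`
with `‖∑ i, (H f i) y i‖ ≤ C ‖∑ i, (f i) y i‖` in `L²(ℝ; Y)` for all finite families `f i ∈ L²(ℝ)`, `y i ∈ Y`
(the functions `∑ i, (f i) y i` are dense in `L²(ℝ; Y)`). -/
def IsUMD (Y : Type*) [NormedAddCommGroup Y] [NormedSpace ℂ Y] : Prop :=
  ∃ C : ℝ≥0, ∀ (n : ℕ) (f : Fin n → Lp ℂ 2 (volume : Measure ℝ)) (y : Fin n → Y),
    eLpNorm (fun x => ∑ i, hilbert (f i) x • y i) 2 volume ≤ C * eLpNorm (fun x => ∑ i, f i x • y i) 2 volume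

section defs

variable {X Y : Type*} [NormedAddCommGroup X] [NormedSpace ℂ X] [NormedAddCommGroup Y] [NormedSpace ℂ Y]

/-- The injective linear map `ev` realises the normed space `X` as a solid (ideal) space of complex functions on
the set `ι`, with a norm that is monotone in the pointwise modulus.  If `X` is complete, this says that `X`, with the
pointwise modulus and the pointwise order of its real functions, is a (complex) Banach lattice. -/
structure IsFunctionLattice {ι : Type*} (ev : X →ₗ[ℂ] (ι → ℂ)) : Prop where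
  injective : Function.Injective ev
  solid : ∀ (x : X) (g : ι → ℂ), (∀ i, ‖g i‖ ≤ ‖ev x i‖) → ∃ y : X, ev y = g ∧ ‖y‖ ≤ ‖x‖

/-- `x ≥ 0` in the lattice of functions -/
def IsNonneg {ι : Type*} (ev : X →ₗ[ℂ] (ι → ℂ)) (x : X) : Prop := ∀ i, 0 ≤ (ev x i).re ∧ (ev x i).im = 0

/-- `C₀`-semigroup (only the values at `t ≥ 0` matter) -/
structure IsC0Semigroup (T : ℝ → X →L[ℂ] X) : Prop where
  zero : T 0 = 1
  add : ∀ s t : ℝ, 0 ≤ s → 0 ≤ t → T (s + t) = T s * T t
  cont : ∀ x : X, ContinuousOn (fun t => T t x) (Set.Ici 0)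

/-- `C₀`-group -/
structure IsC0Group (U : ℝ → Y →L[ℂ] Y) : Prop where
  zero : U 0 = 1
  add : ∀ s t : ℝ, U (s + t) = U s * U t
  cont : ∀ y : Y, Continuous (fun t => U t y)

/-- loose dilation of the semigroup `T` to a bounded `C₀`-group on `Y` -/
def HasLooseDilation (T : ℝ → X →L[ℂ] X) (Y : Type*) [NormedAddCommGroup Y] [NormedSpace ℂ Y] : Prop :=
  ∃ (J : X →L[ℂ] Y) (Q : Y →L[ℂ] X) (U : ℝ → Y →L[ℂ] Y), IsC0Group U ∧ (∃ M : ℝ, ∀ t, ‖U t‖ ≤ M) ∧
    ∀ t : ℝ, 0 ≤ t → T t = Q.comp ((U t).comp J)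

/-- strict dilation of the semigroup `T` to a `C₀`-group of isometries on `Y`, with contractions `J`, `Q` -/
def HasStrictDilation (T : ℝ → X →L[ℂ] X) (Y : Type*) [NormedAddCommGroup Y] [NormedSpace ℂ Y] : Prop :=
  ∃ (J : X →L[ℂ] Y) (Q : Y →L[ℂ] X) (U : ℝ → Y →L[ℂ] Y), ‖J‖ ≤ 1 ∧ ‖Q‖ ≤ 1 ∧ IsC0Group U ∧ (∀ t y, ‖U t y‖ = ‖y‖) ∧
    ∀ t : ℝ, 0 ≤ t → T t = Q.comp ((U t).comp J)

end defs

end Pool.Agent.Helper192.Dil
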