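import Mathlib
import Pool.Agent.Helper192.Dil.Defs

set_option autoImplicit false

open Filter Topology MeasureTheory
open scoped FourierTransform ENNReal

noncomputable section

namespace Pool.Agent.Helper192.Dil

/-- `f ⊗ y`, i.e. the function `x ↦ f(x) y`. -/
def tens {Y : Type*} [NormedAddCommGroup Y] [NormedSpace ℂ Y] (f : Lp ℂ 2 (volume : Measure ℝ)) (y : Y) :
    Lp Y 2 (volume : Measure ℝ) :=
  (ContinuousLinearMap.toSpanSingleton ℂ y).compLp f

/-- operator form of the UMD property -/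
def OpUMD (Y : Type*) [NormedAddCommGroup Y] [NormedSpace ℂ Y] : Prop :=
  ∃ H : Lp Y 2 (volume : Measure ℝ) →L[ℂ] Lp Y 2 (volume : Measure ℝ),
    ∀ (f : Lp ℂ 2 (volume : Measure ℝ)) (y : Y), H (tens f y) = tens (hilbert f) y

theorem tens_coe {Y : Type*} [NormedAddCommGroup Y] [NormedSpace ℂ Y] (f : Lp ℂ 2 (volume : Measure ℝ)) (y : Y) :
    (tens f y : ℝ → Y) =ᵐ[volume] fun x => f x • y := by
  unfold tens
  filter_upwards [ContinuousLinearMap.coeFn_compLp (ContinuousLinearMap.toSpanSingleton ℂ y) f] with x hx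
  rw [hx]
  rfl

theorem umd_of_op {Y : Type*} [NormedAddCommGroup Y] [NormedSpace ℂ Y] (h : OpUMD Y) : IsUMD Y := by
  obtain ⟨H, hH⟩ := h
  refine ⟨‖H‖₊, ?_⟩
  intro n F y
  obtain ⟨f, hf⟩ : ∃ f : Lp Y 2 (volume : Measure ℝ), f = ∑ s, tens (F s) (y s) := ⟨_, rfl⟩
  have h1 : (f : ℝ → Y) =ᵐ[volume] fun x => ∑ s, F s x • y s := by
    have h2 : (f : ℝ → Y) =ᵐ[volume] ∑ s, (tens (F s) (y s) : ℝ → Y) := by
      rw [hf]
      exact Lp.coeFn_finsetSum _ _
    refine h2.trans ?_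
    have h4 : ∀ᵐ x : ℝ, ∀ s, (tens (F s) (y s) : ℝ → Y) x = F s x • y s := ae_all_iff.mpr (fun s => tens_coe (F s) (y s))
    filter_upwards [h4] with x hx
    rw [Finset.sum_apply]
    exact Finset.sum_congr rfl (fun s _ => hx s)
  have h2 : (H f : ℝ → Y) =ᵐ[volume] fun x => ∑ s, hilbert (F s) x • y s := by
    have e : H f = ∑ s, tens (hilbert (F s)) (y s) := by
      rw [hf, map_sum]
      exact Finset.sum_congr rfl (fun s _ => hH _ _)
    have h2 : (H f : ℝ → Y) =ᵐ[volume] ∑ s, (tens (hilbert (F s)) (y s) : ℝ → Y) := by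
      rw [e]
      exact Lp.coeFn_finsetSum _ _
    refine h2.trans ?_
    have h4 : ∀ᵐ x : ℝ, ∀ s, (tens (hilbert (F s)) (y s) : ℝ → Y) x = hilbert (F s) x • y s := ae_all_iff.mpr (fun s => tens_coe (hilbert (F s)) (y s))
    filter_upwards [h4] with x hx
    rw [Finset.sum_apply]
    exact Finset.sum_congr rfl (fun s _ => hx s)
  have h3 : ‖H f‖ₑ ≤ ‖H‖ₑ * ‖f‖ₑ := H.le_opENorm f
  rw [Lp.enorm_def, Lp.enorm_def, eLpNorm_congr_ae h2, eLpNorm_congr_ae h1] at h3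
  exact h3

/-- the `L²` inverse Fourier transform of an `L¹ ∩ L²` function is given by the integral -/
theorem fourierInv_toLp {g : ℝ → ℂ} (hg1 : Integrable g) (hg2 : MemLp g 2 (volume : Measure ℝ)) :
    ((𝓕⁻ (hg2.toLp g) : Lp ℂ 2 (volume : Measure ℝ)) : ℝ → ℂ) =ᵐ[volume] 𝓕⁻ g := by
  have hcont : Continuous (𝓕⁻ g) := by
    refine VectorFourier.fourierIntegral_continuous Real.continuous_fourierChar ?_ hg1
    exact (continuous_inner (𝕜 := ℝ) (E := ℝ)).neg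
  refine ae_eq_of_integral_contDiff_smul_eq ?_ hcont.locallyIntegrable ?_
  · exact (Lp.memLp _).locallyIntegrable (by norm_num)
  · intro φ hφ1 hφ2
    have hg₁ : HasCompactSupport (Complex.ofRealCLM ∘ φ) := hφ2.comp_left rfl
    have hg₂ : ContDiff ℝ (⊤ : ℕ∞) (Complex.ofRealCLM ∘ φ) := by fun_prop
    set s : SchwartzMap ℝ ℂ := hg₁.toSchwartzMap hg₂ with hs
    have h1 := Lp.toTemperedDistribution_apply (𝓕⁻ (hg2.toLp g) : Lp ℂ 2 (volume : Measure ℝ)) s
    rw [← Lp.fourierInv_toTemperedDistribution_eq, TemperedDistribution.fourierInv_apply, Lp.toTemperedDistribution_apply] at h1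
    have h2 : ∫ x, φ x • (𝓕⁻ (hg2.toLp g) : Lp ℂ 2 (volume : Measure ℝ)) x = ∫ x, s x • (𝓕⁻ (hg2.toLp g) : Lp ℂ 2 (volume : Measure ℝ)) x := rfl
    rw [h2, ← h1]
    have h3 : ∫ x, (𝓕⁻ s : SchwartzMap ℝ ℂ) x • (hg2.toLp g : Lp ℂ 2 (volume : Measure ℝ)) x = ∫ x, (𝓕⁻ s : SchwartzMap ℝ ℂ) x • g x := by
      apply integral_congr_ae
      filter_upwards [hg2.coeFn_toLp] with x hx
      rw [hx]
    rw [h3]
    have h4 : ∫ x, (𝓕⁻ s : SchwartzMap ℝ ℂ) x • g x = ∫ x, s x • (𝓕⁻ g) x := by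
      have h5 := VectorFourier.integral_fourierIntegral_smul_eq_flip (e := Real.fourierChar) (μ := (volume : Measure ℝ)) (ν := (volume : Measure ℝ))
        (L := -innerₗ ℝ) (f := s) (g := g) Real.continuous_fourierChar (by exact (continuous_inner (𝕜 := ℝ) (E := ℝ)).neg) s.integrable hg1
      have h6 : (-innerₗ ℝ : ℝ →ₗ[ℝ] ℝ →ₗ[ℝ] ℝ).flip = -innerₗ ℝ := by
        ext
        simp
      rw [h6] at h5
      rw [SchwartzMap.fourierInv_coe]
      exact h5
    rw [h4]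
    rfl

end Pool.Agent.Helper192.Dil
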