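import Mathlib
import Pool.Agent.Helper192.Dil.A

set_option autoImplicit false

open Filter Topology MeasureTheory
open scoped FourierTransform ENNReal

noncomputable section

namespace Pool.Agent.Helper192.Dil

theorem eLpNorm_sq {α : Type*} {m : MeasurableSpace α} {E : Type*} [NormedAddCommGroup E] (f : α → E) (μ : Measure α) :
    (eLpNorm f 2 μ) ^ 2 = ∫⁻ x, ‖f x‖ₑ ^ 2 ∂μ := by
  rw [eLpNorm_eq_lintegral_rpow_enorm_toReal (by norm_num) (by norm_num)]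
  simp only [ENNReal.toReal_ofNat, one_div, ENNReal.rpow_ofNat]
  rw [← ENNReal.rpow_natCast, ← ENNReal.rpow_mul]
  norm_num

/-- `ψ` is the Hilbert transform of `φ` -/
def IsHP (φ ψ : ℝ → ℂ) : Prop :=
  ∃ F : Lp ℂ 2 (volume : Measure ℝ), (F : ℝ → ℂ) =ᵐ[volume] φ ∧ (hilbert F : ℝ → ℂ) =ᵐ[volume] ψ

theorem memLp_hsym_smul {g : ℝ → ℂ} (hg2 : MemLp g 2 (volume : Measure ℝ)) :
    MemLp (fun ξ => hsym ξ • g ξ) 2 (volume : Measure ℝ) := by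
  refine MemLp.of_le hg2 ?_ ?_
  · exact measurable_hsym.aestronglyMeasurable.smul hg2.1
  · refine Eventually.of_forall (fun ξ => ?_)
    rw [norm_smul]
    have := norm_hsym_le ξ
    have h0 := norm_nonneg (g ξ)
    nlinarith

theorem integrable_hsym_smul {g : ℝ → ℂ} (hg1 : Integrable g) :
    Integrable (fun ξ => hsym ξ • g ξ) := by
  refine Integrable.mono hg1 ?_ ?_
  · exact measurable_hsym.aestronglyMeasurable.smul hg1.1
  · refine Eventually.of_forall (fun ξ => ?_)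
    rw [norm_smul]
    have := norm_hsym_le ξ
    have h0 := norm_nonneg (g ξ)
    nlinarith

theorem isHP_of {g : ℝ → ℂ} (hg1 : Integrable g) (hg2 : MemLp g 2 (volume : Measure ℝ)) :
    IsHP (𝓕⁻ g) (𝓕⁻ (fun ξ => hsym ξ • g ξ)) := by
  refine ⟨𝓕⁻ (hg2.toLp g), fourierInv_toLp hg1 hg2, ?_⟩
  have h2 := memLp_hsym_smul hg2
  have e : hilbert (𝓕⁻ (hg2.toLp g)) = 𝓕⁻ (h2.toLp (fun ξ => hsym ξ • g ξ)) := by
    unfold hilbert
    congr 1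
    rw [MemLp.toLp_eq_toLp_iff]
    have h3 : 𝓕 (𝓕⁻ (hg2.toLp g) : Lp ℂ 2 (volume : Measure ℝ)) = hg2.toLp g := FourierTransform.fourier_fourierInv_eq _
    rw [h3]
    filter_upwards [hg2.coeFn_toLp] with x hx
    rw [hx]
  rw [e]
  exact fourierInv_toLp (integrable_hsym_smul hg1) h2

theorem isHP_congr {φ ψ φ' ψ' : ℝ → ℂ} (h : IsHP φ ψ) (h1 : ∀ x, φ x = φ' x) (h2 : ∀ x, ψ x = ψ' x) : IsHP φ' ψ' := by
  obtain rfl : φ = φ' := funext h1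
  obtain rfl : ψ = ψ' := funext h2
  exact h

/-- `H` bounds the Hilbert transform on finite sums of tensors with values in `Y` -/
def HB (Y : Type*) [NormedAddCommGroup Y] [NormedSpace ℂ Y] (H : ℝ) : Prop :=
  ∀ (σ : Type) (S : Finset σ) (φ ψ : σ → ℝ → ℂ), (∀ s ∈ S, IsHP (φ s) (ψ s)) → ∀ y : σ → Y,
    ∫⁻ x, ‖∑ s ∈ S, ψ s x • y s‖ₑ ^ 2 ≤ ‖H‖ₑ ^ 2 * ∫⁻ x, ‖∑ s ∈ S, φ s x • y s‖ₑ ^ 2

theorem key_ineq {Y : Type*} [NormedAddCommGroup Y] [NormedSpace ℂ Y] (H : ℝ) (hH : HB Y H)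
    {σ : Type} (S : Finset σ) (φ ψ : σ → ℝ → ℂ) (h : ∀ s ∈ S, IsHP (φ s) (ψ s)) (y : σ → Y) :
    ∫⁻ x, ‖∑ s ∈ S, ψ s x • y s‖ₑ ^ 2 ≤ ‖H‖ₑ ^ 2 * ∫⁻ x, ‖∑ s ∈ S, φ s x • y s‖ₑ ^ 2 := hH σ S φ ψ h y

theorem hb_of_umd {Y : Type*} [NormedAddCommGroup Y] [NormedSpace ℂ Y] (hY : IsUMD Y) : ∃ H : ℝ, HB Y H := by
  obtain ⟨C, hC⟩ := hY
  refine ⟨C, ?_⟩
  intro σ S φ ψ h y
  classical
  choose! F hF1 hF2 using h
  have h0 := hC S.card (fun i => F (S.equivFin.symm i)) (fun i => y (S.equivFin.symm i))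
  have h1 : (fun x => ∑ i : Fin S.card, (F (S.equivFin.symm i) : ℝ → ℂ) x • y (S.equivFin.symm i)) =ᵐ[volume] fun x => ∑ s ∈ S, φ s x • y s := by
    have h4 : ∀ᵐ x : ℝ, ∀ s ∈ S, (F s : ℝ → ℂ) x = φ s x := (Filter.eventually_all_finset S).mpr hF1
    filter_upwards [h4] with x hx
    rw [← Finset.sum_coe_sort S, ← Equiv.sum_comp S.equivFin.symm]
    apply Finset.sum_congr rfl
    intro i _
    rw [hx _ (S.equivFin.symm i).2]
  have h2 : (fun x => ∑ i : Fin S.card, (hilbert (F (S.equivFin.symm i)) : ℝ → ℂ) x • y (S.equivFin.symm i)) =ᵐ[volume] fun x => ∑ s ∈ S, ψ s x • y s := by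
    have h4 : ∀ᵐ x : ℝ, ∀ s ∈ S, (hilbert (F s) : ℝ → ℂ) x = ψ s x := (Filter.eventually_all_finset S).mpr hF2
    filter_upwards [h4] with x hx
    rw [← Finset.sum_coe_sort S, ← Equiv.sum_comp S.equivFin.symm]
    apply Finset.sum_congr rfl
    intro i _
    rw [hx _ (S.equivFin.symm i).2]
  rw [eLpNorm_congr_ae h1, eLpNorm_congr_ae h2] at h0
  have h4 := pow_le_pow_left₀ zero_le h0 2
  rw [mul_pow, eLpNorm_sq, eLpNorm_sq] at h4
  have h5 : ‖((C : NNReal) : ℝ)‖ₑ = (C : ℝ≥0∞) := by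
    rw [← ofReal_norm, Real.norm_of_nonneg (NNReal.coe_nonneg C)]
    exact ENNReal.ofReal_coe_nnreal
  rw [h5]
  exact h4

end Pool.Agent.Helper192.Dil
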