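import Mathlib
import Pool.Agent.Helper192.Dil.A
import Pool.Agent.Helper192.Dil.B

set_option autoImplicit false

open Filter Topology MeasureTheory
open scoped FourierTransform ENNReal

noncomputable section

namespace Pool.Agent.Helper192.Dil

/-- frequency window -/
def gw (a : ℝ) : ℝ → ℂ := (Set.Ioc (a - 1 / 2) (a + 1 / 2)).indicator (fun _ => (1 : ℂ))

theorem gw_int (a : ℝ) : Integrable (gw a) := by
  unfold gw
  rw [integrable_indicator_iff measurableSet_Ioc]
  exact integrableOn_const (by simp) (by simp)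

theorem gw_memLp (a : ℝ) : MemLp (gw a) 2 (volume : Measure ℝ) := by
  unfold gw
  exact memLp_indicator_const 2 measurableSet_Ioc 1 (Or.inr (by simp))

/-- the window -/
def win : ℝ → ℂ := 𝓕⁻ (gw 0)

theorem gw_shift (a x : ℝ) : 𝓕⁻ (gw a) x = Complex.exp (2 * Real.pi * a * x * Complex.I) * win x := by
  unfold win
  rw [Real.fourierInv_eq', Real.fourierInv_eq']
  rw [← integral_add_right_eq_self _ a, ← integral_const_mul]
  apply integral_congr_ae
  refine Eventually.of_forall (fun v => ?_)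
  have h : gw a (v + a) = gw 0 v := by
    unfold gw
    by_cases hv : v ∈ Set.Ioc ((0 : ℝ) - 1 / 2) (0 + 1 / 2)
    · rw [Set.indicator_of_mem hv, Set.indicator_of_mem]
      rw [Set.mem_Ioc] at hv ⊢
      constructor <;> linarith [hv.1, hv.2]
    · rw [Set.indicator_of_notMem hv, Set.indicator_of_notMem]
      intro h
      apply hv
      rw [Set.mem_Ioc] at h ⊢
      constructor <;> linarith [h.1, h.2]
  simp only
  rw [h, smul_eq_mul, smul_eq_mul, ← mul_assoc, ← Complex.exp_add]
  congr 2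
  simp only [RCLike.inner_apply, conj_trivial]
  push_cast
  ring

theorem isHP_win (a : ℤ) (ha : a ≠ 0) :
    IsHP (fun x => Complex.exp (2 * Real.pi * a * x * Complex.I) * win x)
      (fun x => (-Complex.I * (SignType.sign a : ℤ)) * (Complex.exp (2 * Real.pi * a * x * Complex.I) * win x)) := by
  have h := isHP_of (gw_int a) (gw_memLp a)
  have e : (fun ξ => hsym ξ • gw a ξ) = fun ξ => (-Complex.I * (SignType.sign a : ℤ)) • gw a ξ := by
    funext ξ
    by_cases hv : ξ ∈ Set.Ioc ((a : ℝ) - 1 / 2) (a + 1 / 2)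
    · congr 1
      unfold hsym
      congr 1
      rw [Set.mem_Ioc] at hv
      rcases lt_or_gt_of_ne ha with h | h
      · have h1 : (a : ℝ) ≤ -1 := by
          have : a ≤ -1 := by omega
          exact_mod_cast this
        rw [Real.sign_of_neg (by linarith [hv.2]), sign_neg h]
        norm_num
      · have h1 : (1 : ℝ) ≤ a := by
          have : 1 ≤ a := by omega
          exact_mod_cast this
        rw [Real.sign_of_pos (by linarith [hv.1]), sign_pos h]
        norm_num
    · unfold gw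
      rw [Set.indicator_of_notMem hv]
      simp
  rw [e] at h
  refine isHP_congr h (fun x => ?_) (fun x => ?_)
  · rw [gw_shift]
    push_cast
    rfl
  · have h2 : 𝓕⁻ (fun ξ => (-Complex.I * (SignType.sign a : ℤ)) • gw a ξ) x = (-Complex.I * (SignType.sign a : ℤ)) * 𝓕⁻ (gw a) x := by
      rw [Real.fourierInv_eq', Real.fourierInv_eq', ← integral_const_mul]
      apply integral_congr_ae
      refine Eventually.of_forall (fun v => ?_)
      simp only [smul_eq_mul]
      ring
    rw [h2, gw_shift]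
    push_cast
    rfl

theorem win_sq : ∫⁻ x, ‖win x‖ₑ ^ 2 = 1 := by
  have h1 := fourierInv_toLp (gw_int 0) (gw_memLp 0)
  have h2 : eLpNorm win 2 (volume : Measure ℝ) = eLpNorm (gw 0) 2 (volume : Measure ℝ) := by
    unfold win
    rw [← eLpNorm_congr_ae h1, ← Lp.enorm_def]
    have h3 : ‖(𝓕⁻ ((gw_memLp 0).toLp (gw 0)) : Lp ℂ 2 (volume : Measure ℝ))‖ = ‖(gw_memLp 0).toLp (gw 0)‖ :=
      (Lp.fourierTransformₗᵢ ℝ ℂ).symm.norm_map _
    have h4 : ‖(𝓕⁻ ((gw_memLp 0).toLp (gw 0)) : Lp ℂ 2 (volume : Measure ℝ))‖ₑ = ‖(gw_memLp 0).toLp (gw 0)‖ₑ := by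
      rw [← ofReal_norm, ← ofReal_norm, h3]
    rw [h4, Lp.enorm_def]
    exact eLpNorm_congr_ae (gw_memLp 0).coeFn_toLp
  rw [← eLpNorm_sq, h2, eLpNorm_sq]
  have h3 : ∀ x, ‖gw 0 x‖ₑ ^ 2 = (Set.Ioc ((0 : ℝ) - 1 / 2) (0 + 1 / 2)).indicator (fun _ => (1 : ℝ≥0∞)) x := by
    intro x
    unfold gw
    by_cases hv : x ∈ Set.Ioc ((0 : ℝ) - 1 / 2) (0 + 1 / 2)
    · rw [Set.indicator_of_mem hv, Set.indicator_of_mem hv]
      simp
    · rw [Set.indicator_of_notMem hv, Set.indicator_of_notMem hv]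
      simp
  simp only [h3]
  rw [lintegral_indicator measurableSet_Ioc]
  simp
  norm_num

end Pool.Agent.Helper192.Dil
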