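import Mathlib
import Pool.Agent.Helper192.Dil.A
import Pool.Agent.Helper192.Dil.B

set_option autoImplicit false

open Filter Topology MeasureTheory
open scoped FourierTransform ENNReal

noncomputable section

namespace Pool.Agent.Helper192.Dil

/-- two-sided exponential -/
def tse (p q a b : ℂ) (v : ℝ) : ℂ := if 0 < v then p * Complex.exp (a * v) else q * Complex.exp (b * v)

theorem tse_eq (p q a b : ℂ) : tse p q a b = fun v => (Set.Ioi (0 : ℝ)).indicator (fun v : ℝ => p * Complex.exp (a * v)) v +
    (Set.Iic (0 : ℝ)).indicator (fun v : ℝ => q * Complex.exp (b * v)) v := by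
  funext v
  unfold tse
  split_ifs with h
  · rw [Set.indicator_of_mem (by exact h), Set.indicator_of_notMem (by simpa using h), add_zero]
  · rw [Set.indicator_of_notMem (by exact h), Set.indicator_of_mem (by simpa using h), zero_add]

theorem tse_int (p q : ℂ) {a b : ℂ} (ha : a.re < 0) (hb : 0 < b.re) : Integrable (tse p q a b) := by
  rw [tse_eq]
  apply Integrable.add
  · rw [integrable_indicator_iff measurableSet_Ioi]
    exact (integrableOn_exp_mul_complex_Ioi ha 0).const_mul p
  · rw [integrable_indicator_iff measurableSet_Iic]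
    exact (integrableOn_exp_mul_complex_Iic hb 0).const_mul q

theorem tse_integral (p q : ℂ) {a b : ℂ} (ha : a.re < 0) (hb : 0 < b.re) : ∫ v, tse p q a b v = q / b - p / a := by
  rw [tse_eq]
  have h1 : Integrable (fun v => (Set.Ioi (0 : ℝ)).indicator (fun v : ℝ => p * Complex.exp (a * v)) v) := by
    rw [integrable_indicator_iff measurableSet_Ioi]
    exact (integrableOn_exp_mul_complex_Ioi ha 0).const_mul p
  have h2 : Integrable (fun v => (Set.Iic (0 : ℝ)).indicator (fun v : ℝ => q * Complex.exp (b * v)) v) := by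
    rw [integrable_indicator_iff measurableSet_Iic]
    exact (integrableOn_exp_mul_complex_Iic hb 0).const_mul q
  rw [integral_add h1 h2, integral_indicator measurableSet_Ioi, integral_indicator measurableSet_Iic,
    integral_const_mul, integral_const_mul, integral_exp_mul_complex_Ioi ha, integral_exp_mul_complex_Iic hb]
  simp
  ring

theorem tse_memLp (p q : ℂ) {a b : ℂ} (ha : a.re < 0) (hb : 0 < b.re) : MemLp (tse p q a b) 2 (volume : Measure ℝ) := by
  have hI := tse_int p q ha hb
  rw [memLp_two_iff_integrable_sq_norm hI.1]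
  refine Integrable.mono' (hI.norm.const_mul (‖p‖ + ‖q‖)) (hI.1.norm.pow 2) (Eventually.of_forall (fun v => ?_))
  rw [Real.norm_of_nonneg (by positivity), sq]
  have h1 : ‖tse p q a b v‖ ≤ ‖p‖ + ‖q‖ := by
    unfold tse
    split_ifs with h
    · rw [norm_mul, Complex.norm_exp]
      have h2 : Real.exp (a * v).re ≤ 1 := by
        rw [Real.exp_le_one_iff, Complex.re_mul_ofReal]
        nlinarith
      have := norm_nonneg p
      have := norm_nonneg q
      nlinarith [Real.exp_pos (a * v).re]
    · rw [norm_mul, Complex.norm_exp]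
      have h2 : Real.exp (b * v).re ≤ 1 := by
        rw [Real.exp_le_one_iff, Complex.re_mul_ofReal]
        push Not at h
        nlinarith
      have := norm_nonneg p
      have := norm_nonneg q
      nlinarith [Real.exp_pos (b * v).re]
  have := norm_nonneg (tse p q a b v)
  gcongr

theorem tse_fourierInv (p q : ℂ) {a b : ℂ} (ha : a.re < 0) (hb : 0 < b.re) (x : ℝ) :
    𝓕⁻ (tse p q a b) x = q / (b + 2 * Real.pi * x * Complex.I) - p / (a + 2 * Real.pi * x * Complex.I) := by
  rw [← tse_integral p q (a := a + 2 * Real.pi * x * Complex.I) (b := b + 2 * Real.pi * x * Complex.I) (by simpa using ha) (by simpa using hb)]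
  rw [Real.fourierInv_eq']
  apply integral_congr_ae
  refine Eventually.of_forall (fun v => ?_)
  simp only [RCLike.inner_apply, conj_trivial, smul_eq_mul]
  unfold tse
  split_ifs with h
  · rw [mul_left_comm, ← Complex.exp_add]
    congr 2
    push_cast
    ring
  · rw [mul_left_comm, ← Complex.exp_add]
    congr 2
    push_cast
    ring

theorem isHP_pois (m : ℝ) :
    IsHP (fun x => ((Real.pi⁻¹ * (1 / (1 + (x - m) ^ 2)) : ℝ) : ℂ)) (fun x => ((Real.pi⁻¹ * ((x - m) / (1 + (x - m) ^ 2)) : ℝ) : ℂ)) := by
  set a : ℂ := -(2 * Real.pi) - 2 * Real.pi * m * Complex.I with ha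
  set b : ℂ := (2 * Real.pi) - 2 * Real.pi * m * Complex.I with hb
  have hpi := Real.pi_pos
  have har : a.re < 0 := by
    rw [ha]
    simp
    exact hpi
  have hbr : 0 < b.re := by
    rw [hb]
    simp
    exact hpi
  have h := isHP_of (tse_int 1 1 har hbr) (tse_memLp 1 1 har hbr)
  have e : (𝓕⁻ (fun ξ => hsym ξ • tse 1 1 a b ξ) : ℝ → ℂ) = 𝓕⁻ (tse (-Complex.I) Complex.I a b) := by
    have hae : (fun ξ => hsym ξ • tse 1 1 a b ξ) =ᵐ[volume] tse (-Complex.I) Complex.I a b := by
      have h0 : ∀ᵐ ξ : ℝ, ξ ≠ 0 := by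
        rw [ae_iff]
        simp
      filter_upwards [h0] with ξ hξ
      unfold tse hsym
      split_ifs with h1
      · rw [Real.sign_of_pos h1]
        simp
      · rw [Real.sign_of_neg (lt_of_le_of_ne (not_lt.mp h1) hξ)]
        simp
    funext x
    exact Real.fourierInv_congr_ae hae x
  rw [e] at h
  have hpc : (Real.pi : ℂ) ≠ 0 := by exact_mod_cast hpi.ne'
  refine isHP_congr h (fun x => ?_) (fun x => ?_)
  · rw [tse_fourierInv 1 1 har hbr]
    have e1 : b + 2 * Real.pi * x * Complex.I = 2 * Real.pi * (1 + (x - m) * Complex.I) := by rw [hb]; ring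
    have e2 : a + 2 * Real.pi * x * Complex.I = -(2 * Real.pi * (1 - (x - m) * Complex.I)) := by rw [ha]; ring
    rw [e1, e2]
    have n1 : (1 + ((x : ℂ) - m) * Complex.I) ≠ 0 := by
      intro h
      have := congrArg Complex.re h
      simp at this
    have n2 : (1 - ((x : ℂ) - m) * Complex.I) ≠ 0 := by
      intro h
      have := congrArg Complex.re h
      simp at this
    have n3 : (1 + ((x : ℂ) - m) ^ 2) = (1 + ((x : ℂ) - m) * Complex.I) * (1 - ((x : ℂ) - m) * Complex.I) := by
      ring_nf
      rw [Complex.I_sq]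
      ring
    push_cast
    rw [n3]
    field_simp
    ring
  · rw [tse_fourierInv _ _ har hbr]
    have e1 : b + 2 * Real.pi * x * Complex.I = 2 * Real.pi * (1 + (x - m) * Complex.I) := by rw [hb]; ring
    have e2 : a + 2 * Real.pi * x * Complex.I = -(2 * Real.pi * (1 - (x - m) * Complex.I)) := by rw [ha]; ring
    rw [e1, e2]
    have n1 : (1 + ((x : ℂ) - m) * Complex.I) ≠ 0 := by
      intro h
      have := congrArg Complex.re h
      simp at this
    have n2 : (1 - ((x : ℂ) - m) * Complex.I) ≠ 0 := by
      intro h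
      have := congrArg Complex.re h
      simp at this
    have n3 : (1 + ((x : ℂ) - m) ^ 2) = (1 + ((x : ℂ) - m) * Complex.I) * (1 - ((x : ℂ) - m) * Complex.I) := by
      ring_nf
      rw [Complex.I_sq]
      ring
    push_cast
    rw [n3]
    generalize ((x : ℂ) - m) = u at n1 n2
    have h1 : Complex.I / (2 * Real.pi * (1 + u * Complex.I)) - -Complex.I / -(2 * Real.pi * (1 - u * Complex.I)) =
        (Real.pi : ℂ)⁻¹ * (u / ((1 + u * Complex.I) * (1 - u * Complex.I))) := by
      rw [neg_div_neg_eq, div_sub_div _ _ (by simp [hpc, n1]) (by simp [hpc, n2]), inv_mul_eq_div, div_div,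
        div_eq_div_iff (by simp [hpc, n1, n2]) (by simp [hpc, n1, n2])]
      ring_nf
      simp only [Complex.I_sq, Complex.I_pow_four]
      ring
    exact h1

end Pool.Agent.Helper192.Dil
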