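import Mathlib
import Pool.Agent.Helper192.Dil.A
import Pool.Agent.Helper192.Dil.B
import Pool.Agent.Helper192.Dil.D

set_option autoImplicit false

open Filter Topology MeasureTheory
open scoped FourierTransform ENNReal

noncomputable section

namespace Pool.Agent.Helper192.Dil

theorem arctan_bound (u : ℝ) : 1 / (1 + u ^ 2) ≤ 2 * (Real.arctan (u + 1 / 2) - Real.arctan (u - 1 / 2)) := by
  have h1 : (1 / (1 + u ^ 2)) / 2 * ((u + 1 / 2) - (u - 1 / 2)) ≤ Real.arctan (u + 1 / 2) - Real.arctan (u - 1 / 2) := by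
    apply (convex_Icc (u - 1 / 2) (u + 1 / 2)).mul_sub_le_image_sub_of_le_deriv (f := Real.arctan)
    · exact Real.continuous_arctan.continuousOn
    · exact Real.differentiable_arctan.differentiableOn
    · intro x hx
      rw [interior_Icc, Set.mem_Ioo] at hx
      rw [Real.deriv_arctan, div_div]
      apply one_div_le_one_div_of_le (by positivity)
      nlinarith [sq_nonneg (u - (x - u)), sq_nonneg (x - u)]
    · rw [Set.mem_Icc]; constructor <;> linarith
    · rw [Set.mem_Icc]; constructor <;> linarith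
    · linarith
  linarith

theorem pois_sum (N : ℕ) (x : ℝ) : ∑ m ∈ Finset.range N, 1 / (1 + (x - m) ^ 2) ≤ 2 * Real.pi := by
  have h1 : ∑ m ∈ Finset.range N, 1 / (1 + (x - m) ^ 2) ≤
      ∑ m ∈ Finset.range N, 2 * ((fun k : ℕ => Real.arctan ((k : ℝ) - 1 / 2 - x)) (m + 1) - (fun k : ℕ => Real.arctan ((k : ℝ) - 1 / 2 - x)) m) := by
    apply Finset.sum_le_sum
    intro m _
    have h2 := arctan_bound ((m : ℝ) - x)
    have e1 : (x - m) ^ 2 = ((m : ℝ) - x) ^ 2 := by ring
    have e2 : ((m + 1 : ℕ) : ℝ) - 1 / 2 - x = m - x + 1 / 2 := by push_cast; ring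
    have e3 : (m : ℝ) - 1 / 2 - x = m - x - 1 / 2 := by ring
    simp only
    rw [e1, e2, e3]
    exact h2
  rw [← Finset.mul_sum, Finset.sum_range_sub (fun k : ℕ => Real.arctan ((k : ℝ) - 1 / 2 - x)) N] at h1
  have h2 := Real.arctan_lt_pi_div_two (((N : ℕ) : ℝ) - 1 / 2 - x)
  have h3 := Real.neg_pi_div_two_lt_arctan (((0 : ℕ) : ℝ) - 1 / 2 - x)
  linarith

/-- Poisson kernel -/
def pk (x : ℝ) : ℝ := Real.pi⁻¹ * (1 / (1 + x ^ 2))

/-- conjugate Poisson kernel -/
def qk (x : ℝ) : ℝ := Real.pi⁻¹ * (x / (1 + x ^ 2))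

theorem pk_nonneg (x : ℝ) : 0 ≤ pk x := by
  unfold pk
  have := Real.pi_pos
  positivity

theorem pk_cont : Continuous pk := by
  unfold pk
  refine continuous_const.mul (continuous_const.div (by fun_prop) (fun x => by positivity))

theorem qk_cont : Continuous qk := by
  unfold qk
  refine continuous_const.mul (continuous_id.div (by fun_prop) (fun x => by positivity))

theorem pk_sum (N : ℕ) (x : ℝ) : ∑ m ∈ Finset.range N, pk (x - m) ≤ 2 := by
  unfold pk
  rw [← Finset.mul_sum, inv_mul_le_iff₀ Real.pi_pos]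
  have := pois_sum N x
  linarith

theorem pk_lint (m : ℝ) : ∫⁻ x, ENNReal.ofReal (pk (x - m)) = 1 := by
  have h0 : ∫⁻ x, ENNReal.ofReal (pk (x - m)) = ∫⁻ x, ENNReal.ofReal (pk x) := lintegral_sub_right_eq_self (fun x => ENNReal.ofReal (pk x)) m
  rw [h0]
  have hI : Integrable pk := by
    unfold pk
    have := (integrable_inv_one_add_sq).const_mul Real.pi⁻¹
    simpa [one_div] using this
  rw [← ofReal_integral_eq_lintegral_ofReal hI (Eventually.of_forall pk_nonneg)]
  have h1 : ∫ x, pk x = 1 := by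
    unfold pk
    rw [integral_const_mul]
    have h2 : ∫ x : ℝ, 1 / (1 + x ^ 2) = Real.pi := by
      simp only [one_div]
      exact integral_univ_inv_one_add_sq
    rw [h2]
    exact inv_mul_cancel₀ Real.pi_ne_zero
  rw [h1]
  simp

theorem pk_sum_sq (N : ℕ) : ∫⁻ x, (ENNReal.ofReal (∑ m ∈ Finset.range N, pk (x - m))) ^ 2 ≤ 2 * N := by
  have h1 : ∀ x, (ENNReal.ofReal (∑ m ∈ Finset.range N, pk (x - m))) ^ 2 ≤ 2 * ∑ m ∈ Finset.range N, ENNReal.ofReal (pk (x - m)) := by
    intro x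
    rw [← ENNReal.ofReal_sum_of_nonneg (fun m _ => pk_nonneg _), sq]
    gcongr
    have := pk_sum N x
    calc ENNReal.ofReal (∑ m ∈ Finset.range N, pk (x - m)) ≤ ENNReal.ofReal 2 := ENNReal.ofReal_le_ofReal this
      _ = 2 := by simp
  calc ∫⁻ x, (ENNReal.ofReal (∑ m ∈ Finset.range N, pk (x - m))) ^ 2 ≤ ∫⁻ x, 2 * ∑ m ∈ Finset.range N, ENNReal.ofReal (pk (x - m)) :=
        lintegral_mono h1
    _ = 2 * ∑ m ∈ Finset.range N, ∫⁻ x, ENNReal.ofReal (pk (x - m)) := by
        rw [lintegral_const_mul, lintegral_finsetSum]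
        · intro m _
          exact (pk_cont.comp (continuous_id.sub continuous_const)).measurable.ennreal_ofReal
        · apply Finset.measurable_sum
          intro m _
          exact (pk_cont.comp (continuous_id.sub continuous_const)).measurable.ennreal_ofReal
    _ = 2 * N := by
        simp only [pk_lint]
        simp

/-- the discrete kernel -/
def cc (j : ℝ) : ℝ := Real.pi⁻¹ / 2 * (Real.log (1 + (j + 1 / 2) ^ 2) - Real.log (1 + (j - 1 / 2) ^ 2))

theorem cc_neg (j : ℝ) : cc (-j) = -cc j := by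
  unfold cc
  have e1 : (-j + 1 / 2) ^ 2 = (j - 1 / 2) ^ 2 := by ring
  have e2 : (-j - 1 / 2) ^ 2 = (j + 1 / 2) ^ 2 := by ring
  rw [e1, e2]
  ring

theorem cc_zero : cc 0 = 0 := by
  have := cc_neg 0
  rw [neg_zero] at this
  linarith

theorem cc_nonneg {j : ℝ} (hj : 0 ≤ j) : 0 ≤ cc j := by
  unfold cc
  have h1 : Real.log (1 + (j - 1 / 2) ^ 2) ≤ Real.log (1 + (j + 1 / 2) ^ 2) := by
    apply Real.log_le_log (by positivity)
    nlinarith
  have := Real.pi_pos
  have h2 : 0 < Real.pi⁻¹ / 2 := by positivity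
  nlinarith

theorem qk_integral (n m : ℝ) : ∫ x in Set.Ioc (n - 1 / 2) (n + 1 / 2), qk (x - m) = cc (n - m) := by
  rw [← intervalIntegral.integral_of_le (by linarith)]
  have h1 : ∀ x ∈ Set.uIcc (n - 1 / 2) (n + 1 / 2), HasDerivAt (fun x => Real.pi⁻¹ / 2 * Real.log (1 + (x - m) ^ 2)) (qk (x - m)) x := by
    intro x _
    have h2 : HasDerivAt (fun x => 1 + (x - m) ^ 2) (2 * (x - m)) x := by
      have h3 : HasDerivAt (fun x => x - m) 1 x := (hasDerivAt_id x).sub_const m
      have h4 := (h3.pow 2).const_add 1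
      simpa using h4
    have h5 := (h2.log (by positivity)).const_mul (Real.pi⁻¹ / 2)
    have e : Real.pi⁻¹ / 2 * (2 * (x - m) / (1 + (x - m) ^ 2)) = qk (x - m) := by
      unfold qk
      field_simp
    rw [← e]
    exact h5
  rw [intervalIntegral.integral_eq_sub_of_hasDerivAt h1]
  · unfold cc
    have e1 : n + 1 / 2 - m = n - m + 1 / 2 := by ring
    have e2 : n - 1 / 2 - m = n - m - 1 / 2 := by ring
    rw [e1, e2]
    ring
  · exact (qk_cont.comp (continuous_id.sub continuous_const)).intervalIntegrable _ _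

end Pool.Agent.Helper192.Dil
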