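import Mathlib
import Pool.Agent.Helper192.Dil.A
import Pool.Agent.Helper192.Dil.B
import Pool.Agent.Helper192.Dil.D
import Pool.Agent.Helper192.Dil.E

set_option autoImplicit false

open Filter Topology MeasureTheory
open scoped FourierTransform ENNReal

noncomputable section

namespace Pool.Agent.Helper192.Dil

variable {Y : Type*} [NormedAddCommGroup Y] [NormedSpace ℂ Y]

/-- bounded one-parameter group -/
structure IsGrp (U : ℝ → Y →L[ℂ] Y) (M : ℝ) : Prop where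
  zero : U 0 = 1
  add : ∀ s t, U (s + t) = U s * U t
  bound : ∀ t, ‖U t‖ ≤ M

theorem F1 (H : ℝ) (hH : HB Y H)
    {U : ℝ → Y →L[ℂ] Y} {M : ℝ} (hU : IsGrp U M) (N : ℕ) (τ : ℝ) (y : Y) :
    ∫⁻ x, ‖∑ m ∈ Finset.range N, ((qk (x - m) : ℝ) : ℂ) • U (m * τ) y‖ₑ ^ 2 ≤ ENNReal.ofReal (‖H‖ ^ 2 * ((M * ‖y‖) ^ 2 * (2 * N))) := by
  have hM : 0 ≤ M := (norm_nonneg _).trans (hU.bound 0)
  have h1 := key_ineq H hH (Finset.range N) (fun m x => ((pk (x - m) : ℝ) : ℂ)) (fun m x => ((qk (x - m) : ℝ) : ℂ))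
    (fun m _ => isHP_pois m) (fun m => U (m * τ) y)
  refine h1.trans ?_
  have h2 : ∀ x : ℝ, ‖∑ m ∈ Finset.range N, ((pk (x - m) : ℝ) : ℂ) • U (m * τ) y‖ₑ ^ 2 ≤
      ENNReal.ofReal ((M * ‖y‖) ^ 2) * (ENNReal.ofReal (∑ m ∈ Finset.range N, pk (x - m))) ^ 2 := by
    intro x
    rw [← ofReal_norm, ← ENNReal.ofReal_pow (norm_nonneg _), ← ENNReal.ofReal_pow (Finset.sum_nonneg (fun m _ => pk_nonneg _)),
      ← ENNReal.ofReal_mul (by positivity), ← mul_pow]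
    apply ENNReal.ofReal_le_ofReal
    have h3 : ‖∑ m ∈ Finset.range N, ((pk (x - m) : ℝ) : ℂ) • U (m * τ) y‖ ≤ M * ‖y‖ * ∑ m ∈ Finset.range N, pk (x - m) := by
      refine (norm_sum_le _ _).trans ?_
      rw [Finset.mul_sum]
      apply Finset.sum_le_sum
      intro m _
      rw [norm_smul, Complex.norm_real, Real.norm_of_nonneg (pk_nonneg _), mul_comm]
      have h4 : ‖U (m * τ) y‖ ≤ M * ‖y‖ := ((U (m * τ)).le_opNorm y).trans (by have := hU.bound (m * τ); gcongr)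
      have := pk_nonneg (x - m)
      gcongr
    gcongr
  have h3 : ∫⁻ x, ‖∑ m ∈ Finset.range N, ((pk (x - m) : ℝ) : ℂ) • U (m * τ) y‖ₑ ^ 2 ≤ ENNReal.ofReal ((M * ‖y‖) ^ 2) * (2 * N) := by
    refine (lintegral_mono h2).trans ?_
    rw [lintegral_const_mul]
    · have := pk_sum_sq N
      gcongr
    · apply Measurable.pow_const
      apply Measurable.ennreal_ofReal
      apply Finset.measurable_sum
      intro m _
      exact (pk_cont.comp (continuous_id.sub continuous_const)).measurable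
  have h4 : ENNReal.ofReal (‖H‖ ^ 2 * ((M * ‖y‖) ^ 2 * (2 * N))) = ‖H‖ₑ ^ 2 * (ENNReal.ofReal ((M * ‖y‖) ^ 2) * (2 * N)) := by
    rw [ENNReal.ofReal_mul (by positivity), ENNReal.ofReal_mul (by positivity), ENNReal.ofReal_mul (by positivity), ENNReal.ofReal_pow (norm_nonneg _), ofReal_norm]
    simp
  rw [h4]
  gcongr

theorem jensen {G : ℝ → Y} (hG : Continuous G) (n : ℝ) :
    ‖∫ x in Set.Ioc (n - 1 / 2) (n + 1 / 2), G x‖ₑ ^ 2 ≤ ∫⁻ x in Set.Ioc (n - 1 / 2) (n + 1 / 2), ‖G x‖ₑ ^ 2 := by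
  have : IsProbabilityMeasure (volume.restrict (Set.Ioc (n - 1 / 2) (n + 1 / 2))) := by
    constructor
    rw [Measure.restrict_apply MeasurableSet.univ, Set.univ_inter, Real.volume_Ioc]
    norm_num
  have hsm : AEStronglyMeasurable G (volume.restrict (Set.Ioc (n - 1 / 2) (n + 1 / 2))) := hG.aestronglyMeasurable
  have h1 := eLpNorm_le_eLpNorm_of_exponent_le (μ := volume.restrict (Set.Ioc (n - 1 / 2) (n + 1 / 2))) (p := 1) (q := 2) (by norm_num) hsm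
  rw [eLpNorm_one_eq_lintegral_enorm] at h1
  rw [← eLpNorm_sq]
  have h2 : ‖∫ x in Set.Ioc (n - 1 / 2) (n + 1 / 2), G x‖ₑ ≤ ∫⁻ x in Set.Ioc (n - 1 / 2) (n + 1 / 2), ‖G x‖ₑ := enorm_integral_le_lintegral_enorm _
  have h3 := h2.trans h1
  gcongr

theorem F2 {U : ℝ → Y →L[ℂ] Y} {M : ℝ} (hU : IsGrp U M) (N n : ℕ) (τ : ℝ) (y : Y) [CompleteSpace Y] :
    ‖∑ m ∈ Finset.range N, ((cc (n - m) : ℝ) : ℂ) • U ((m - n) * τ) y‖ₑ ^ 2 ≤
      ENNReal.ofReal (M ^ 2) * ∫⁻ x in Set.Ioc ((n : ℝ) - 1 / 2) (n + 1 / 2), ‖∑ m ∈ Finset.range N, ((qk (x - m) : ℝ) : ℂ) • U (m * τ) y‖ₑ ^ 2 := by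
  have hM : 0 ≤ M := (norm_nonneg _).trans (hU.bound 0)
  have hcont : ∀ m : ℕ, Continuous (fun x : ℝ => ((qk (x - m) : ℝ) : ℂ)) := fun m =>
    Complex.continuous_ofReal.comp (qk_cont.comp (continuous_id.sub continuous_const))
  have hcont2 : Continuous (fun x : ℝ => ∑ m ∈ Finset.range N, ((qk (x - m) : ℝ) : ℂ) • U (m * τ) y) := by
    apply continuous_finsetSum
    intro m _
    exact (hcont m).smul continuous_const
  have h1 : ∑ m ∈ Finset.range N, ((cc (n - m) : ℝ) : ℂ) • U ((m - n) * τ) y =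
      ∫ x in Set.Ioc ((n : ℝ) - 1 / 2) (n + 1 / 2), U (-(n * τ)) (∑ m ∈ Finset.range N, ((qk (x - m) : ℝ) : ℂ) • U (m * τ) y) := by
    have h2 : ∀ x : ℝ, U (-(n * τ)) (∑ m ∈ Finset.range N, ((qk (x - m) : ℝ) : ℂ) • U (m * τ) y) =
        ∑ m ∈ Finset.range N, ((qk (x - m) : ℝ) : ℂ) • U ((m - n) * τ) y := by
      intro x
      rw [map_sum]
      apply Finset.sum_congr rfl
      intro m _
      rw [map_smul]
      congr 1
      have : ((m : ℝ) - n) * τ = -(n * τ) + m * τ := by ring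
      rw [this, hU.add]
      rfl
    simp only [h2]
    rw [integral_finsetSum]
    · apply Finset.sum_congr rfl
      intro m _
      rw [integral_smul_const, integral_complex_ofReal, qk_integral]
    · intro m _
      exact (((hcont m).smul continuous_const).integrableOn_Icc (a := (n : ℝ) - 1 / 2) (b := n + 1 / 2)).mono_set Set.Ioc_subset_Icc_self
  rw [h1]
  refine (jensen ((U (-(n * τ))).continuous.comp hcont2) n).trans ?_
  rw [← lintegral_const_mul _ (hcont2.enorm.measurable.pow_const 2)]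
  apply lintegral_mono
  intro x
  simp only
  rw [ENNReal.ofReal_pow hM, ← mul_pow]
  have h3 : ‖U (-(n * τ)) (∑ m ∈ Finset.range N, ((qk (x - m) : ℝ) : ℂ) • U (m * τ) y)‖ₑ ≤
      ENNReal.ofReal M * ‖∑ m ∈ Finset.range N, ((qk (x - m) : ℝ) : ℂ) • U (m * τ) y‖ₑ := by
    refine ((U (-(n * τ))).le_opENorm _).trans ?_
    gcongr
    rw [← ofReal_norm]
    exact ENNReal.ofReal_le_ofReal (hU.bound _)
  gcongr
  exact h3

theorem F3 [CompleteSpace Y] (H : ℝ) (hH : HB Y H)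
    {U : ℝ → Y →L[ℂ] Y} {M : ℝ} (hU : IsGrp U M) (N : ℕ) (τ : ℝ) (y : Y) :
    ‖∑ n ∈ Finset.range N, ∑ m ∈ Finset.range N, ((cc (n - m) : ℝ) : ℂ) • U ((m - n) * τ) y‖ ≤ 2 * N * (M ^ 2 * ‖H‖ * ‖y‖) := by
  have hM : 0 ≤ M := (norm_nonneg _).trans (hU.bound 0)
  obtain ⟨a, ha⟩ : ∃ a : ℕ → Y, a = fun n : ℕ => ∑ m ∈ Finset.range N, ((cc (n - m) : ℝ) : ℂ) • U ((m - n) * τ) y := ⟨_, rfl⟩
  obtain ⟨g, hg⟩ : ∃ g : ℝ → Y, g = fun x => ∑ m ∈ Finset.range N, ((qk (x - m) : ℝ) : ℂ) • U (m * τ) y := ⟨_, rfl⟩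
  have h1 : ∀ n, ENNReal.ofReal (‖a n‖ ^ 2) ≤ ENNReal.ofReal (M ^ 2) * ∫⁻ x in Set.Ioc ((n : ℝ) - 1 / 2) (n + 1 / 2), ‖g x‖ₑ ^ 2 := by
    intro n
    have := F2 hU N n τ y
    rw [ENNReal.ofReal_pow (norm_nonneg _), ofReal_norm, ha, hg]
    exact this
  have h2 : ∫⁻ x, ‖g x‖ₑ ^ 2 ≤ ENNReal.ofReal (‖H‖ ^ 2 * ((M * ‖y‖) ^ 2 * (2 * N))) := by
    rw [hg]
    exact F1 H hH hU N τ y
  have h3 : ∑ n ∈ Finset.range N, ∫⁻ x in Set.Ioc ((n : ℝ) - 1 / 2) (n + 1 / 2), ‖g x‖ₑ ^ 2 ≤ ∫⁻ x, ‖g x‖ₑ ^ 2 := by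
    rw [← lintegral_biUnion_finset]
    · exact setLIntegral_le_lintegral _ _
    · intro i _ j _ hij
      rw [Function.onFun, Set.disjoint_left]
      intro x hx1 hx2
      rw [Set.mem_Ioc] at hx1 hx2
      apply hij
      rcases lt_trichotomy i j with h | h | h
      · have : (i : ℝ) + 1 ≤ j := by exact_mod_cast h
        linarith [hx1.2, hx2.1]
      · exact h
      · have : (j : ℝ) + 1 ≤ i := by exact_mod_cast h
        linarith [hx1.1, hx2.2]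
    · intro n _
      exact measurableSet_Ioc
  have h4 : ∑ n ∈ Finset.range N, ‖a n‖ ^ 2 ≤ M ^ 2 * (‖H‖ ^ 2 * ((M * ‖y‖) ^ 2 * (2 * N))) := by
    have h5 : ENNReal.ofReal (∑ n ∈ Finset.range N, ‖a n‖ ^ 2) ≤ ENNReal.ofReal (M ^ 2 * (‖H‖ ^ 2 * ((M * ‖y‖) ^ 2 * (2 * N)))) := by
      rw [ENNReal.ofReal_sum_of_nonneg (fun n _ => by positivity), ENNReal.ofReal_mul (by positivity)]
      calc ∑ n ∈ Finset.range N, ENNReal.ofReal (‖a n‖ ^ 2) ≤ ∑ n ∈ Finset.range N, ENNReal.ofReal (M ^ 2) * ∫⁻ x in Set.Ioc ((n : ℝ) - 1 / 2) (n + 1 / 2), ‖g x‖ₑ ^ 2 :=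
            Finset.sum_le_sum (fun n _ => h1 n)
        _ = ENNReal.ofReal (M ^ 2) * ∑ n ∈ Finset.range N, ∫⁻ x in Set.Ioc ((n : ℝ) - 1 / 2) (n + 1 / 2), ‖g x‖ₑ ^ 2 := by rw [Finset.mul_sum]
        _ ≤ _ := by
          have := h3.trans h2
          gcongr
    exact (ENNReal.ofReal_le_ofReal_iff (by positivity)).mp h5
  have h5 : ‖∑ n ∈ Finset.range N, a n‖ ^ 2 ≤ (2 * N * (M ^ 2 * ‖H‖ * ‖y‖)) ^ 2 := by
    have h6 : ‖∑ n ∈ Finset.range N, a n‖ ≤ ∑ n ∈ Finset.range N, ‖a n‖ := norm_sum_le _ _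
    have h7 := sq_sum_le_card_mul_sum_sq (s := Finset.range N) (f := fun n => ‖a n‖)
    rw [Finset.card_range] at h7
    have h8 : ‖∑ n ∈ Finset.range N, a n‖ ^ 2 ≤ (∑ n ∈ Finset.range N, ‖a n‖) ^ 2 := by gcongr
    have h9 : (N : ℝ) * ∑ n ∈ Finset.range N, ‖a n‖ ^ 2 ≤ N * (M ^ 2 * (‖H‖ ^ 2 * ((M * ‖y‖) ^ 2 * (2 * N)))) := by gcongr
    have h10 : 0 ≤ (N * (M ^ 2 * ‖H‖ * ‖y‖)) ^ 2 := by positivity
    calc ‖∑ n ∈ Finset.range N, a n‖ ^ 2 ≤ (∑ n ∈ Finset.range N, ‖a n‖) ^ 2 := h8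
      _ ≤ N * ∑ n ∈ Finset.range N, ‖a n‖ ^ 2 := h7
      _ ≤ N * (M ^ 2 * (‖H‖ ^ 2 * ((M * ‖y‖) ^ 2 * (2 * N)))) := h9
      _ = 2 * (N * (M ^ 2 * ‖H‖ * ‖y‖)) ^ 2 := by ring
      _ ≤ 4 * (N * (M ^ 2 * ‖H‖ * ‖y‖)) ^ 2 := by linarith
      _ = _ := by ring
  have h6 := le_of_sq_le_sq h5 (by positivity)
  rw [ha] at h6
  exact h6

end Pool.Agent.Helper192.Dil
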