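import Mathlib
import Pool.Agent.Helper192.Dil.A
import Pool.Agent.Helper192.Dil.B
import Pool.Agent.Helper192.Dil.D
import Pool.Agent.Helper192.Dil.E
import Pool.Agent.Helper192.Dil.F

set_option autoImplicit false

open Filter Topology MeasureTheory
open scoped FourierTransform ENNReal

noncomputable section

namespace Pool.Agent.Helper192.Dil

variable {Y : Type*} [NormedAddCommGroup Y] [NormedSpace ℂ Y]

/-- weights -/
def ww (m n : ℕ) : ℝ := if m < n then cc (n - m) else 0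

theorem ww_nonneg (m n : ℕ) : 0 ≤ ww m n := by
  unfold ww
  split_ifs with h
  · apply cc_nonneg
    have : (m : ℝ) ≤ n := by exact_mod_cast h.le
    linarith
  · exact le_rfl

/-- total weight -/
def LL (N : ℕ) : ℝ := ∑ n ∈ Finset.range N, ∑ m ∈ Finset.range N, ww m n

/-- partial sums of the kernel -/
def DD (J : ℕ) : ℝ := ∑ j ∈ Finset.range J, cc (j + 1)

theorem DD_tendsto : Tendsto DD atTop atTop := by
  have h1 : ∀ J, DD J = Real.pi⁻¹ / 2 * Real.log (1 + ((J : ℝ) + 1 / 2) ^ 2) - Real.pi⁻¹ / 2 * Real.log (1 + (1 / 2) ^ 2) := by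
    intro J
    induction J with
    | zero => simp [DD]
    | succ J ih =>
      unfold DD at ih ⊢
      rw [Finset.sum_range_succ, ih]
      unfold cc
      have e1 : (J : ℝ) + 1 - 1 / 2 = J + 1 / 2 := by ring
      rw [e1]
      push_cast
      ring
  have h2 : Tendsto (fun J : ℕ => Real.log (1 + ((J : ℝ) + 1 / 2) ^ 2)) atTop atTop := by
    apply Real.tendsto_log_atTop.comp
    apply tendsto_atTop_mono (f := fun J : ℕ => (J : ℝ)) _ tendsto_natCast_atTop_atTop
    intro J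
    nlinarith [sq_nonneg ((J : ℝ) - 1 / 2)]
  have h3 : Tendsto (fun J : ℕ => Real.pi⁻¹ / 2 * Real.log (1 + ((J : ℝ) + 1 / 2) ^ 2) - Real.pi⁻¹ / 2 * Real.log (1 + (1 / 2) ^ 2)) atTop atTop := by
    apply tendsto_atTop_add_const_right
    exact h2.const_mul_atTop (by have := Real.pi_pos; positivity)
  exact h3.congr (fun J => (h1 J).symm)

theorem LL_ge (J : ℕ) : J * DD J ≤ LL (2 * J) := by
  unfold LL
  rw [Finset.sum_comm]
  have h1 : ∀ m ∈ Finset.range J, DD J ≤ ∑ n ∈ Finset.range (2 * J), ww m n := by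
    intro m hm
    have hm' := Finset.mem_range.mp hm
    have h2 : DD J = ∑ n ∈ Finset.Ico (m + 1) (m + 1 + J), ww m n := by
      rw [Finset.sum_Ico_eq_sum_range]
      have e : m + 1 + J - (m + 1) = J := by omega
      rw [e]
      unfold DD
      apply Finset.sum_congr rfl
      intro j _
      unfold ww
      rw [if_pos (by omega)]
      congr 1
      push_cast
      ring
    rw [h2]
    apply Finset.sum_le_sum_of_subset_of_nonneg
    · intro n hn
      rw [Finset.mem_Ico] at hn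
      rw [Finset.mem_range]
      omega
    · intro n _ _
      exact ww_nonneg m n
  calc (J : ℝ) * DD J = ∑ m ∈ Finset.range J, DD J := by simp
    _ ≤ ∑ m ∈ Finset.range J, ∑ n ∈ Finset.range (2 * J), ww m n := Finset.sum_le_sum h1
    _ ≤ ∑ m ∈ Finset.range (2 * J), ∑ n ∈ Finset.range (2 * J), ww m n := by
      apply Finset.sum_le_sum_of_subset_of_nonneg
      · apply Finset.range_mono
        omega
      · intro m _ _
        exact Finset.sum_nonneg (fun n _ => ww_nonneg m n)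

theorem fold_sum (N : ℕ) (V : ℝ → Y) :
    ∑ n ∈ Finset.range N, ∑ m ∈ Finset.range N, ((cc (n - m) : ℝ) : ℂ) • V (m - n) =
      ∑ n ∈ Finset.range N, ∑ m ∈ Finset.range N, ((ww m n : ℝ) : ℂ) • (V (m - n) - V (n - m)) := by
  have h1 : ∀ n m : ℕ, ((cc (n - m) : ℝ) : ℂ) • V (m - n) = ((ww m n : ℝ) : ℂ) • V (m - n) - ((ww n m : ℝ) : ℂ) • V (m - n) := by
    intro n m
    unfold ww
    rcases lt_trichotomy m n with h | h | h
    · rw [if_pos h, if_neg (by omega)]
      simp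
    · subst h
      rw [sub_self, cc_zero]
      simp
    · rw [if_neg (by omega), if_pos h]
      have : (n : ℝ) - m = -(m - n) := by ring
      rw [this, cc_neg]
      simp
  simp only [h1, smul_sub, Finset.sum_sub_distrib]
  congr 1
  rw [Finset.sum_comm]

theorem claimB [CompleteSpace Y] (H : ℝ) (hH : HB Y H)
    {U : ℝ → Y →L[ℂ] Y} {M : ℝ} (hU : IsGrp U M) {ε : ℝ} (hε : 0 < ε) :
    ∃ (S : Finset (ℕ × ℕ)) (lam : ℕ × ℕ → ℝ) (R : ℝ), (∀ s ∈ S, 0 ≤ lam s) ∧ ∑ s ∈ S, lam s = 1 ∧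
      (∀ s ∈ S, 1 ≤ (s.1 : ℝ) - s.2 ∧ (s.1 : ℝ) - s.2 ≤ R) ∧
      ∀ (τ : ℝ) (y : Y), ‖∑ s ∈ S, ((lam s : ℝ) : ℂ) • (U (((s.1 : ℝ) - s.2) * τ) y - U (-(((s.1 : ℝ) - s.2) * τ)) y)‖ ≤ ε * ‖y‖ := by
  have hM : 0 ≤ M := (norm_nonneg _).trans (hU.bound 0)
  obtain ⟨J, hJ0, hJ⟩ : ∃ J : ℕ, 0 < J ∧ 4 * (M ^ 2 * ‖H‖) / ε + 1 ≤ DD J := by
    obtain ⟨J, h1, h2⟩ := ((eventually_gt_atTop 0).and (DD_tendsto.eventually_ge_atTop (4 * (M ^ 2 * ‖H‖) / ε + 1))).exists
    exact ⟨J, h1, h2⟩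
  have hJr : (0 : ℝ) < J := by exact_mod_cast hJ0
  have hD : 0 < DD J := by
    have : 0 ≤ 4 * (M ^ 2 * ‖H‖) / ε := by positivity
    linarith
  have hL : 0 < LL (2 * J) := lt_of_lt_of_le (by positivity) (LL_ge J)
  refine ⟨((Finset.range (2 * J)) ×ˢ (Finset.range (2 * J))).filter (fun s => s.2 < s.1), fun s => ww s.2 s.1 / LL (2 * J), 2 * J, ?_, ?_, ?_, ?_⟩
  · intro s _
    exact div_nonneg (ww_nonneg _ _) hL.le
  · rw [← Finset.sum_div, Finset.sum_filter]
    have : ∑ s ∈ (Finset.range (2 * J)) ×ˢ (Finset.range (2 * J)), (if s.2 < s.1 then ww s.2 s.1 else 0) = LL (2 * J) := by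
      rw [Finset.sum_product]
      unfold LL
      apply Finset.sum_congr rfl
      intro n _
      apply Finset.sum_congr rfl
      intro m _
      unfold ww
      simp only
      split_ifs <;> rfl
    rw [this, div_self hL.ne']
  · intro s hs
    rw [Finset.mem_filter, Finset.mem_product, Finset.mem_range, Finset.mem_range] at hs
    constructor
    · have : (s.2 : ℝ) + 1 ≤ s.1 := by exact_mod_cast hs.2
      linarith
    · have h1 : (s.1 : ℝ) ≤ 2 * J := by exact_mod_cast hs.1.1.le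
      have h2 : (0 : ℝ) ≤ s.2 := by positivity
      linarith
  · intro τ y
    have h1 := F3 H hH hU (2 * J) τ y
    have h2 := fold_sum (2 * J) (fun x => U (x * τ) y)
    rw [h2] at h1
    have h3 : ∑ s ∈ ((Finset.range (2 * J)) ×ˢ (Finset.range (2 * J))).filter (fun s => s.2 < s.1),
        ((ww s.2 s.1 / LL (2 * J) : ℝ) : ℂ) • (U (((s.1 : ℝ) - s.2) * τ) y - U (-(((s.1 : ℝ) - s.2) * τ)) y) =
        (-((LL (2 * J) : ℝ) : ℂ)⁻¹) • ∑ n ∈ Finset.range (2 * J), ∑ m ∈ Finset.range (2 * J), ((ww m n : ℝ) : ℂ) • (U (((m : ℝ) - n) * τ) y - U (((n : ℝ) - m) * τ) y) := by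
      rw [Finset.sum_filter, Finset.sum_product, Finset.smul_sum]
      apply Finset.sum_congr rfl
      intro n _
      rw [Finset.smul_sum]
      apply Finset.sum_congr rfl
      intro m _
      simp only
      have e1 : -(((n : ℝ) - m) * τ) = (m - n) * τ := by ring
      rw [e1]
      split_ifs with h
      · push_cast
        rw [smul_smul, neg_mul, neg_smul, ← smul_neg, neg_sub]
        congr 1
        ring
      · unfold ww
        rw [if_neg h]
        simp
    rw [h3, norm_smul, norm_neg, norm_inv, Complex.norm_real, Real.norm_of_nonneg hL.le]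
    have h4 : (LL (2 * J))⁻¹ * ‖∑ n ∈ Finset.range (2 * J), ∑ m ∈ Finset.range (2 * J), ((ww m n : ℝ) : ℂ) • (U (((m : ℝ) - n) * τ) y - U (((n : ℝ) - m) * τ) y)‖ ≤
        (LL (2 * J))⁻¹ * (2 * ((2 * J : ℕ) : ℝ) * (M ^ 2 * ‖H‖ * ‖y‖)) := by
      gcongr
    refine h4.trans ?_
    rw [inv_mul_le_iff₀ hL]
    have h5 : 4 * (M ^ 2 * ‖H‖) ≤ DD J * ε := by
      have : 4 * (M ^ 2 * ‖H‖) / ε ≤ DD J := by linarith
      rwa [div_le_iff₀ hε] at this
    have h6 := LL_ge J
    have hy := norm_nonneg y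
    push_cast
    calc 2 * (2 * (J : ℝ)) * (M ^ 2 * ‖H‖ * ‖y‖) = J * (4 * (M ^ 2 * ‖H‖)) * ‖y‖ := by ring
      _ ≤ J * (DD J * ε) * ‖y‖ := by gcongr
      _ = (J * DD J) * (ε * ‖y‖) := by ring
      _ ≤ LL (2 * J) * (ε * ‖y‖) := by gcongr

end Pool.Agent.Helper192.Dil
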