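import Mathlib
import Pool.Agent.Helper192.Dil.A
import Pool.Agent.Helper192.Dil.B
import Pool.Agent.Helper192.Dil.C

set_option autoImplicit false

open Filter Topology MeasureTheory
open scoped FourierTransform ENNReal

noncomputable section

namespace Pool.Agent.Helper192.Dil

variable {Y : Type*} [NormedAddCommGroup Y] [NormedSpace ℂ Y]

/-- the torus -/
abbrev TT (n : ℕ) := Fin n → AddCircle (1 : ℝ)

/-- Haar measure on the torus -/
def mt (n : ℕ) : Measure (TT n) := Measure.pi (fun _ => (AddCircle.haarAddCircle : Measure (AddCircle (1 : ℝ))))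

instance (n : ℕ) : IsProbabilityMeasure (mt n) := by
  unfold mt
  infer_instance

instance (n : ℕ) : Measure.IsAddLeftInvariant (mt n) := by
  unfold mt
  infer_instance

/-- characters of the torus -/
def ch {n : ℕ} (ν : Fin n → ℤ) (θ : TT n) : ℂ := ∏ i, fourier (ν i) (θ i)

theorem ch_cont {n : ℕ} (ν : Fin n → ℤ) : Continuous (ch ν) := by
  unfold ch
  apply continuous_finsetProd
  intro i _
  exact (fourier (ν i)).continuous.comp (continuous_apply i)

theorem win_cont : Continuous win := by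
  refine VectorFourier.fourierIntegral_continuous Real.continuous_fourierChar ?_ (gw_int 0)
  exact (continuous_inner (𝕜 := ℝ) (E := ℝ)).neg

/-- line in direction `m` -/
def ln {n : ℕ} (m : Fin n → ℤ) (x : ℝ) : TT n := fun i => ((x * m i : ℝ) : AddCircle (1 : ℝ))

theorem ln_cont {n : ℕ} (m : Fin n → ℤ) : Continuous (ln m) := by
  unfold ln
  apply continuous_pi
  intro i
  exact (AddCircle.continuous_mk' 1).comp (continuous_id.mul continuous_const)

theorem ch_ln {n : ℕ} (ν m : Fin n → ℤ) (x : ℝ) (θ : TT n) :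
    ch ν (ln m x + θ) = Complex.exp (2 * Real.pi * ((∑ i, ν i * m i : ℤ) : ℂ) * x * Complex.I) * ch ν θ := by
  unfold ch ln
  simp only [Pi.add_apply]
  have h1 : ∀ i, fourier (ν i) (((x * m i : ℝ) : AddCircle (1 : ℝ)) + θ i) =
      Complex.exp (2 * Real.pi * (ν i * m i : ℤ) * x * Complex.I) * fourier (ν i) (θ i) := by
    intro i
    rw [fourier_apply, fourier_apply, smul_add, AddCircle.toCircle_add, Circle.coe_mul]
    congr 1
    have h2 : (ν i) • ((x * m i : ℝ) : AddCircle (1 : ℝ)) = ((ν i * (x * m i) : ℝ) : AddCircle (1 : ℝ)) := by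
      rw [← AddCircle.coe_zsmul]
      simp
    rw [h2, AddCircle.toCircle_apply_mk, Circle.coe_exp]
    congr 1
    push_cast
    ring
  simp only [h1, Finset.prod_mul_distrib]
  rw [← Complex.exp_sum]
  congr 2
  push_cast
  rw [Finset.mul_sum, Finset.sum_mul, Finset.sum_mul]

theorem line_avg {n : ℕ} (m : Fin n → ℤ) {P : TT n → Y} (hP : Continuous P) :
    ∫⁻ θ, ∫⁻ x : ℝ, ‖win x • P (ln m x + θ)‖ₑ ^ 2 ∂volume ∂(mt n) = ∫⁻ θ, ‖P θ‖ₑ ^ 2 ∂(mt n) := by
  rw [lintegral_lintegral_swap]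
  · have h1 : ∀ x : ℝ, ∫⁻ θ, ‖win x • P (ln m x + θ)‖ₑ ^ 2 ∂(mt n) = ‖win x‖ₑ ^ 2 * ∫⁻ θ, ‖P θ‖ₑ ^ 2 ∂(mt n) := by
      intro x
      simp only [enorm_smul, mul_pow]
      rw [lintegral_const_mul]
      · rw [lintegral_add_left_eq_self (fun θ => ‖P θ‖ₑ ^ 2) (ln m x)]
      · exact ((hP.comp (continuous_const.add continuous_id)).enorm.measurable.pow_const 2)
    simp only [h1]
    rw [lintegral_mul_const _ (win_cont.enorm.measurable.pow_const 2), win_sq, one_mul]
  · apply Measurable.aemeasurable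
    apply Measurable.pow_const
    apply Continuous.measurable
    apply Continuous.enorm
    exact (win_cont.comp continuous_snd).smul (hP.comp (((ln_cont m).comp continuous_snd).add continuous_fst))

theorem torus_ineq (H : ℝ) (hH : HB Y H)
    {n : ℕ} (S : Finset (Fin n → ℤ)) (c : (Fin n → ℤ) → Y) (m : Fin n → ℤ) (hm : ∀ ν ∈ S, ∑ i, ν i * m i ≠ 0) :
    ∫⁻ θ, ‖∑ ν ∈ S, ch ν θ • (((SignType.sign (∑ i, ν i * m i) : ℤ) : ℂ) • c ν)‖ₑ ^ 2 ∂(mt n) ≤
      ‖H‖ₑ ^ 2 * ∫⁻ θ, ‖∑ ν ∈ S, ch ν θ • c ν‖ₑ ^ 2 ∂(mt n) := by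
  have hc1 : Continuous (fun θ : TT n => ∑ ν ∈ S, ch ν θ • (((SignType.sign (∑ i, ν i * m i) : ℤ) : ℂ) • c ν)) :=
    continuous_finsetSum _ (fun ν _ => (ch_cont ν).smul continuous_const)
  have hc2 : Continuous (fun θ : TT n => ∑ ν ∈ S, ch ν θ • c ν) :=
    continuous_finsetSum _ (fun ν _ => (ch_cont ν).smul continuous_const)
  rw [← line_avg m hc1, ← line_avg m hc2, ← lintegral_const_mul']
  · apply lintegral_mono
    intro θ
    have h1 := key_ineq H hH S (fun ν x => Complex.exp (2 * Real.pi * ((∑ i, ν i * m i : ℤ) : ℂ) * x * Complex.I) * win x)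
      (fun ν x => (-Complex.I * (SignType.sign (∑ i, ν i * m i) : ℤ)) * (Complex.exp (2 * Real.pi * ((∑ i, ν i * m i : ℤ) : ℂ) * x * Complex.I) * win x))
      (fun ν hν => isHP_win _ (hm ν hν)) (fun ν => ch ν θ • c ν)
    have h2 : ∀ x : ℝ, ‖∑ ν ∈ S, ((-Complex.I * (SignType.sign (∑ i, ν i * m i) : ℤ)) * (Complex.exp (2 * Real.pi * ((∑ i, ν i * m i : ℤ) : ℂ) * x * Complex.I) * win x)) • ch ν θ • c ν‖ₑ =
        ‖win x • ∑ ν ∈ S, ch ν (ln m x + θ) • (((SignType.sign (∑ i, ν i * m i) : ℤ) : ℂ) • c ν)‖ₑ := by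
      intro x
      have e : ∑ ν ∈ S, ((-Complex.I * (SignType.sign (∑ i, ν i * m i) : ℤ)) * (Complex.exp (2 * Real.pi * ((∑ i, ν i * m i : ℤ) : ℂ) * x * Complex.I) * win x)) • ch ν θ • c ν =
          (-Complex.I) • (win x • ∑ ν ∈ S, ch ν (ln m x + θ) • (((SignType.sign (∑ i, ν i * m i) : ℤ) : ℂ) • c ν)) := by
        rw [Finset.smul_sum, Finset.smul_sum]
        apply Finset.sum_congr rfl
        intro ν _
        rw [ch_ln]
        simp only [smul_smul]
        congr 1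
        ring
      have hI : ‖-Complex.I‖ₑ = 1 := by
        rw [enorm_neg, ← ofReal_norm, Complex.norm_I, ENNReal.ofReal_one]
      rw [e, enorm_smul, hI, one_mul]
    have h3 : ∀ x : ℝ, ‖∑ ν ∈ S, (Complex.exp (2 * Real.pi * ((∑ i, ν i * m i : ℤ) : ℂ) * x * Complex.I) * win x) • ch ν θ • c ν‖ₑ =
        ‖win x • ∑ ν ∈ S, ch ν (ln m x + θ) • c ν‖ₑ := by
      intro x
      congr 1
      rw [Finset.smul_sum]
      apply Finset.sum_congr rfl
      intro ν _
      rw [ch_ln]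
      simp only [smul_smul]
      congr 1
      ring
    simp only [h2, h3] at h1
    exact h1
  · exact ENNReal.pow_ne_top enorm_ne_top

end Pool.Agent.Helper192.Dil
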