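import Mathlib

set_option autoImplicit false

open Filter Topology MeasureTheory

noncomputable section

namespace Pool.Agent.Helper192.Dil

/-- lacunary integer directions -/
def mv (D : ℕ) (η : ℕ → ℤ) (n : ℕ) : Fin n → ℤ := fun i => η i * (2 * D + 1 : ℤ) ^ (i : ℕ)

/-- box of frequencies -/
def bx (D n : ℕ) : Finset (Fin n → ℤ) := Fintype.piFinset (fun _ => Finset.Icc (-(D : ℤ)) D)

theorem mem_bx {D n : ℕ} {ν : Fin n → ℤ} : ν ∈ bx D n ↔ ∀ i, |ν i| ≤ D := by
  unfold bx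
  rw [Fintype.mem_piFinset]
  simp only [Finset.mem_Icc, abs_le]

theorem mv_small (D : ℕ) {η : ℕ → ℤ} (hη : ∀ i, |η i| = 1) (n : ℕ) (ν : Fin n → ℤ) (h : ∀ i, |ν i| ≤ D) :
    2 * |∑ i, ν i * mv D η n i| + 1 ≤ (2 * D + 1 : ℤ) ^ n := by
  induction n with
  | zero => simp
  | succ n ih =>
    rw [Fin.sum_univ_castSucc]
    have h1 := ih (fun i => ν i.castSucc) (fun i => h _)
    have e : ∀ i : Fin n, mv D η (n + 1) i.castSucc = mv D η n i := fun i => rfl
    simp only [e]
    have h2 := abs_add_le (∑ i : Fin n, ν i.castSucc * mv D η n i) (ν (Fin.last n) * mv D η (n + 1) (Fin.last n))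
    have h3 : |ν (Fin.last n) * mv D η (n + 1) (Fin.last n)| ≤ D * (2 * D + 1 : ℤ) ^ n := by
      unfold mv
      rw [abs_mul, abs_mul, hη, one_mul, abs_of_nonneg (by positivity : (0 : ℤ) ≤ (2 * D + 1 : ℤ) ^ ((Fin.last n : Fin (n + 1)) : ℕ))]
      rw [Fin.val_last]
      have := h (Fin.last n)
      gcongr
    rw [pow_succ]
    linarith

theorem sign_mv (D : ℕ) {η : ℕ → ℤ} (hη : ∀ i, |η i| = 1) (n : ℕ) (ν : Fin (n + 1) → ℤ) (h : ∀ i, |ν i| ≤ D) :
    SignType.sign (∑ i, ν i * mv D η (n + 1) i) = if ν (Fin.last n) = 0 then SignType.sign (∑ i, (Fin.init ν) i * mv D η n i)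
      else SignType.sign (ν (Fin.last n) * η n) := by
  rw [Fin.sum_univ_castSucc]
  have e : ∀ i : Fin n, mv D η (n + 1) i.castSucc = mv D η n i := fun i => rfl
  have e2 : ∀ i : Fin n, ν i.castSucc = (Fin.init ν) i := fun i => rfl
  simp only [e, e2]
  have h1 := mv_small D hη n (Fin.init ν) (fun i => h _)
  have hl : mv D η (n + 1) (Fin.last n) = η n * (2 * D + 1 : ℤ) ^ n := by
    unfold mv
    rw [Fin.val_last]
  rw [hl]
  generalize (∑ i, (Fin.init ν) i * mv D η n i) = s at h1 ⊢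
  generalize hz : ν (Fin.last n) = z
  split_ifs with hz0
  · rw [hz0]
    simp
  · have hz1 : ν (Fin.last n) ≠ 0 := by rw [hz]; exact hz0
    rw [← mul_assoc]
    have h2 : z * η n ≠ 0 := by
      apply mul_ne_zero hz0
      intro h0
      have := hη n
      rw [h0] at this
      simp at this
    generalize z * η n = w at h2
    have hp : 0 < (2 * D + 1 : ℤ) ^ n := by positivity
    have hs := abs_lt.mp (show |s| < (2 * D + 1 : ℤ) ^ n by have := abs_nonneg s; linarith)
    rcases lt_or_gt_of_ne h2 with hw | hw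
    · rw [sign_neg hw, sign_neg]
      have : w ≤ -1 := by omega
      nlinarith [hs.1, hs.2]
    · rw [sign_pos hw, sign_pos]
      have : 1 ≤ w := by omega
      nlinarith [hs.1, hs.2]

/-- the two-step multiplier -/
def Th (D : ℕ) (η : ℕ → ℤ) (n : ℕ) (ν : Fin n → ℤ) : ℤ :=
  (SignType.sign (∑ i, ν i * mv D (fun _ => 1) n i) : ℤ) * (SignType.sign (∑ i, ν i * mv D η n i) : ℤ)

theorem Th_succ (D : ℕ) {η : ℕ → ℤ} (hη : ∀ i, |η i| = 1) (n : ℕ) (ν : Fin (n + 1) → ℤ) (h : ∀ i, |ν i| ≤ D) :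
    Th D η (n + 1) ν = if ν (Fin.last n) = 0 then Th D η n (Fin.init ν) else η n := by
  unfold Th
  rw [sign_mv D hη n ν h, sign_mv D (η := fun _ => 1) (fun _ => by simp) n ν h]
  split_ifs with h0
  · rfl
  · rw [mul_one, sign_mul]
    push_cast
    rw [← mul_assoc]
    have h1 : ((SignType.sign (ν (Fin.last n)) : ℤ)) * (SignType.sign (ν (Fin.last n)) : ℤ) = 1 := by
      rcases lt_or_gt_of_ne h0 with h | h
      · rw [sign_neg h]; norm_num
      · rw [sign_pos h]; norm_num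
    rw [h1, one_mul]
    rcases abs_eq (by norm_num : (0 : ℤ) ≤ 1) |>.mp (hη n) with h | h
    · rw [h]; simp
    · rw [h]; simp

variable {A : Type*} [CommRing A]

theorem snoc_sum {B : Type*} [AddCommMonoid B] (D n : ℕ) (F : (Fin (n + 1) → ℤ) → B) :
    ∑ ν ∈ bx D (n + 1), F ν = ∑ a ∈ Finset.Icc (-(D : ℤ)) D, ∑ ν ∈ bx D n, F (Fin.snoc (α := fun _ => ℤ) ν a) := by
  rw [← Finset.sum_product']
  refine Finset.sum_nbij' (fun ν => (ν (Fin.last n), Fin.init ν)) (fun p => Fin.snoc (α := fun _ => ℤ) p.2 p.1) ?_ ?_ ?_ ?_ ?_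
  · intro ν hν
    rw [mem_bx] at hν
    rw [Finset.mem_product]
    constructor
    · simp only [Finset.mem_Icc]
      exact abs_le.mp (hν _)
    · simp only
      rw [mem_bx]
      exact fun i => hν _
  · intro p hp
    rw [Finset.mem_product, mem_bx, Finset.mem_Icc] at hp
    rw [mem_bx]
    intro i
    refine Fin.lastCases ?_ (fun i => ?_) i
    · rw [Fin.snoc_last]
      exact abs_le.mpr hp.1
    · rw [Fin.snoc_castSucc]
      exact hp.2 i
  · intro ν _
    simp
  · intro p _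
    simp
  · intro ν _
    simp

/-- the recursion -/
def sE (α β : ℕ → A) (η : ℕ → ℤ) : ℕ → A
  | 0 => 0
  | (k + 1) => sE α β η k * β k + (η k : A) * (∏ i ∈ Finset.range k, α i) * (α k - β k)

theorem T_sum (D : ℕ) {η : ℕ → ℤ} (hη : ∀ i, |η i| = 1) (C : ℕ → ℤ → A) (n : ℕ) :
    ∑ ν ∈ bx D n, (Th D η n ν : A) * ∏ i : Fin n, C i (ν i) =
      sE (fun i => ∑ a ∈ Finset.Icc (-(D : ℤ)) D, C i a) (fun i => C i 0) η n := by
  induction n with
  | zero =>
    unfold sE
    apply Finset.sum_eq_zero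
    intro ν _
    unfold Th
    simp
  | succ n ih =>
    rw [snoc_sum]
    have h1 : ∀ a ∈ Finset.Icc (-(D : ℤ)) D, ∑ ν ∈ bx D n, (Th D η (n + 1) (Fin.snoc (α := fun _ => ℤ) ν a) : A) * ∏ i : Fin (n + 1), C i ((Fin.snoc (α := fun _ => ℤ) ν a : Fin (n + 1) → ℤ) i) =
        if a = 0 then sE (fun i => ∑ a ∈ Finset.Icc (-(D : ℤ)) D, C i a) (fun i => C i 0) η n * C n 0
          else (η n : A) * (∏ i ∈ Finset.range n, ∑ a ∈ Finset.Icc (-(D : ℤ)) D, C i a) * C n a := by
      intro a ha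
      have h2 : ∀ ν ∈ bx D n, (Th D η (n + 1) (Fin.snoc (α := fun _ => ℤ) ν a) : A) * ∏ i : Fin (n + 1), C i ((Fin.snoc (α := fun _ => ℤ) ν a : Fin (n + 1) → ℤ) i) =
          (if a = 0 then (Th D η n ν : A) else (η n : A)) * ((∏ i : Fin n, C i (ν i)) * C n a) := by
        intro ν hν
        rw [Th_succ D hη]
        · rw [Fin.snoc_last, Fin.init_snoc, Fin.prod_univ_castSucc]
          simp only [Fin.snoc_castSucc, Fin.snoc_last, Fin.val_castSucc, Fin.val_last]
          split_ifs <;> rfl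
        · intro i
          rw [mem_bx] at hν
          rw [Finset.mem_Icc] at ha
          refine Fin.lastCases ?_ (fun i => ?_) i
          · rw [Fin.snoc_last]
            exact abs_le.mpr ha
          · rw [Fin.snoc_castSucc]
            exact hν i
      rw [Finset.sum_congr rfl h2]
      split_ifs with h0
      · subst h0
        rw [← ih, Finset.sum_mul]
        apply Finset.sum_congr rfl
        intro ν _
        ring
      · rw [← Finset.mul_sum, ← Finset.sum_mul]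
        have h3 : ∑ ν ∈ bx D n, ∏ i : Fin n, C i (ν i) = ∏ i ∈ Finset.range n, ∑ a ∈ Finset.Icc (-(D : ℤ)) D, C i a := by
          rw [← Fin.prod_univ_eq_prod_range (fun i => ∑ a ∈ Finset.Icc (-(D : ℤ)) D, C i a) n, Finset.prod_univ_sum]
          rfl
        rw [h3]
        ring
    rw [Finset.sum_congr rfl h1]
    have h0 : (0 : ℤ) ∈ Finset.Icc (-(D : ℤ)) D := by
      rw [Finset.mem_Icc]
      constructor <;> omega
    rw [← Finset.add_sum_erase _ _ h0, if_pos rfl]
    have h2 : ∑ a ∈ (Finset.Icc (-(D : ℤ)) D).erase 0, (if a = 0 then sE (fun i => ∑ a ∈ Finset.Icc (-(D : ℤ)) D, C i a) (fun i => C i 0) η n * C n 0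
          else (η n : A) * (∏ i ∈ Finset.range n, ∑ a ∈ Finset.Icc (-(D : ℤ)) D, C i a) * C n a) =
        (η n : A) * (∏ i ∈ Finset.range n, ∑ a ∈ Finset.Icc (-(D : ℤ)) D, C i a) * ((∑ a ∈ Finset.Icc (-(D : ℤ)) D, C n a) - C n 0) := by
      have h3 : (∑ a ∈ Finset.Icc (-(D : ℤ)) D, C n a) - C n 0 = ∑ a ∈ (Finset.Icc (-(D : ℤ)) D).erase 0, C n a := by
        rw [← Finset.add_sum_erase _ _ h0]
        ring
      rw [h3, Finset.mul_sum]
      apply Finset.sum_congr rfl
      intro a ha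
      rw [if_neg (Finset.ne_of_mem_erase ha)]
    rw [h2]
    rfl

end Pool.Agent.Helper192.Dil
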