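import Mathlib

set_option autoImplicit false

open Filter Topology MeasureTheory

noncomputable section

namespace Pool.Agent.Helper192.Dil

/-- iterated smoothstep -/
def smi : ℕ → ℝ → ℝ
  | 0, x => x
  | (r + 1), x => 3 * (smi r x) ^ 2 - 2 * (smi r x) ^ 3

theorem smi_mem (r : ℕ) {x : ℝ} (h0 : 0 ≤ x) (h1 : x ≤ 1) : 0 ≤ smi r x ∧ smi r x ≤ 1 := by
  induction r with
  | zero => exact ⟨h0, h1⟩
  | succ r ih =>
    obtain ⟨a, b⟩ := ih
    show 0 ≤ 3 * (smi r x) ^ 2 - 2 * (smi r x) ^ 3 ∧ 3 * (smi r x) ^ 2 - 2 * (smi r x) ^ 3 ≤ 1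
    generalize smi r x = y at a b
    constructor
    · nlinarith [mul_nonneg (mul_nonneg a a) (sub_nonneg.mpr b), mul_nonneg a a]
    · nlinarith [mul_nonneg (mul_nonneg (sub_nonneg.mpr b) (sub_nonneg.mpr b)) a, mul_nonneg (sub_nonneg.mpr b) (sub_nonneg.mpr b)]

theorem smi_symm (r : ℕ) (x : ℝ) : smi r (1 - x) = 1 - smi r x := by
  induction r with
  | zero => rfl
  | succ r ih =>
    show 3 * (smi r (1 - x)) ^ 2 - 2 * (smi r (1 - x)) ^ 3 = 1 - (3 * (smi r x) ^ 2 - 2 * (smi r x) ^ 3)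
    rw [ih]
    ring

/-- `p(1-p)` -/
def vv (r : ℕ) (x : ℝ) : ℝ := smi r x * (1 - smi r x)

theorem vv_succ (r : ℕ) (x : ℝ) : vv (r + 1) x = vv r x ^ 2 * (3 + 4 * vv r x) := by
  unfold vv
  show (3 * (smi r x) ^ 2 - 2 * (smi r x) ^ 3) * (1 - (3 * (smi r x) ^ 2 - 2 * (smi r x) ^ 3)) = _
  ring

theorem vv_nonneg (r : ℕ) {x : ℝ} (h0 : 0 ≤ x) (h1 : x ≤ 1) : 0 ≤ vv r x := by
  obtain ⟨a, b⟩ := smi_mem r h0 h1
  unfold vv
  nlinarith

theorem vv_le (r : ℕ) (x : ℝ) : vv r x ≤ 1 / 4 := by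
  unfold vv
  nlinarith [sq_nonneg (smi r x - 1 / 2)]

theorem vv_tendsto {x : ℝ} (h0 : 0 ≤ x) (h1 : x ≤ 1) (hx : x ≠ 1 / 2) : Tendsto (fun r => vv r x) atTop (𝓝 0) := by
  have hv0 : vv 0 x < 1 / 4 := by
    unfold vv
    show x * (1 - x) < 1 / 4
    have : 0 < (x - 1 / 2) ^ 2 := by
      have : x - 1 / 2 ≠ 0 := sub_ne_zero.mpr hx
      positivity
    nlinarith
  have hv00 := vv_nonneg 0 h0 h1
  obtain ⟨κ, hκ⟩ : ∃ κ : ℝ, κ = vv 0 x * (3 + 4 * vv 0 x) := ⟨_, rfl⟩
  have hκ0 : 0 ≤ κ := by rw [hκ]; positivity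
  have hκ1 : κ < 1 := by rw [hκ]; nlinarith
  have hb : ∀ r, vv r x ≤ vv 0 x * κ ^ r := by
    intro r
    induction r with
    | zero => simp
    | succ r ih =>
      have hr := vv_nonneg r h0 h1
      have hle : vv r x ≤ vv 0 x := by
        refine ih.trans ?_
        have : κ ^ r ≤ 1 := pow_le_one₀ hκ0 hκ1.le
        nlinarith
      rw [vv_succ, pow_succ]
      have h2 : vv r x * (3 + 4 * vv r x) ≤ κ := by
        rw [hκ]
        nlinarith
      calc vv r x ^ 2 * (3 + 4 * vv r x) = vv r x * (vv r x * (3 + 4 * vv r x)) := by ring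
        _ ≤ (vv 0 x * κ ^ r) * κ := by
          have h3 : 0 ≤ vv r x * (3 + 4 * vv r x) := by positivity
          exact mul_le_mul ih h2 h3 (by positivity)
        _ = vv 0 x * (κ ^ r * κ) := by ring
  refine squeeze_zero (fun r => vv_nonneg r h0 h1) hb ?_
  have := (tendsto_pow_atTop_nhds_zero_of_lt_one hκ0 hκ1).const_mul (vv 0 x)
  simpa using this

/-- the unit circle -/
abbrev T1 := AddCircle (1 : ℝ)

/-- Haar measure on the circle -/
abbrev m1 : Measure T1 := AddCircle.haarAddCircle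

theorem int_fourier (a : ℤ) : ∫ θ, (fourier a θ : ℂ) ∂m1 = if a = 0 then 1 else 0 := by
  split_ifs with h
  · subst h
    simp
  · exact integral_eq_zero_of_add_right_eq_neg (μ := m1) (fourier_add_half_inv_index h (by norm_num))

theorem exists_coeff (f : C(T1, ℂ)) (hf : f ∈ (fourierSubalgebra (T := (1 : ℝ))).toSubalgebra) :
    ∃ (D : ℕ) (c : ℤ → ℂ), (∀ a, a ∉ Finset.Icc (-(D : ℤ)) D → c a = 0) ∧
      ∀ θ, ∑ a ∈ Finset.Icc (-(D : ℤ)) D, c a * fourier a θ = f θ := by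
  have h1 : f ∈ Submodule.span ℂ (Set.range (@fourier (1 : ℝ))) := by
    rw [← fourierSubalgebra_coe]
    exact hf
  obtain ⟨c, hc⟩ := Finsupp.mem_span_range_iff_exists_finsupp.mp h1
  refine ⟨c.support.sup Int.natAbs, c, ?_, ?_⟩
  · intro a ha
    by_contra hne
    apply ha
    have h2 : a.natAbs ≤ c.support.sup Int.natAbs := Finset.le_sup (f := Int.natAbs) (Finsupp.mem_support_iff.mpr hne)
    rw [Finset.mem_Icc]
    omega
  · intro θ
    rw [← hc, Finsupp.sum]
    have h2 : c.support ⊆ Finset.Icc (-((c.support.sup Int.natAbs : ℕ) : ℤ)) (c.support.sup Int.natAbs : ℕ) := by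
      intro a ha
      have h2 : a.natAbs ≤ c.support.sup Int.natAbs := Finset.le_sup (f := Int.natAbs) ha
      rw [Finset.mem_Icc]
      omega
    rw [← Finset.sum_subset h2]
    · rw [ContinuousMap.coe_sum, Finset.sum_apply]
      apply Finset.sum_congr rfl
      intro a _
      rfl
    · intro a _ ha
      rw [Finsupp.notMem_support_iff.mp ha, zero_mul]

theorem int_sum (D : ℕ) (c : ℤ → ℂ) : ∫ θ, ∑ a ∈ Finset.Icc (-(D : ℤ)) D, c a * fourier a θ ∂m1 = c 0 := by
  rw [integral_finsetSum]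
  · simp only [integral_const_mul, int_fourier, mul_ite, mul_one, mul_zero]
    rw [Finset.sum_ite_eq', if_pos]
    rw [Finset.mem_Icc]
    constructor <;> omega
  · intro a _
    exact ((fourier a).continuous.integrable_of_hasCompactSupport (HasCompactSupport.of_compactSpace _)).const_mul _

theorem int_sq (D : ℕ) (c : ℤ → ℂ) :
    ∫ θ, (∑ a ∈ Finset.Icc (-(D : ℤ)) D, c a * fourier a θ) ^ 2 ∂m1 = ∑ a ∈ Finset.Icc (-(D : ℤ)) D, c a * c (-a) := by
  have h1 : ∀ θ : T1, (∑ a ∈ Finset.Icc (-(D : ℤ)) D, c a * fourier a θ) ^ 2 =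
      ∑ a ∈ Finset.Icc (-(D : ℤ)) D, ∑ b ∈ Finset.Icc (-(D : ℤ)) D, (c a * c b) * fourier (a + b) θ := by
    intro θ
    rw [sq, Finset.sum_mul_sum]
    apply Finset.sum_congr rfl
    intro a _
    apply Finset.sum_congr rfl
    intro b _
    rw [fourier_add]
    ring
  simp only [h1]
  have hI : ∀ a b : ℤ, Integrable (fun θ : T1 => (c a * c b) * fourier (a + b) θ) m1 := by
    intro a b
    exact ((fourier (a + b)).continuous.integrable_of_hasCompactSupport (HasCompactSupport.of_compactSpace _)).const_mul _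
  rw [integral_finsetSum]
  · apply Finset.sum_congr rfl
    intro a ha
    rw [integral_finsetSum]
    · simp only [integral_const_mul, int_fourier, mul_ite, mul_one, mul_zero]
      have h2 : ∀ b, (a + b = 0) ↔ (b = -a) := fun b => ⟨fun h => by omega, fun h => by omega⟩
      simp only [h2]
      rw [Finset.sum_ite_eq', if_pos]
      rw [Finset.mem_Icc] at ha ⊢
      constructor <;> omega
    · intro b _
      exact hI a b
  · intro a _
    exact integrable_finsetSum _ (fun b _ => hI a b)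

/-- starting point -/
def x0 (θ : T1) : ℝ := (1 + (fourier 1 θ : ℂ).re) / 2

theorem x0_mem (θ : T1) : 0 ≤ x0 θ ∧ x0 θ ≤ 1 := by
  unfold x0
  have h1 : ‖(fourier 1 θ : ℂ)‖ = 1 := Circle.norm_coe _
  have h2 := abs_le.mp ((Complex.abs_re_le_norm (fourier 1 θ : ℂ)).trans h1.le)
  constructor <;> linarith [h2.1, h2.2]

theorem x0_cont : Continuous x0 := by
  unfold x0
  exact (continuous_const.add (Complex.continuous_re.comp (fourier 1).continuous)).div_const _

theorem smi_cont (r : ℕ) : Continuous (smi r) := by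
  induction r with
  | zero => exact continuous_id
  | succ r ih =>
    show Continuous (fun x => 3 * (smi r x) ^ 2 - 2 * (smi r x) ^ 3)
    fun_prop

/-- trigonometric polynomials -/
def PP : ℕ → C(T1, ℂ)
  | 0 => (1 / 2 : ℂ) • 1 + (1 / 4 : ℂ) • (fourier 1 + fourier (-1))
  | (r + 1) => (3 : ℂ) • (PP r) ^ 2 - (2 : ℂ) • (PP r) ^ 3

theorem PP_mem (r : ℕ) : PP r ∈ (fourierSubalgebra (T := (1 : ℝ))).toSubalgebra := by
  have hf : ∀ n : ℤ, (fourier n : C(T1, ℂ)) ∈ (fourierSubalgebra (T := (1 : ℝ))).toSubalgebra := fun n =>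
    Algebra.subset_adjoin ⟨n, rfl⟩
  induction r with
  | zero =>
    exact add_mem (Subalgebra.smul_mem _ (one_mem _) _) (Subalgebra.smul_mem _ (add_mem (hf _) (hf _)) _)
  | succ r ih =>
    exact sub_mem (Subalgebra.smul_mem _ (pow_mem ih _) _) (Subalgebra.smul_mem _ (pow_mem ih _) _)

theorem PP_apply (r : ℕ) (θ : T1) : PP r θ = ((smi r (x0 θ) : ℝ) : ℂ) := by
  induction r with
  | zero =>
    show (1 / 2 : ℂ) * 1 + (1 / 4 : ℂ) * (fourier 1 θ + fourier (-1) θ) = ((x0 θ : ℝ) : ℂ)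
    rw [fourier_neg]
    unfold x0
    have h1 : (fourier 1 θ : ℂ) + (starRingEnd ℂ) (fourier 1 θ) = ((2 * (fourier 1 θ : ℂ).re : ℝ) : ℂ) := Complex.add_conj _
    rw [h1]
    push_cast
    ring
  | succ r ih =>
    show (3 : ℂ) * (PP r θ) ^ 2 - (2 : ℂ) * (PP r θ) ^ 3 = ((3 * (smi r (x0 θ)) ^ 2 - 2 * (smi r (x0 θ)) ^ 3 : ℝ) : ℂ)
    rw [ih]
    push_cast
    ring

theorem x0_shift (θ : T1) : x0 (θ + ((1 / 2 : ℝ) : T1)) = 1 - x0 θ := by
  unfold x0
  have h := fourier_add_half_inv_index (T := (1 : ℝ)) (n := 1) (by norm_num) (by norm_num) θ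
  have e : (1 : ℝ) / 2 / ((1 : ℤ) : ℝ) = 1 / 2 := by norm_num
  rw [e] at h
  rw [h, Complex.neg_re]
  ring

theorem int_half (r : ℕ) : ∫ θ, smi r (x0 θ) ∂m1 = 1 / 2 := by
  have h1 : ∫ θ, smi r (x0 (θ + ((1 / 2 : ℝ) : T1))) ∂m1 = ∫ θ, smi r (x0 θ) ∂m1 :=
    integral_add_right_eq_self (fun θ => smi r (x0 θ)) _
  have hI : Integrable (fun θ => smi r (x0 θ)) m1 :=
    ((smi_cont r).comp x0_cont).integrable_of_hasCompactSupport (HasCompactSupport.of_compactSpace _)
  simp only [x0_shift, smi_symm] at h1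
  rw [integral_sub (integrable_const _) hI] at h1
  simp at h1
  linarith

theorem int_vv_tendsto : Tendsto (fun r => ∫ θ, vv r (x0 θ) ∂m1) atTop (𝓝 0) := by
  have h1 : ∀ r, ∫ θ, vv r (x0 θ) ∂m1 = ∫ x in (0 : ℝ)..(0 + 1), vv r (x0 (x : T1)) := by
    intro r
    rw [AddCircle.integral_haarAddCircle, inv_one, one_smul]
    exact (AddCircle.intervalIntegral_preimage 1 0 (fun θ => vv r (x0 θ))).symm
  simp only [h1]
  have hvc : ∀ r, Continuous (fun x : ℝ => vv r (x0 (x : T1))) := by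
    intro r
    have h2 : Continuous (fun x : ℝ => x0 (x : T1)) := x0_cont.comp (AddCircle.continuous_mk' 1)
    unfold vv
    exact ((smi_cont r).comp h2).mul (continuous_const.sub ((smi_cont r).comp h2))
  suffices hs : Tendsto (fun r => ∫ x in (0 : ℝ)..(0 + 1), vv r (x0 (x : T1))) atTop (𝓝 (∫ x in (0 : ℝ)..(0 + 1), (fun _ => (0 : ℝ)) x)) by
    simpa using hs
  apply intervalIntegral.tendsto_integral_filter_of_dominated_convergence (fun _ => 1 / 4)
  · exact Eventually.of_forall (fun r => (hvc r).aestronglyMeasurable)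
  · refine Eventually.of_forall (fun r => Eventually.of_forall (fun x _ => ?_))
    obtain ⟨a, b⟩ := x0_mem (x : T1)
    rw [Real.norm_of_nonneg (vv_nonneg r a b)]
    exact vv_le r _
  · exact intervalIntegrable_const
  · have hc : (Set.range (fun k : ℤ => ((2 * k + 1 : ℝ) / 4))).Countable := Set.countable_range _
    have h3 : ∀ᵐ x : ℝ, x ∉ Set.range (fun k : ℤ => ((2 * k + 1 : ℝ) / 4)) := hc.ae_notMem _
    filter_upwards [h3] with x hx _
    obtain ⟨a, b⟩ := x0_mem (x : T1)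
    apply vv_tendsto a b
    intro h4
    apply hx
    unfold x0 at h4
    have h5 : (fourier 1 (x : T1) : ℂ).re = Real.cos (2 * Real.pi * x) := by
      rw [fourier_coe_apply]
      have : (2 * Real.pi * Complex.I * ((1 : ℤ) : ℂ) * x / ((1 : ℝ) : ℂ)) = ((2 * Real.pi * x : ℝ) : ℂ) * Complex.I := by
        push_cast
        ring
      rw [this, Complex.exp_ofReal_mul_I_re]
    rw [h5] at h4
    have h6 : Real.cos (2 * Real.pi * x) = 0 := by linarith
    obtain ⟨k, hk⟩ := Real.cos_eq_zero_iff.mp h6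
    refine ⟨k, ?_⟩
    have hpi := Real.pi_pos
    have h7 : Real.pi * (4 * x) = Real.pi * (2 * k + 1) := by linarith
    have h8 := mul_left_cancel₀ hpi.ne' h7
    show (2 * (k : ℝ) + 1) / 4 = x
    linarith

theorem exists_poly {δ : ℝ} (hδ : 0 < δ) :
    ∃ (D : ℕ) (c : ℤ → ℂ) (e : ℝ), (∀ θ : T1, ∃ p : ℝ, 0 ≤ p ∧ p ≤ 1 ∧ ∑ a ∈ Finset.Icc (-(D : ℤ)) D, c a * fourier a θ = (p : ℂ)) ∧
      c 0 = 1 / 2 ∧ c 0 - ∑ a ∈ Finset.Icc (-(D : ℤ)) D, c a * c (-a) = (e : ℂ) ∧ |e| ≤ δ := by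
  obtain ⟨r, hr⟩ := (((Metric.tendsto_nhds.mp int_vv_tendsto) δ hδ)).exists
  rw [Real.dist_eq, sub_zero] at hr
  obtain ⟨D, c, hc1, hc2⟩ := exists_coeff (PP r) (PP_mem r)
  refine ⟨D, c, ∫ θ, vv r (x0 θ) ∂m1, ?_, ?_, ?_, hr.le⟩
  · intro θ
    obtain ⟨a, b⟩ := x0_mem θ
    obtain ⟨a', b'⟩ := smi_mem r a b
    exact ⟨smi r (x0 θ), a', b', by rw [hc2, PP_apply]⟩
  · rw [← int_sum D c]
    simp only [hc2, PP_apply]
    rw [integral_complex_ofReal, int_half]
    push_cast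
    norm_num
  · have hI : Integrable (fun θ => smi r (x0 θ)) m1 :=
      ((smi_cont r).comp x0_cont).integrable_of_hasCompactSupport (HasCompactSupport.of_compactSpace _)
    have hI2 : Integrable (fun θ => (smi r (x0 θ)) ^ 2) m1 :=
      (((smi_cont r).comp x0_cont).pow 2).integrable_of_hasCompactSupport (HasCompactSupport.of_compactSpace _)
    rw [← int_sq D c]
    have h1 : ∫ θ, (∑ a ∈ Finset.Icc (-(D : ℤ)) D, c a * fourier a θ) ^ 2 ∂m1 = ((∫ θ, (smi r (x0 θ)) ^ 2 ∂m1 : ℝ) : ℂ) := by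
      rw [← integral_complex_ofReal]
      apply integral_congr_ae
      refine Eventually.of_forall (fun θ => ?_)
      simp only
      rw [hc2, PP_apply]
      push_cast
      rfl
    have h2 : c 0 = ((∫ θ, smi r (x0 θ) ∂m1 : ℝ) : ℂ) := by
      rw [← int_sum D c, ← integral_complex_ofReal]
      simp only [hc2, PP_apply]
    rw [h1, h2, ← Complex.ofReal_sub, ← integral_sub hI hI2]
    congr 1
    apply integral_congr_ae
    refine Eventually.of_forall (fun θ => ?_)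
    simp only
    unfold vv
    ring

end Pool.Agent.Helper192.Dil
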