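import Mathlib
import Pool.Agent.Helper192.Dil.A
import Pool.Agent.Helper192.Dil.B
import Pool.Agent.Helper192.Dil.C
import Pool.Agent.Helper192.Dil.F
import Pool.Agent.Helper192.Dil.I
import Pool.Agent.Helper192.Dil.J
import Pool.Agent.Helper192.Dil.K

set_option autoImplicit false

open Filter Topology MeasureTheory
open scoped FourierTransform ENNReal

noncomputable section

namespace Pool.Agent.Helper192.Dil

variable {Y : Type*} [NormedAddCommGroup Y] [NormedSpace ℂ Y]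

/-- group algebra of `ℝ` -/
abbrev GA := AddMonoidAlgebra ℂ ℝ

/-- generators -/
def Xg (t : ℝ) : GA := AddMonoidAlgebra.single t 1

theorem Xg_add (s t : ℝ) : Xg (s + t) = Xg s * Xg t := by
  unfold Xg
  rw [AddMonoidAlgebra.single_mul_single, one_mul]

theorem Xg_zero : Xg 0 = 1 := rfl

theorem Xg_inv (t : ℝ) : Xg t * Xg (-t) = 1 := by
  rw [← Xg_add, add_neg_cancel, Xg_zero]

/-- representation of the group algebra -/
def rho {U : ℝ → Y →L[ℂ] Y} {M : ℝ} (hU : IsGrp U M) : GA →ₐ[ℂ] (Y →L[ℂ] Y) :=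
  AddMonoidAlgebra.lift ℂ (Y →L[ℂ] Y) ℝ
    { toFun := fun t => U t.toAdd
      map_one' := hU.zero
      map_mul' := fun _ _ => hU.add _ _ }

theorem rho_X {U : ℝ → Y →L[ℂ] Y} {M : ℝ} (hU : IsGrp U M) (t : ℝ) : rho hU (Xg t) = U t := by
  unfold rho Xg
  rw [AddMonoidAlgebra.lift_single, one_smul]
  rfl

/-- contractive elements -/
def Ctr {U : ℝ → Y →L[ℂ] Y} {M : ℝ} (hU : IsGrp U M) (a : GA) : Prop :=
  ∀ (y : Y) (B : ℝ), (∀ t, ‖U t y‖ ≤ B) → ∀ t, ‖U t (rho hU a y)‖ ≤ B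

section
variable {U : ℝ → Y →L[ℂ] Y} {M : ℝ} (hU : IsGrp U M)

theorem ctr_one : Ctr hU 1 := by
  intro y B h t
  rw [map_one]
  exact h t

theorem ctr_X (s : ℝ) : Ctr hU (Xg s) := by
  intro y B h t
  rw [rho_X]
  have := hU.add t s
  have h2 : U t (U s y) = U (t + s) y := by rw [this]; rfl
  rw [h2]
  exact h _

theorem ctr_mul {a b : GA} (ha : Ctr hU a) (hb : Ctr hU b) : Ctr hU (a * b) := by
  intro y B h t
  rw [map_mul]
  exact ha _ B (hb y B h) t

theorem ctr_sum {σ : Type*} (S : Finset σ) (lam : σ → ℝ) (hl : ∀ s ∈ S, 0 ≤ lam s) (hs : ∑ s ∈ S, lam s = 1) (a : σ → GA)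
    (ha : ∀ s ∈ S, Ctr hU (a s)) : Ctr hU (∑ s ∈ S, ((lam s : ℝ) : ℂ) • a s) := by
  intro y B h t
  have e : U t (rho hU (∑ s ∈ S, ((lam s : ℝ) : ℂ) • a s) y) = ∑ s ∈ S, ((lam s : ℝ) : ℂ) • U t (rho hU (a s) y) := by
    rw [map_sum, sum_apply, map_sum]
    apply Finset.sum_congr rfl
    intro s _
    rw [map_smul, smul_apply, map_smul]
  rw [e]
  refine (norm_sum_le _ _).trans ?_
  calc ∑ s ∈ S, ‖((lam s : ℝ) : ℂ) • U t (rho hU (a s) y)‖ ≤ ∑ s ∈ S, lam s * B := by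
        apply Finset.sum_le_sum
        intro s hs
        rw [norm_smul, Complex.norm_real, Real.norm_of_nonneg (hl s hs)]
        have := ha s hs y B h t
        have := hl s hs
        gcongr
    _ = B := by rw [← Finset.sum_mul, hs, one_mul]

theorem ctr_cvx {a b : GA} (ha : Ctr hU a) (hb : Ctr hU b) {p : ℝ} (h0 : 0 ≤ p) (h1 : p ≤ 1) :
    Ctr hU ((1 - (p : ℂ)) • a + (p : ℂ) • b) := by
  have h := ctr_sum hU (Finset.univ : Finset Bool) (fun s => if s then p else 1 - p)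
    (by intro s _; cases s <;> simp [h0, h1]) (by simp) (fun s => if s then b else a) (by intro s _; cases s <;> simp [ha, hb])
  simp only [Fintype.univ_bool] at h
  rw [Finset.sum_pair (by simp)] at h
  simp only [if_true, Bool.false_eq_true, if_false] at h
  push_cast at h
  rw [add_comm]
  exact h

theorem ctr_prod {ι : Type*} (s : Finset ι) (a : ι → GA) (ha : ∀ i ∈ s, Ctr hU (a i)) : Ctr hU (∏ i ∈ s, a i) :=
  Finset.prod_induction a (Ctr hU) (fun _ _ h1 h2 => ctr_mul hU h1 h2) (ctr_one hU) ha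

theorem ctr_norm {a : GA} (ha : Ctr hU a) (y : Y) : ‖rho hU a y‖ ≤ M * ‖y‖ := by
  have h := ha y (M * ‖y‖) (fun t => ((U t).le_opNorm y).trans (by have := hU.bound t; gcongr)) 0
  rw [hU.zero] at h
  exact h

end

theorem int_ch {n : ℕ} (ν : Fin n → ℤ) : ∫ θ, ch ν θ ∂(mt n) = if ν = 0 then 1 else 0 := by
  unfold ch mt
  rw [integral_fintype_prod_eq_prod]
  have h1 : ∀ i, ∫ θ, (fourier (ν i) θ : ℂ) ∂(AddCircle.haarAddCircle : Measure T1) = if ν i = 0 then 1 else 0 := fun i => int_fourier (ν i)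
  simp only [h1]
  split_ifs with h
  · simp [h]
  · obtain ⟨i, hi⟩ := Function.ne_iff.mp h
    apply Finset.prod_eq_zero (Finset.mem_univ i)
    exact if_neg hi

theorem ch_mul {n : ℕ} (μ ν : Fin n → ℤ) (θ : TT n) : ch μ θ * ch ν θ = ch (μ + ν) θ := by
  unfold ch
  rw [← Finset.prod_mul_distrib]
  apply Finset.prod_congr rfl
  intro i _
  rw [Pi.add_apply, fourier_add]

theorem ch_zero {n : ℕ} (θ : TT n) : ch 0 θ = 1 := by
  unfold ch
  apply Finset.prod_eq_one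
  intro i _
  rw [Pi.zero_apply, fourier_zero]

theorem Th_ne (D : ℕ) {η : ℕ → ℤ} (hη : ∀ i, |η i| = 1) (n : ℕ) (ν : Fin n → ℤ) (h : ∀ i, |ν i| ≤ D) (h0 : ν ≠ 0) : Th D η n ν ≠ 0 := by
  induction n with
  | zero => exact absurd (Subsingleton.elim _ _) h0
  | succ n ih =>
    rw [Th_succ D hη n ν h]
    split_ifs with h1
    · apply ih _ (fun i => h _)
      intro h2
      apply h0
      funext i
      refine Fin.lastCases ?_ (fun i => ?_) i
      · exact h1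
      · exact congrFun h2 i
    · intro h2
      have := hη n
      rw [h2] at this
      simp at this

/-- two-step multiplier inequality -/
theorem two_step (H : ℝ) (hH : HB Y H)
    (D n : ℕ) {η : ℕ → ℤ} (hη : ∀ i, |η i| = 1) (c : (Fin n → ℤ) → Y) :
    ∫⁻ θ, ‖∑ ν ∈ (bx D n).erase 0, ch ν θ • (((Th D η n ν : ℤ) : ℂ) • c ν)‖ₑ ^ 2 ∂(mt n) ≤
      ‖H‖ₑ ^ 2 * (‖H‖ₑ ^ 2 * ∫⁻ θ, ‖∑ ν ∈ (bx D n).erase 0, ch ν θ • c ν‖ₑ ^ 2 ∂(mt n)) := by
  have hne : ∀ ν ∈ (bx D n).erase 0, ∑ i, ν i * mv D (fun _ => 1) n i ≠ 0 ∧ ∑ i, ν i * mv D η n i ≠ 0 := by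
    intro ν hν
    rw [Finset.mem_erase, mem_bx] at hν
    have h1 := Th_ne D hη n ν hν.2 hν.1
    unfold Th at h1
    constructor
    · intro h2
      apply h1
      rw [h2]
      simp
    · intro h2
      apply h1
      rw [h2]
      simp
  have h1 := torus_ineq H hH ((bx D n).erase 0) c (mv D η n) (fun ν hν => (hne ν hν).2)
  have h2 := torus_ineq H hH ((bx D n).erase 0) (fun ν => ((SignType.sign (∑ i, ν i * mv D η n i) : ℤ) : ℂ) • c ν)
    (mv D (fun _ => 1) n) (fun ν hν => (hne ν hν).1)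
  have h3 : ∀ θ : TT n, ∑ ν ∈ (bx D n).erase 0, ch ν θ • (((Th D η n ν : ℤ) : ℂ) • c ν) =
      ∑ ν ∈ (bx D n).erase 0, ch ν θ • (((SignType.sign (∑ i, ν i * mv D (fun _ => 1) n i) : ℤ) : ℂ) • ((SignType.sign (∑ i, ν i * mv D η n i) : ℤ) : ℂ) • c ν) := by
    intro θ
    apply Finset.sum_congr rfl
    intro ν _
    unfold Th
    rw [smul_smul (M := ℂ) ((SignType.sign (∑ i, ν i * mv D (fun _ => 1) n i) : ℤ) : ℂ)]
    push_cast
    rfl
  simp only [h3]
  refine h2.trans ?_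
  gcongr

end Pool.Agent.Helper192.Dil
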