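import Mathlib
import Pool.Agent.Helper192.Dil.A
import Pool.Agent.Helper192.Dil.B
import Pool.Agent.Helper192.Dil.C
import Pool.Agent.Helper192.Dil.F
import Pool.Agent.Helper192.Dil.I
import Pool.Agent.Helper192.Dil.J
import Pool.Agent.Helper192.Dil.K
import Pool.Agent.Helper192.Dil.L

set_option autoImplicit false

open Filter Topology MeasureTheory
open scoped FourierTransform ENNReal

noncomputable section

namespace Pool.Agent.Helper192.Dil

variable {Y : Type*} [NormedAddCommGroup Y] [NormedSpace ℂ Y]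

/-- factor coefficients -/
def Af (c : ℤ → ℂ) (l : ℝ) (a : ℤ) : GA := ((if a = 0 then 1 else 0) - c a) • 1 + c a • Xg l

theorem Af_sum (D : ℕ) (c : ℤ → ℂ) (l : ℝ) (θ : T1) :
    ∑ a ∈ Finset.Icc (-(D : ℤ)) D, (fourier a θ : ℂ) • Af c l a =
      (1 - ∑ a ∈ Finset.Icc (-(D : ℤ)) D, c a * fourier a θ) • 1 + (∑ a ∈ Finset.Icc (-(D : ℤ)) D, c a * fourier a θ) • Xg l := by
  unfold Af
  simp only [smul_add, smul_smul, Finset.sum_add_distrib, ← Finset.sum_smul]
  have h1 : ∑ a ∈ Finset.Icc (-(D : ℤ)) D, (fourier a θ : ℂ) * ((if a = 0 then 1 else 0) - c a) = 1 - ∑ a ∈ Finset.Icc (-(D : ℤ)) D, c a * fourier a θ := by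
    simp only [mul_sub, mul_ite, mul_one, mul_zero, Finset.sum_sub_distrib]
    rw [Finset.sum_ite_eq', if_pos]
    · rw [fourier_zero]
      congr 1
      apply Finset.sum_congr rfl
      intro a _
      ring
    · rw [Finset.mem_Icc]
      constructor <;> omega
  have h2 : ∑ a ∈ Finset.Icc (-(D : ℤ)) D, (fourier a θ : ℂ) * c a = ∑ a ∈ Finset.Icc (-(D : ℤ)) D, c a * fourier a θ := by
    apply Finset.sum_congr rfl
    intro a _
    ring
  rw [h1, h2]

/-- second difference -/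
def Dl (l : ℝ) : GA := Xg l + Xg (-l) - 2

theorem Af_corr (D : ℕ) (c : ℤ → ℂ) (l : ℝ) (e : ℂ) (he : c 0 - ∑ a ∈ Finset.Icc (-(D : ℤ)) D, c a * c (-a) = e) :
    ∑ a ∈ Finset.Icc (-(D : ℤ)) D, Af c (-l) (-a) * Af c l a = 1 + e • Dl l := by
  have h0 : (0 : ℤ) ∈ Finset.Icc (-(D : ℤ)) D := by
    rw [Finset.mem_Icc]
    constructor <;> omega
  have h1 : ∀ a ∈ Finset.Icc (-(D : ℤ)) D, Af c (-l) (-a) * Af c l a =
      ((if a = 0 then (1 - 2 * c 0 : ℂ) else 0) + 2 * (c a * c (-a))) • (1 : GA) + ((if a = 0 then c 0 else 0) - c a * c (-a)) • (Xg l + Xg (-l)) := by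
    intro a _
    have hX : Xg (-l) * Xg l = 1 := by
      have := Xg_inv (-l)
      rw [neg_neg] at this
      exact this
    unfold Af
    by_cases ha : a = 0
    · subst ha
      simp only [neg_zero, if_true]
      simp only [Algebra.smul_def, map_sub, map_add, map_mul, map_one, map_ofNat]
      linear_combination (algebraMap ℂ GA (c 0)) ^ 2 * hX
    · have hna : -a ≠ 0 := neg_ne_zero.mpr ha
      simp only [if_neg ha, if_neg hna]
      simp only [Algebra.smul_def, map_sub, map_add, map_mul, map_zero, map_ofNat]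
      linear_combination (algebraMap ℂ GA (c a)) * (algebraMap ℂ GA (c (-a))) * hX
  rw [Finset.sum_congr rfl h1, Finset.sum_add_distrib, ← Finset.sum_smul, ← Finset.sum_smul, Finset.sum_add_distrib, Finset.sum_sub_distrib,
    ← Finset.mul_sum, Finset.sum_ite_eq', if_pos h0, Finset.sum_ite_eq', if_pos h0]
  have h2 : ∑ a ∈ Finset.Icc (-(D : ℤ)) D, c a * c (-a) = c 0 - e := by rw [← he]; ring
  rw [h2]
  unfold Dl
  simp only [Algebra.smul_def, map_sub, map_add, map_mul, map_one, map_ofNat]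
  ring

theorem Af_zero (c : ℤ → ℂ) (l : ℝ) (h : c 0 = 1 / 2) : Af c (-l) 0 * Af c l 0 = 1 + (1 / 4 : ℂ) • Dl l := by
  have hX : Xg (-l) * Xg l = 1 := by
    have := Xg_inv (-l)
    rw [neg_neg] at this
    exact this
  unfold Af Dl
  simp only [if_true, h]
  have e3 : algebraMap ℂ GA (1 / 4) * 4 = 1 := by
    have : (4 : GA) = algebraMap ℂ GA 4 := (map_ofNat (algebraMap ℂ GA) 4).symm
    rw [this, ← map_mul, ← map_one (algebraMap ℂ GA)]
    congr 1
    norm_num
  have e2 : algebraMap ℂ GA (1 / 2) * algebraMap ℂ GA (1 / 2) = algebraMap ℂ GA (1 / 4) := by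
    rw [← map_mul]
    congr 1
    norm_num
  have e0 : (1 : ℂ) - 1 / 2 = 1 / 2 := by norm_num
  rw [e0]
  simp only [Algebra.smul_def]
  linear_combination (algebraMap ℂ GA (1 / 4)) * hX + (1 + Xg (-l)) * (1 + Xg l) * e2 + e3

end Pool.Agent.Helper192.Dil
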