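import Mathlib
import Pool.Agent.Helper192.Dil.A
import Pool.Agent.Helper192.Dil.B
import Pool.Agent.Helper192.Dil.C
import Pool.Agent.Helper192.Dil.F
import Pool.Agent.Helper192.Dil.I
import Pool.Agent.Helper192.Dil.J
import Pool.Agent.Helper192.Dil.K
import Pool.Agent.Helper192.Dil.L
import Pool.Agent.Helper192.Dil.M

set_option autoImplicit false

open Filter Topology MeasureTheory
open scoped FourierTransform ENNReal

noncomputable section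

namespace Pool.Agent.Helper192.Dil

variable {Y : Type*} [NormedAddCommGroup Y] [NormedSpace ℂ Y]

/-- product coefficients -/
def Pa (c : ℤ → ℂ) (l : ℕ → ℝ) (n : ℕ) (ν : Fin n → ℤ) : GA := ∏ i : Fin n, Af c (l i) (ν i)

theorem Pa_sum (D : ℕ) (c : ℤ → ℂ) (l : ℕ → ℝ) (n : ℕ) (θ : TT n) :
    ∑ ν ∈ bx D n, ch ν θ • Pa c l n ν = ∏ i : Fin n, ((1 - ∑ a ∈ Finset.Icc (-(D : ℤ)) D, c a * fourier a (θ i)) • 1 +
      (∑ a ∈ Finset.Icc (-(D : ℤ)) D, c a * fourier a (θ i)) • Xg (l i)) := by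
  have h1 : ∀ i : Fin n, (1 - ∑ a ∈ Finset.Icc (-(D : ℤ)) D, c a * fourier a (θ i)) • (1 : GA) +
      (∑ a ∈ Finset.Icc (-(D : ℤ)) D, c a * fourier a (θ i)) • Xg (l i) = ∑ a ∈ Finset.Icc (-(D : ℤ)) D, (fourier a (θ i) : ℂ) • Af c (l i) a :=
    fun i => (Af_sum D c (l i) (θ i)).symm
  simp only [h1]
  rw [Finset.prod_univ_sum]
  apply Finset.sum_congr rfl
  intro ν _
  unfold Pa ch
  rw [Finset.prod_smul]

theorem Pa_ctr {U : ℝ → Y →L[ℂ] Y} {M : ℝ} (hU : IsGrp U M) (D : ℕ) (c : ℤ → ℂ)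
    (hp : ∀ θ : T1, ∃ p : ℝ, 0 ≤ p ∧ p ≤ 1 ∧ ∑ a ∈ Finset.Icc (-(D : ℤ)) D, c a * fourier a θ = (p : ℂ))
    (l : ℕ → ℝ) (n : ℕ) (θ : TT n) : Ctr hU (∑ ν ∈ bx D n, ch ν θ • Pa c l n ν) := by
  rw [Pa_sum]
  apply ctr_prod
  intro i _
  obtain ⟨p, h0, h1, h2⟩ := hp (θ i)
  rw [h2]
  exact ctr_cvx hU (ctr_one hU) (ctr_X hU _) h0 h1

theorem Pa_zero_ctr {U : ℝ → Y →L[ℂ] Y} {M : ℝ} (hU : IsGrp U M) (c : ℤ → ℂ) (hc : c 0 = 1 / 2)
    (l : ℕ → ℝ) (n : ℕ) : Ctr hU (Pa c l n 0) := by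
  unfold Pa
  apply ctr_prod
  intro i _
  have h := ctr_cvx hU (ctr_one hU) (ctr_X hU (l i)) (p := 1 / 2) (by norm_num) (by norm_num)
  unfold Af
  rw [Pi.zero_apply, if_pos rfl, hc]
  push_cast at h
  exact h

omit [NormedSpace ℂ Y] in
theorem lintegral_sq_le {n : ℕ} {G : TT n → Y} (hG : Continuous G) : (∫⁻ θ, ‖G θ‖ₑ ∂(mt n)) ^ 2 ≤ ∫⁻ θ, ‖G θ‖ₑ ^ 2 ∂(mt n) := by
  have hsm : AEStronglyMeasurable G (mt n) := hG.aestronglyMeasurable
  have h1 := eLpNorm_le_eLpNorm_of_exponent_le (μ := mt n) (p := 1) (q := 2) (by norm_num) hsm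
  rw [eLpNorm_one_eq_lintegral_enorm] at h1
  rw [← eLpNorm_sq]
  gcongr

theorem Th_zero (D : ℕ) (η : ℕ → ℤ) (n : ℕ) : Th D η n 0 = 0 := by
  unfold Th
  simp

theorem star_eps [CompleteSpace Y] (H : ℝ) (hH : HB Y H)
    {U : ℝ → Y →L[ℂ] Y} {M : ℝ} (hU : IsGrp U M) (l : ℕ → ℝ) {η : ℕ → ℤ} (hη : ∀ i, |η i| = 1) (n D : ℕ) (c : ℤ → ℂ) (e : ℂ)
    (hp : ∀ θ : T1, ∃ p : ℝ, 0 ≤ p ∧ p ≤ 1 ∧ ∑ a ∈ Finset.Icc (-(D : ℤ)) D, c a * fourier a θ = (p : ℂ))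
    (hc : c 0 = 1 / 2) (he : c 0 - ∑ a ∈ Finset.Icc (-(D : ℤ)) D, c a * c (-a) = e) (y : Y) :
    ‖rho hU (sE (fun i => 1 + e • Dl (l i)) (fun i => 1 + (1 / 4 : ℂ) • Dl (l i)) η n) y‖ ≤ M * (‖H‖ ^ 2 * (2 * (M * ‖y‖))) := by
  have hM : 0 ≤ M := (norm_nonneg _).trans (hU.bound 0)
  -- algebraic identity
  have hC : sE (fun i => 1 + e • Dl (l i)) (fun i => 1 + (1 / 4 : ℂ) • Dl (l i)) η n =
      ∑ ν ∈ (bx D n).erase 0, ((Th D η n ν : ℤ) : ℂ) • (Pa c (fun i => -(l i)) n (-ν) * Pa c l n ν) := by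
    have h1 := T_sum (A := GA) D hη (fun i a => Af c (-(l i)) (-a) * Af c (l i) a) n
    have h2 : (fun i : ℕ => ∑ a ∈ Finset.Icc (-(D : ℤ)) D, Af c (-(l i)) (-a) * Af c (l i) a) = fun i => 1 + e • Dl (l i) := by
      funext i
      exact Af_corr D c (l i) e he
    have h3 : (fun i : ℕ => Af c (-(l i)) (-0) * Af c (l i) 0) = fun i => 1 + (1 / 4 : ℂ) • Dl (l i) := by
      funext i
      rw [neg_zero]
      exact Af_zero c (l i) hc
    rw [h2, h3] at h1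
    rw [← h1]
    have h0 : (0 : Fin n → ℤ) ∈ bx D n := by
      rw [mem_bx]
      intro i
      simp
    rw [← Finset.add_sum_erase _ _ h0, Th_zero, Int.cast_zero, zero_mul, zero_add]
    apply Finset.sum_congr rfl
    intro ν _
    unfold Pa
    rw [← Finset.prod_mul_distrib, Algebra.smul_def]
    congr 1
  obtain ⟨P, hP⟩ : ∃ P : TT n → Y, P = fun θ => ∑ ν ∈ (bx D n).erase 0, ch ν θ • rho hU (Pa c l n ν) y := ⟨_, rfl⟩
  obtain ⟨Q, hQ⟩ : ∃ Q : TT n → Y, Q = fun θ => ∑ ν ∈ (bx D n).erase 0, ch ν θ • (((Th D η n ν : ℤ) : ℂ) • rho hU (Pa c l n ν) y) := ⟨_, rfl⟩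
  obtain ⟨G, hG⟩ : ∃ G : TT n → GA, G = fun θ => ∑ ν ∈ bx D n, ch ν θ • Pa c (fun i => -(l i)) n ν := ⟨_, rfl⟩
  have hGc : ∀ θ, Ctr hU (G θ) := by
    intro θ
    rw [hG]
    exact Pa_ctr hU D c hp _ n θ
  have hQcont : Continuous Q := by
    rw [hQ]
    exact continuous_finsetSum _ (fun ν _ => (ch_cont ν).smul continuous_const)
  have hPb : ∀ θ, ‖P θ‖ₑ ^ 2 ≤ ENNReal.ofReal ((2 * (M * ‖y‖)) ^ 2) := by
    intro θ
    have h1 : P θ = rho hU (∑ ν ∈ bx D n, ch ν θ • Pa c l n ν) y - rho hU (Pa c l n 0) y := by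
      have h0 : (0 : Fin n → ℤ) ∈ bx D n := by
        rw [mem_bx]
        intro i
        simp
      rw [← Finset.add_sum_erase _ _ h0, ch_zero, one_smul, map_add, add_apply, add_sub_cancel_left, map_sum, sum_apply, hP]
      apply Finset.sum_congr rfl
      intro ν _
      rw [map_smul, smul_apply]
    have h2 : ‖P θ‖ ≤ 2 * (M * ‖y‖) := by
      rw [h1]
      refine (norm_sub_le _ _).trans ?_
      have h3 := ctr_norm hU (Pa_ctr hU D c hp l n θ) y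
      have h4 := ctr_norm hU (Pa_zero_ctr hU c hc l n) y
      linarith
    rw [← ofReal_norm, ← ENNReal.ofReal_pow (norm_nonneg _)]
    apply ENNReal.ofReal_le_ofReal
    gcongr
  have h2s := two_step H hH D n hη (fun ν => rho hU (Pa c l n ν) y)
  have hQ2 : ∫⁻ θ, ‖Q θ‖ₑ ^ 2 ∂(mt n) ≤ ENNReal.ofReal ((‖H‖ ^ 2 * (2 * (M * ‖y‖))) ^ 2) := by
    have h3 : ∫⁻ θ, ‖P θ‖ₑ ^ 2 ∂(mt n) ≤ ENNReal.ofReal ((2 * (M * ‖y‖)) ^ 2) := by
      refine (lintegral_mono hPb).trans ?_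
      simp
    rw [hQ]
    refine h2s.trans ?_
    have h4 : ENNReal.ofReal ((‖H‖ ^ 2 * (2 * (M * ‖y‖))) ^ 2) = ‖H‖ₑ ^ 2 * (‖H‖ₑ ^ 2 * ENNReal.ofReal ((2 * (M * ‖y‖)) ^ 2)) := by
      have : (‖H‖ ^ 2 * (2 * (M * ‖y‖))) ^ 2 = ‖H‖ ^ 2 * (‖H‖ ^ 2 * ((2 * (M * ‖y‖)) ^ 2)) := by ring
      rw [this, ENNReal.ofReal_mul (by positivity), ENNReal.ofReal_mul (by positivity), ENNReal.ofReal_pow (norm_nonneg _), ofReal_norm]
    rw [h4]
    rw [hP] at h3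
    gcongr
  have hI : ∫ θ, rho hU (G θ) (Q θ) ∂(mt n) = rho hU (sE (fun i => 1 + e • Dl (l i)) (fun i => 1 + (1 / 4 : ℂ) • Dl (l i)) η n) y := by
    have h5 : ∀ θ, rho hU (G θ) (Q θ) = ∑ μ ∈ bx D n, ∑ ν ∈ (bx D n).erase 0, ch (μ + ν) θ •
        (((Th D η n ν : ℤ) : ℂ) • rho hU (Pa c (fun i => -(l i)) n μ * Pa c l n ν) y) := by
      intro θ
      rw [hG, hQ]
      simp only
      rw [map_sum (rho hU), sum_apply]
      apply Finset.sum_congr rfl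
      intro μ _
      rw [map_sum]
      apply Finset.sum_congr rfl
      intro ν _
      rw [map_smul, map_smul, map_smul (rho hU), smul_apply, ← ch_mul, map_mul]
      have h10 : rho hU (Pa c (fun i => -(l i)) n μ) (rho hU (Pa c l n ν) y) = (rho hU (Pa c (fun i => -(l i)) n μ) * rho hU (Pa c l n ν)) y := rfl
      rw [h10]
      simp only [smul_smul]
      congr 1
      ring
    simp only [h5]
    have hint : ∀ μ ν : Fin n → ℤ, Integrable (fun θ => ch (μ + ν) θ •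
        (((Th D η n ν : ℤ) : ℂ) • rho hU (Pa c (fun i => -(l i)) n μ * Pa c l n ν) y)) (mt n) := by
      intro μ ν
      apply Continuous.integrable_of_hasCompactSupport
      · exact (ch_cont _).smul continuous_const
      · exact HasCompactSupport.of_compactSpace _
    rw [integral_finsetSum _ (fun μ _ => integrable_finsetSum _ (fun ν _ => hint μ ν))]
    have h6 : ∀ μ ∈ bx D n, ∫ θ, ∑ ν ∈ (bx D n).erase 0, ch (μ + ν) θ •
        (((Th D η n ν : ℤ) : ℂ) • rho hU (Pa c (fun i => -(l i)) n μ * Pa c l n ν) y) ∂(mt n) =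
        ∑ ν ∈ (bx D n).erase 0, (if μ + ν = 0 then 1 else (0 : ℂ)) • (((Th D η n ν : ℤ) : ℂ) • rho hU (Pa c (fun i => -(l i)) n μ * Pa c l n ν) y) := by
      intro μ _
      rw [integral_finsetSum _ (fun ν _ => hint μ ν)]
      apply Finset.sum_congr rfl
      intro ν _
      rw [integral_smul_const, int_ch]
    rw [Finset.sum_congr rfl h6, Finset.sum_comm, hC, map_sum, sum_apply]
    apply Finset.sum_congr rfl
    intro ν hν
    rw [Finset.mem_erase, mem_bx] at hν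
    have h7 : (-ν) ∈ bx D n := by
      rw [mem_bx]
      intro i
      rw [Pi.neg_apply, abs_neg]
      exact hν.2 i
    rw [Finset.sum_eq_single_of_mem (-ν) h7]
    · rw [if_pos (by simp), one_smul, map_smul, smul_apply]
    · intro μ _ hμ
      rw [if_neg, zero_smul]
      intro h8
      apply hμ
      exact eq_neg_of_add_eq_zero_left h8
  rw [← hI]
  have h8 : ‖∫ θ, rho hU (G θ) (Q θ) ∂(mt n)‖ₑ ≤ ENNReal.ofReal M * ENNReal.ofReal (‖H‖ ^ 2 * (2 * (M * ‖y‖))) := by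
    refine (enorm_integral_le_lintegral_enorm _).trans ?_
    have h9 : ∀ θ, ‖rho hU (G θ) (Q θ)‖ₑ ≤ ENNReal.ofReal M * ‖Q θ‖ₑ := by
      intro θ
      rw [← ofReal_norm, ← ofReal_norm, ← ENNReal.ofReal_mul hM]
      exact ENNReal.ofReal_le_ofReal (ctr_norm hU (hGc θ) (Q θ))
    refine (lintegral_mono h9).trans ?_
    rw [lintegral_const_mul' _ _ ENNReal.ofReal_ne_top]
    gcongr
    have h10 := (lintegral_sq_le hQcont).trans hQ2
    rw [ENNReal.ofReal_pow (by positivity)] at h10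
    exact (ENNReal.pow_le_pow_left_iff (by norm_num)).mp h10
  rw [← ENNReal.ofReal_mul hM, ← ofReal_norm] at h8
  exact (ENNReal.ofReal_le_ofReal_iff (by positivity)).mp h8

end Pool.Agent.Helper192.Dil
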