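import Mathlib
import Pool.Agent.Helper192.Dil.A
import Pool.Agent.Helper192.Dil.B
import Pool.Agent.Helper192.Dil.C
import Pool.Agent.Helper192.Dil.F
import Pool.Agent.Helper192.Dil.I
import Pool.Agent.Helper192.Dil.J
import Pool.Agent.Helper192.Dil.K
import Pool.Agent.Helper192.Dil.L
import Pool.Agent.Helper192.Dil.M
import Pool.Agent.Helper192.Dil.N

set_option autoImplicit false

open Filter Topology MeasureTheory
open scoped FourierTransform ENNReal

noncomputable section

namespace Pool.Agent.Helper192.Dil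

variable {Y : Type*} [NormedAddCommGroup Y] [NormedSpace ℂ Y]

/-- the recursion `S_{k+1} = S_k W_k + η_k (1 - W_k)` -/
def sG {A : Type*} [Ring A] (β : ℕ → A) (η : ℕ → ℤ) : ℕ → A
  | 0 => 0
  | (k + 1) => sG β η k * β k + (η k : A) * (1 - β k)

theorem sG_map {A B : Type*} [Ring A] [Ring B] (f : A →+* B) (β : ℕ → A) (η : ℕ → ℤ) (n : ℕ) :
    f (sG β η n) = sG (fun i => f (β i)) η n := by
  induction n with
  | zero => exact map_zero f
  | succ n ih =>
    unfold sG
    rw [map_add, map_mul, map_mul, map_sub, map_one, map_intCast, ih]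

theorem sG_congr {A : Type*} [Ring A] {β β' : ℕ → A} (η : ℕ → ℤ) (n : ℕ) (h : ∀ i < n, β i = β' i) :
    sG β η n = sG β' η n := by
  induction n with
  | zero => rfl
  | succ n ih =>
    unfold sG
    rw [ih (fun i hi => h i (by omega)), h n (by omega)]

theorem sE_one {A : Type*} [CommRing A] (β : ℕ → A) (η : ℕ → ℤ) (n : ℕ) : sE (fun _ => (1 : A)) β η n = sG β η n := by
  induction n with
  | zero => rfl
  | succ n ih =>
    unfold sE sG
    rw [ih]
    simp

theorem sG_affine {A : Type*} [Ring A] [Algebra ℂ A] {σ : Type*} (S : Finset σ) (lam : σ → ℝ) (hs : ∑ s ∈ S, lam s = 1)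
    (b : σ → A) (β : ℕ → A) (η : ℕ → ℤ) (m n : ℕ) :
    sG (Function.update β m (∑ s ∈ S, ((lam s : ℝ) : ℂ) • b s)) η n = ∑ s ∈ S, ((lam s : ℝ) : ℂ) • sG (Function.update β m (b s)) η n := by
  have hs' : ∑ s ∈ S, ((lam s : ℝ) : ℂ) = 1 := by exact_mod_cast congrArg Complex.ofReal hs
  have hlow : ∀ (n : ℕ), n ≤ m → ∀ x : A, sG (Function.update β m x) η n = sG β η n := by
    intro n hn x
    apply sG_congr
    intro i hi
    rw [Function.update_of_ne (by omega)]
  have hconst : ∀ x : A, x = ∑ s ∈ S, ((lam s : ℝ) : ℂ) • x := by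
    intro x
    rw [← Finset.sum_smul, hs', one_smul]
  induction n with
  | zero =>
    show (0 : A) = ∑ s ∈ S, ((lam s : ℝ) : ℂ) • (0 : A)
    exact hconst 0
  | succ n ih =>
    rcases lt_trichotomy n m with h | h | h
    · rw [hlow (n + 1) h]
      simp only [hlow (n + 1) h]
      exact hconst _
    · subst h
      unfold sG
      simp only [Function.update_self]
      rw [hlow n le_rfl]
      simp only [hlow n le_rfl, smul_add, Finset.sum_add_distrib, mul_sub, mul_one, smul_sub, Finset.sum_sub_distrib]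
      rw [Finset.mul_sum, Finset.mul_sum, ← hconst]
      simp only [mul_smul_comm]
    · unfold sG
      simp only [Function.update_of_ne (show n ≠ m by omega)]
      rw [ih, Finset.sum_mul]
      simp only [smul_add, Finset.sum_add_distrib]
      rw [← hconst]
      simp only [smul_mul_assoc]

theorem rho_prod_cont {U : ℝ → Y →L[ℂ] Y} {M : ℝ} (hU : IsGrp U M) (l : ℕ → ℝ) (k : ℕ) :
    Continuous (fun e : ℂ => rho hU (∏ i ∈ Finset.range k, (1 + e • Dl (l i)))) := by
  induction k with
  | zero => simpa using continuous_const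
  | succ k ih =>
    simp only [Finset.prod_range_succ, map_mul]
    apply ih.mul
    simp only [map_add, map_smul]
    exact continuous_const.add (continuous_id.smul continuous_const)

theorem rho_sE_cont {U : ℝ → Y →L[ℂ] Y} {M : ℝ} (hU : IsGrp U M) (l : ℕ → ℝ) (β : ℕ → GA) (η : ℕ → ℤ) (n : ℕ) :
    Continuous (fun e : ℂ => rho hU (sE (fun i => 1 + e • Dl (l i)) β η n)) := by
  induction n with
  | zero =>
    show Continuous (fun _ : ℂ => rho hU 0)
    exact continuous_const
  | succ n ih =>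
    unfold sE
    simp only [map_add, map_mul, map_sub]
    apply (ih.mul continuous_const).add
    apply Continuous.mul
    · exact continuous_const.mul (rho_prod_cont hU l n)
    · simp only [map_smul]
      exact (continuous_const.add (continuous_id.smul continuous_const)).sub continuous_const

/-- half-way element -/
def Wl (t : ℝ) : GA := 1 + (1 / 4 : ℂ) • Dl t

theorem star [CompleteSpace Y] (H : ℝ) (hH : HB Y H)
    {U : ℝ → Y →L[ℂ] Y} {M : ℝ} (hU : IsGrp U M) (l : ℕ → ℝ) {η : ℕ → ℤ} (hη : ∀ i, |η i| = 1) (n : ℕ) (y : Y) :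
    ‖rho hU (sG (fun i => Wl (l i)) η n) y‖ ≤ M * (‖H‖ ^ 2 * (2 * (M * ‖y‖))) := by
  have h1 : ∀ r : ℕ, ∃ e : ℝ, |e| ≤ 1 / ((r : ℝ) + 1) ∧ ‖rho hU (sE (fun i => 1 + (e : ℂ) • Dl (l i)) (fun i => Wl (l i)) η n) y‖ ≤ M * (‖H‖ ^ 2 * (2 * (M * ‖y‖))) := by
    intro r
    obtain ⟨D, c, e, hp, hc, he, hle⟩ := exists_poly (show (0 : ℝ) < 1 / ((r : ℝ) + 1) by positivity)
    exact ⟨e, hle, star_eps H hH hU l hη n D c e hp hc he y⟩
  choose e he1 he2 using h1
  have h2 : Tendsto (fun r => ((e r : ℝ) : ℂ)) atTop (𝓝 0) := by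
    have h3 : Tendsto e atTop (𝓝 0) := by
      apply squeeze_zero_norm (a := fun r : ℕ => 1 / ((r : ℝ) + 1))
      · intro r
        rw [Real.norm_eq_abs]
        exact he1 r
      · exact tendsto_one_div_add_atTop_nhds_zero_nat
    have h4 := (Complex.continuous_ofReal.tendsto 0).comp h3
    simpa [Function.comp_def] using h4
  have h3 := ((rho_sE_cont hU l (fun i => Wl (l i)) η n).tendsto 0).comp h2
  have h4 : (fun i => 1 + (0 : ℂ) • Dl (l i)) = fun _ : ℕ => (1 : GA) := by
    funext i
    rw [zero_smul, add_zero]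
  rw [h4, sE_one] at h3
  have h5 : Tendsto (fun r => rho hU (sE (fun i => 1 + ((e r : ℝ) : ℂ) • Dl (l i)) (fun i => Wl (l i)) η n) y) atTop (𝓝 (rho hU (sG (fun i => Wl (l i)) η n) y)) := by
    have := ((ContinuousLinearMap.apply ℂ Y y).continuous.tendsto _).comp h3
    exact this
  exact le_of_tendsto h5.norm (Eventually.of_forall he2)

theorem star_avg [CompleteSpace Y] (H : ℝ) (hH : HB Y H)
    {U : ℝ → Y →L[ℂ] Y} {M : ℝ} (hU : IsGrp U M) {σ : Type*} (S : Finset σ) (lam : σ → ℝ) (hl : ∀ s ∈ S, 0 ≤ lam s) (hs : ∑ s ∈ S, lam s = 1)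
    (t : ℕ → σ → ℝ) {η : ℕ → ℤ} (hη : ∀ i, |η i| = 1) (n : ℕ) (y : Y) :
    ‖rho hU (sG (fun i => ∑ s ∈ S, ((lam s : ℝ) : ℂ) • Wl (t i s)) η n) y‖ ≤ M * (‖H‖ ^ 2 * (2 * (M * ‖y‖))) := by
  have key : ∀ d m : ℕ, m + d = n → ∀ l : ℕ → ℝ,
      ‖rho hU (sG (fun i => if i < m then Wl (l i) else ∑ s ∈ S, ((lam s : ℝ) : ℂ) • Wl (t i s)) η n) y‖ ≤ M * (‖H‖ ^ 2 * (2 * (M * ‖y‖))) := by
    intro d
    induction d with
    | zero =>
      intro m hm l
      rw [sG_congr (β' := fun i => Wl (l i)) η n (fun i hi => if_pos (by omega))]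
      exact star H hH hU l hη n y
    | succ d ih =>
      intro m hm l
      have e1 : (fun i => if i < m then Wl (l i) else ∑ s ∈ S, ((lam s : ℝ) : ℂ) • Wl (t i s)) =
          Function.update (fun i => if i < m then Wl (l i) else ∑ s ∈ S, ((lam s : ℝ) : ℂ) • Wl (t i s)) m (∑ s ∈ S, ((lam s : ℝ) : ℂ) • Wl (t m s)) := by
        rw [eq_comm, Function.update_eq_self_iff]
        rw [if_neg (by omega)]
      rw [e1, sG_affine S lam hs, map_sum, sum_apply]
      refine (norm_sum_le _ _).trans ?_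
      have h2 : ∀ s ∈ S, ‖(rho hU (((lam s : ℝ) : ℂ) • sG (Function.update (fun i => if i < m then Wl (l i) else ∑ s ∈ S, ((lam s : ℝ) : ℂ) • Wl (t i s)) m (Wl (t m s))) η n)) y‖ ≤
          lam s * (M * (‖H‖ ^ 2 * (2 * (M * ‖y‖)))) := by
        intro s hs
        rw [map_smul, smul_apply, norm_smul, Complex.norm_real, Real.norm_of_nonneg (hl s hs)]
        have h3 := ih (m + 1) (by omega) (Function.update l m (t m s))
        have e2 : (fun i => if i < m + 1 then Wl (Function.update l m (t m s) i) else ∑ s ∈ S, ((lam s : ℝ) : ℂ) • Wl (t i s)) =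
            Function.update (fun i => if i < m then Wl (l i) else ∑ s ∈ S, ((lam s : ℝ) : ℂ) • Wl (t i s)) m (Wl (t m s)) := by
          funext i
          rcases lt_trichotomy i m with h | h | h
          · rw [if_pos (by omega), Function.update_of_ne (by omega), Function.update_of_ne (by omega), if_pos h]
          · subst h
            rw [if_pos (by omega), Function.update_self, Function.update_self]
          · rw [if_neg (by omega), Function.update_of_ne (by omega), if_neg (by omega)]
        rw [e2] at h3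
        have := hl s hs
        gcongr
      refine (Finset.sum_le_sum h2).trans ?_
      rw [← Finset.sum_mul, hs, one_mul]
  have h0 := key n 0 (by omega) (fun _ => 0)
  simpa using h0

end Pool.Agent.Helper192.Dil
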