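import Mathlib
import Pool.Agent.Helper192.Dil.A
import Pool.Agent.Helper192.Dil.B
import Pool.Agent.Helper192.Dil.C
import Pool.Agent.Helper192.Dil.D
import Pool.Agent.Helper192.Dil.E
import Pool.Agent.Helper192.Dil.F
import Pool.Agent.Helper192.Dil.G
import Pool.Agent.Helper192.Dil.I
import Pool.Agent.Helper192.Dil.J
import Pool.Agent.Helper192.Dil.K
import Pool.Agent.Helper192.Dil.L
import Pool.Agent.Helper192.Dil.M
import Pool.Agent.Helper192.Dil.N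
import Pool.Agent.Helper192.Dil.O

set_option autoImplicit false

open Filter Topology MeasureTheory
open scoped FourierTransform ENNReal

noncomputable section

namespace Pool.Agent.Helper192.Dil

variable {Y : Type*} [NormedAddCommGroup Y] [NormedSpace ℂ Y]

theorem sG_pert {A : Type*} [NormedRing A] (b z : ℕ → A) {η : ℕ → ℤ} (hη : ∀ i, |η i| = 1) {M B ε : ℝ} (hM : 0 ≤ M)
    (hz : ∀ k, ‖z k‖ ≤ M) (hB : ∀ k, ‖sG b η k‖ ≤ B) (hε : ∀ k, ‖b k - z k‖ ≤ ε) (n : ℕ) :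
    ‖sG b η n - sG z η n‖ ≤ n * (M + 1) ^ n * ((B + 1) * ε) := by
  have hB0 : 0 ≤ B := (norm_nonneg _).trans (hB 0)
  have hε0 : 0 ≤ ε := (norm_nonneg _).trans (hε 0)
  induction n with
  | zero => simp [sG]
  | succ n ih =>
    have h1 : sG b η (n + 1) - sG z η (n + 1) = sG b η n * (b n - z n) + (sG b η n - sG z η n) * z n - (η n : A) * (b n - z n) := by
      have e1 : sG b η (n + 1) = sG b η n * b n + (η n : A) * (1 - b n) := rfl
      have e2 : sG z η (n + 1) = sG z η n * z n + (η n : A) * (1 - z n) := rfl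
      rw [e1, e2]
      noncomm_ring
    have h2 : ‖(η n : A) * (b n - z n)‖ ≤ ε := by
      rcases abs_eq (by norm_num : (0 : ℤ) ≤ 1) |>.mp (hη n) with h | h
      · rw [h]
        simpa using hε n
      · rw [h]
        have : ((-1 : ℤ) : A) * (b n - z n) = -(b n - z n) := by simp
        rw [this, norm_neg]
        exact hε n
    have h3 : ‖sG b η n * (b n - z n)‖ ≤ B * ε := (norm_mul_le _ _).trans (mul_le_mul (hB n) (hε n) (norm_nonneg _) hB0)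
    have h4 : ‖(sG b η n - sG z η n) * z n‖ ≤ (n * (M + 1) ^ n * ((B + 1) * ε)) * M :=
      (norm_mul_le _ _).trans (mul_le_mul ih (hz n) (norm_nonneg _) (by positivity))
    rw [h1]
    have h5 : ‖sG b η n * (b n - z n) + (sG b η n - sG z η n) * z n - (η n : A) * (b n - z n)‖ ≤
        B * ε + (n * (M + 1) ^ n * ((B + 1) * ε)) * M + ε :=
      (norm_sub_le _ _).trans (add_le_add ((norm_add_le _ _).trans (add_le_add h3 h4)) h2)
    refine h5.trans ?_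
    have h6 : 1 ≤ (M + 1) ^ (n + 1) := one_le_pow₀ (by linarith)
    push_cast
    have h7 : (n : ℝ) * (M + 1) ^ n * ((B + 1) * ε) * M ≤ n * (M + 1) ^ (n + 1) * ((B + 1) * ε) := by
      rw [pow_succ]
      have : 0 ≤ (n : ℝ) * (M + 1) ^ n * ((B + 1) * ε) := by positivity
      nlinarith
    have h8 : (B + 1) * ε ≤ (M + 1) ^ (n + 1) * ((B + 1) * ε) := by
      have : 0 ≤ (B + 1) * ε := by positivity
      nlinarith
    linarith

/-- averaged half elements -/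
def zz (S : Finset (ℕ × ℕ)) (lam : ℕ × ℕ → ℝ) (τ : ℝ) : GA :=
  (1 / 2 : ℂ) • 1 + (1 / 2 : ℂ) • ∑ s ∈ S, ((lam s : ℝ) : ℂ) • Xg (((s.1 : ℝ) - s.2) * τ)

theorem zz_ctr {U : ℝ → Y →L[ℂ] Y} {M : ℝ} (hU : IsGrp U M) {S : Finset (ℕ × ℕ)} {lam : ℕ × ℕ → ℝ} (hl : ∀ s ∈ S, 0 ≤ lam s)
    (hs : ∑ s ∈ S, lam s = 1) (τ : ℝ) : Ctr hU (zz S lam τ) := by
  have h := ctr_cvx hU (ctr_one hU) (ctr_sum hU S lam hl hs (fun s => Xg (((s.1 : ℝ) - s.2) * τ)) (fun s _ => ctr_X hU _)) (p := 1 / 2) (by norm_num) (by norm_num)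
  unfold zz
  push_cast at h
  have e : (1 : ℂ) - 1 / 2 = 1 / 2 := by norm_num
  rw [e] at h
  exact h

theorem final_bound [CompleteSpace Y] (H : ℝ) (hH : HB Y H)
    {U : ℝ → Y →L[ℂ] Y} {M : ℝ} (hU : IsGrp U M) (n : ℕ) :
    ∃ (S : Finset (ℕ × ℕ)) (lam : ℕ × ℕ → ℝ) (R : ℝ), (∀ s ∈ S, 0 ≤ lam s) ∧ ∑ s ∈ S, lam s = 1 ∧
      (∀ s ∈ S, 1 ≤ (s.1 : ℝ) - s.2 ∧ (s.1 : ℝ) - s.2 ≤ R) ∧
      ∀ (τ : ℕ → ℝ) (η : ℕ → ℤ), (∀ i, |η i| = 1) → ‖rho hU (sG (fun i => zz S lam (τ i)) η n)‖ ≤ M * (‖H‖ ^ 2 * (2 * M)) + 1 := by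
  have hM : 0 ≤ M := (norm_nonneg _).trans (hU.bound 0)
  obtain ⟨B, hB⟩ : ∃ B : ℝ, B = M * (‖H‖ ^ 2 * (2 * M)) := ⟨_, rfl⟩
  have hB0 : 0 ≤ B := by rw [hB]; positivity
  obtain ⟨ε, hε, hε2⟩ : ∃ ε : ℝ, 0 < ε ∧ n * (M + 1) ^ n * ((B + 1) * ε) ≤ 1 := by
    refine ⟨1 / (n * (M + 1) ^ n * (B + 1) + 1), by positivity, ?_⟩
    have h0 : 0 ≤ n * (M + 1) ^ n * (B + 1) := by positivity
    have : n * (M + 1) ^ n * ((B + 1) * (1 / (n * (M + 1) ^ n * (B + 1) + 1))) = (n * (M + 1) ^ n * (B + 1)) / (n * (M + 1) ^ n * (B + 1) + 1) := by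
      field_simp
    rw [this, div_le_one (by positivity)]
    linarith
  obtain ⟨S, lam, R, hl, hs, hR, hd⟩ := claimB H hH hU hε
  refine ⟨S, lam, R, hl, hs, hR, ?_⟩
  intro τ η hη
  have h1 : ∀ k, ‖sG (fun i => rho hU (∑ s ∈ S, ((lam s : ℝ) : ℂ) • Wl (((s.1 : ℝ) - s.2) * τ i))) η k‖ ≤ B := by
    intro k
    apply ContinuousLinearMap.opNorm_le_bound _ hB0
    intro y
    have h2 := star_avg H hH hU S lam hl hs (fun i s => ((s.1 : ℝ) - s.2) * τ i) hη k y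
    have h3 := sG_map (rho hU : GA →+* (Y →L[ℂ] Y)) (fun i => ∑ s ∈ S, ((lam s : ℝ) : ℂ) • Wl (((s.1 : ℝ) - s.2) * τ i)) η k
    have h4 : rho hU (sG (fun i => ∑ s ∈ S, ((lam s : ℝ) : ℂ) • Wl (((s.1 : ℝ) - s.2) * τ i)) η k) =
        sG (fun i => rho hU (∑ s ∈ S, ((lam s : ℝ) : ℂ) • Wl (((s.1 : ℝ) - s.2) * τ i))) η k := h3
    rw [h4] at h2
    refine h2.trans (le_of_eq ?_)
    rw [hB]
    ring
  have h2 : ∀ k, ‖rho hU (zz S lam (τ k))‖ ≤ M := fun k =>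
    ContinuousLinearMap.opNorm_le_bound _ hM (fun y => ctr_norm hU (zz_ctr hU hl hs (τ k)) y)
  have h3 : ∀ k, ‖rho hU (∑ s ∈ S, ((lam s : ℝ) : ℂ) • Wl (((s.1 : ℝ) - s.2) * τ k)) - rho hU (zz S lam (τ k))‖ ≤ ε := by
    intro k
    apply ContinuousLinearMap.opNorm_le_bound _ hε.le
    intro y
    have hs' : ∑ s ∈ S, ((lam s : ℝ) : ℂ) = 1 := by exact_mod_cast congrArg Complex.ofReal hs
    have e1 : ∑ s ∈ S, ((lam s : ℝ) : ℂ) • Wl (((s.1 : ℝ) - s.2) * τ k) - zz S lam (τ k) =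
        (-(1 / 4) : ℂ) • ∑ s ∈ S, ((lam s : ℝ) : ℂ) • (Xg (((s.1 : ℝ) - s.2) * τ k) - Xg (-(((s.1 : ℝ) - s.2) * τ k))) := by
      unfold zz Wl Dl
      have e2 : (1 : GA) = ∑ s ∈ S, ((lam s : ℝ) : ℂ) • (1 : GA) := by rw [← Finset.sum_smul, hs', one_smul]
      have e3 : (1 / 2 : ℂ) • (1 : GA) = ∑ s ∈ S, ((lam s : ℝ) : ℂ) • ((1 / 2 : ℂ) • (1 : GA)) := by rw [← Finset.sum_smul, hs', one_smul]
      rw [e3, Finset.smul_sum, Finset.smul_sum, ← Finset.sum_add_distrib, ← Finset.sum_sub_distrib]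
      apply Finset.sum_congr rfl
      intro s _
      have e4 : (2 : GA) = (2 : ℂ) • 1 := by rw [Algebra.smul_def, map_ofNat, mul_one]
      rw [e4]
      module
    have e5 : (rho hU (∑ s ∈ S, ((lam s : ℝ) : ℂ) • Wl (((s.1 : ℝ) - s.2) * τ k)) - rho hU (zz S lam (τ k))) y =
        (-(1 / 4) : ℂ) • ∑ s ∈ S, ((lam s : ℝ) : ℂ) • (U (((s.1 : ℝ) - s.2) * τ k) y - U (-(((s.1 : ℝ) - s.2) * τ k)) y) := by
      rw [← map_sub, e1, map_smul, smul_apply, map_sum, sum_apply]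
      congr 1
      apply Finset.sum_congr rfl
      intro s _
      rw [map_smul, smul_apply, map_sub, sub_apply, rho_X, rho_X]
    rw [e5, norm_smul]
    have h4 := hd (τ k) y
    have h5 : ‖(-(1 / 4) : ℂ)‖ ≤ 1 := by
      rw [norm_neg]
      norm_num
    calc ‖(-(1 / 4) : ℂ)‖ * ‖∑ s ∈ S, ((lam s : ℝ) : ℂ) • (U (((s.1 : ℝ) - s.2) * τ k) y - U (-(((s.1 : ℝ) - s.2) * τ k)) y)‖
        ≤ 1 * (ε * ‖y‖) := by gcongr
      _ = ε * ‖y‖ := one_mul _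
  have h4 := sG_pert (fun i => rho hU (∑ s ∈ S, ((lam s : ℝ) : ℂ) • Wl (((s.1 : ℝ) - s.2) * τ i))) (fun i => rho hU (zz S lam (τ i))) hη hM h2 h1 h3 n
  have h5 := sG_map (rho hU : GA →+* (Y →L[ℂ] Y)) (fun i => zz S lam (τ i)) η n
  have h6 : rho hU (sG (fun i => zz S lam (τ i)) η n) = sG (fun i => rho hU (zz S lam (τ i))) η n := h5
  rw [h6, ← hB]
  have h7 := norm_sub_norm_le (sG (fun i => rho hU (zz S lam (τ i))) η n) (sG (fun i => rho hU (∑ s ∈ S, ((lam s : ℝ) : ℂ) • Wl (((s.1 : ℝ) - s.2) * τ i))) η n)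
  rw [norm_sub_rev] at h7
  have h8 := h1 n
  linarith

theorem smul_form {B : Type*} [Ring B] [Algebra ℂ B] (k : ℤ) (x : B) : (k : B) * (1 - x) = (k : ℂ) • (1 + (-1 : ℂ) • x) := by
  rw [Algebra.smul_def, map_intCast, neg_one_smul, sub_eq_add_neg]

/-- transfer through the dilation -/
theorem transfer {E : Type*} [NormedAddCommGroup E] [NormedSpace ℂ E] {A : Type*} [CommRing A] [Algebra ℂ A]
    (μ : A →ₐ[ℂ] (E →L[ℂ] E)) (e : ℝ → A) (he : ∀ s t, 0 ≤ s → 0 ≤ t → e (s + t) = e s * e t) (he0 : e 0 = 1)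
    {U : ℝ → Y →L[ℂ] Y} {M : ℝ} (hU : IsGrp U M) (J : E →L[ℂ] Y) (Q : Y →L[ℂ] E)
    (hd : ∀ t, 0 ≤ t → Q.comp ((U t).comp J) = μ (e t)) {S : Finset (ℕ × ℕ)} {lam : ℕ × ℕ → ℝ}
    (hr : ∀ s ∈ S, (0 : ℝ) ≤ (s.1 : ℝ) - s.2) (τ : ℕ → ℝ) (hτ : ∀ i, 0 ≤ τ i) (η : ℕ → ℤ) (n : ℕ) :
    Q.comp ((rho hU (sG (fun i => zz S lam (τ i)) η n)).comp J) =
      μ (sG (fun i => (1 / 2 : ℂ) • 1 + (1 / 2 : ℂ) • ∑ s ∈ S, ((lam s : ℝ) : ℂ) • e (((s.1 : ℝ) - s.2) * τ i)) η n) := by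
  obtain ⟨R, hR⟩ : ∃ R : GA → A → Prop, R = fun a m => ∀ t, 0 ≤ t → Q.comp ((rho hU (a * Xg t)).comp J) = μ (m * e t) := ⟨_, rfl⟩
  have h1 : R 1 1 := by
    rw [hR]
    intro t ht
    rw [one_mul, one_mul, rho_X]
    exact hd t ht
  have hadd : ∀ a b m m', R a m → R b m' → R (a + b) (m + m') := by
    intro a b m m' ha hb
    rw [hR] at ha hb ⊢
    intro t ht
    rw [add_mul, add_mul, map_add, map_add, ← ha t ht, ← hb t ht]
    ext x
    simp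
  have hsmul : ∀ (c : ℂ) a m, R a m → R (c • a) (c • m) := by
    intro c a m ha
    rw [hR] at ha ⊢
    intro t ht
    rw [smul_mul_assoc, smul_mul_assoc, map_smul, map_smul, ← ha t ht]
    ext x
    simp
  have h0 : R 0 0 := by
    have := hsmul 0 1 1 h1
    simpa using this
  have hsum : ∀ (a : ℕ × ℕ → GA) (m : ℕ × ℕ → A) (T : Finset (ℕ × ℕ)), (∀ s ∈ T, R (a s) (m s)) → R (∑ s ∈ T, a s) (∑ s ∈ T, m s) := by
    intro a m T
    classical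
    induction T using Finset.induction_on with
    | empty => intro _; simpa using h0
    | insert s T hs ih =>
      intro h
      rw [Finset.sum_insert hs, Finset.sum_insert hs]
      exact hadd _ _ _ _ (h s (Finset.mem_insert_self _ _)) (ih (fun s' hs' => h s' (Finset.mem_insert_of_mem hs')))
  have hX : ∀ a m s, 0 ≤ s → R a m → R (a * Xg s) (m * e s) := by
    intro a m s hs ha
    rw [hR] at ha ⊢
    intro t ht
    rw [mul_assoc, mul_assoc, ← Xg_add, ← he s t hs ht]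
    exact ha (s + t) (add_nonneg hs ht)
  have hz : ∀ a m i, R a m → R (a * zz S lam (τ i)) (m * ((1 / 2 : ℂ) • 1 + (1 / 2 : ℂ) • ∑ s ∈ S, ((lam s : ℝ) : ℂ) • e (((s.1 : ℝ) - s.2) * τ i))) := by
    intro a m i ha
    unfold zz
    rw [mul_add, mul_add, mul_smul_comm, mul_smul_comm, mul_smul_comm, mul_smul_comm, mul_one, mul_one, Finset.mul_sum, Finset.mul_sum]
    apply hadd _ _ _ _ (hsmul _ _ _ ha)
    apply hsmul
    apply hsum
    intro s hs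
    rw [mul_smul_comm, mul_smul_comm]
    apply hsmul
    exact hX _ _ _ (mul_nonneg (hr s hs) (hτ i)) ha
  have hrec : ∀ k, R (sG (fun i => zz S lam (τ i)) η k) (sG (fun i => (1 / 2 : ℂ) • 1 + (1 / 2 : ℂ) • ∑ s ∈ S, ((lam s : ℝ) : ℂ) • e (((s.1 : ℝ) - s.2) * τ i)) η k) := by
    intro k
    induction k with
    | zero => exact h0
    | succ k ih =>
      unfold sG
      apply hadd _ _ _ _ (hz _ _ _ ih)
      rw [smul_form, smul_form]
      apply hsmul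
      apply hadd _ _ _ _ h1
      apply hsmul
      have := hz 1 1 k h1
      rw [one_mul, one_mul] at this
      exact this
  have h3 := hrec n
  rw [hR] at h3
  have h4 := h3 0 le_rfl
  rw [Xg_zero, mul_one, he0, mul_one] at h4
  exact h4

end Pool.Agent.Helper192.Dil
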