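import Mathlib
import Pool.Agent.Helper192.Inv.A
import Pool.Agent.Helper192.Inv.B
import Pool.Agent.Helper192.Inv.C
import Pool.Agent.Helper192.Inv.D

set_option autoImplicit false

open Filter Topology Matrix

noncomputable section

namespace Pool.Agent.Helper192.Dil

open Pool.Agent.Helper192.Inv

/-- threshold multipliers are uniformly bounded -/
theorem mop_thr (K n : ℕ) : ‖mop K (fun p => if pos p ≤ n then 1 else 0)‖ ≤ 3 := by
  have h := mop_norm_le K (fun p => if pos p ≤ n then 1 else 0) (C1 := 1) (C2 := 2) (by norm_num) (by norm_num) (by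
    intro p
    split_ifs <;> simp) ?_
  · linarith
  · -- corner
    obtain ⟨m, hm⟩ : ∃ m : ℕ, m = n / 2 + 1 := ⟨_, rfl⟩
    have key : ∀ i k : ℕ, (bet K * ell i k) ^ 2 * ‖((if 2 * k ≤ n then 1 else 0 : ℂ)) - (if 2 * i + 1 ≤ n then 1 else 0)‖ ^ 2 ≤
        bet K ^ 2 * (if k < m ∧ m ≤ i + 1 then ell i k ^ 2 else 0) := by
      intro i k
      by_cases hki : k ≤ i
      · by_cases h1 : 2 * k ≤ n
        · by_cases h2 : 2 * i + 1 ≤ n
          · rw [if_pos h1, if_pos h2]
            simp only [sub_self, norm_zero]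
            have : (0 : ℝ) ≤ bet K ^ 2 * (if k < m ∧ m ≤ i + 1 then ell i k ^ 2 else 0) := by
              split_ifs <;> positivity
            simpa using this
          · rw [if_pos h1, if_neg h2, if_pos (by omega)]
            simp [mul_pow]
        · rw [if_neg h1, if_neg (by omega)]
          have : (0 : ℝ) ≤ bet K ^ 2 * (if k < m ∧ m ≤ i + 1 then ell i k ^ 2 else 0) := by
            split_ifs <;> positivity
          simpa using this
      · have : ell i k = 0 := by
          unfold ell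
          rw [if_neg hki]
        rw [this]
        simp
    have hfin : ∀ F : ℕ → ℕ → ℝ, ∑ i : Fin K, ∑ k : Fin K, F i k = ∑ i ∈ Finset.range K, ∑ k ∈ Finset.range K, F i k := by
      intro F
      rw [← Fin.sum_univ_eq_sum_range (fun i => ∑ k ∈ Finset.range K, F i k)]
      apply Finset.sum_congr rfl
      intro i _
      rw [← Fin.sum_univ_eq_sum_range (fun k => F i k)]
    have hb1 := bet_sq_Hn K
    have hb0 : 0 ≤ bet K ^ 2 := by positivity
    calc ∑ i : Fin K, ∑ k : Fin K, (bet K * ell i k) ^ 2 * ‖((if pos (Sum.inl k : Ix K) ≤ n then 1 else 0 : ℂ)) - (if pos (Sum.inr i : Ix K) ≤ n then 1 else 0)‖ ^ 2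
        = ∑ i ∈ Finset.range K, ∑ k ∈ Finset.range K, (bet K * ell i k) ^ 2 * ‖((if 2 * k ≤ n then 1 else 0 : ℂ)) - (if 2 * i + 1 ≤ n then 1 else 0)‖ ^ 2 :=
          hfin (fun i k => (bet K * ell i k) ^ 2 * ‖((if 2 * k ≤ n then 1 else 0 : ℂ)) - (if 2 * i + 1 ≤ n then 1 else 0)‖ ^ 2)
      _ ≤ ∑ i ∈ Finset.range K, ∑ k ∈ Finset.range K, bet K ^ 2 * (if k < m ∧ m ≤ i + 1 then ell i k ^ 2 else 0) :=
          Finset.sum_le_sum (fun i _ => Finset.sum_le_sum (fun k _ => key i k))
      _ = bet K ^ 2 * ∑ i ∈ Finset.range K, ∑ k ∈ Finset.range K, (if k < m ∧ m ≤ i + 1 then ell i k ^ 2 else 0) := by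
          simp only [← Finset.mul_sum]
      _ ≤ bet K ^ 2 * (2 * Hn K) := by
          have := corner_sum m K
          gcongr
      _ ≤ 2 ^ 2 := by nlinarith

theorem pos_lt {K : ℕ} (p : Ix K) : pos p < 2 * K := by
  rcases p with k | i
  · show 2 * (k : ℕ) < 2 * K
    have := k.2
    omega
  · show 2 * (i : ℕ) + 1 < 2 * K
    have := i.2
    omega

/-- decreasing multipliers are bounded -/
theorem mop_anti (K : ℕ) (f : ℕ → ℝ) (hf : Antitone f) (h0 : ∀ j, 0 ≤ f j) :
    ‖mop K (fun p => ((f (pos p) : ℝ) : ℂ))‖ ≤ 3 * f 0 := by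
  have h1 : (fun p : Ix K => ((f (pos p) : ℝ) : ℂ)) = ((f (2 * K) : ℝ) : ℂ) • (1 : Ix K → ℂ) +
      ∑ n ∈ Finset.range (2 * K), ((f n - f (n + 1) : ℝ) : ℂ) • (fun p : Ix K => if pos p ≤ n then (1 : ℂ) else 0) := by
    funext p
    simp only [Pi.add_apply, Pi.smul_apply, Pi.one_apply, Finset.sum_apply, smul_eq_mul, mul_one, mul_ite, mul_zero]
    have h2 : ∀ N : ℕ, pos p ≤ N → ((f (pos p) : ℝ) : ℂ) = ((f N : ℝ) : ℂ) + ∑ n ∈ Finset.range N, (if pos p ≤ n then ((f n - f (n + 1) : ℝ) : ℂ) else 0) := by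
      intro N
      induction N with
      | zero =>
        intro h
        have : pos p = 0 := by omega
        rw [this]
        simp
      | succ N ih =>
        intro h
        rw [Finset.sum_range_succ]
        rcases Nat.lt_or_ge N (pos p) with h3 | h3
        · have h4 : pos p = N + 1 := by omega
          rw [if_neg (by omega), h4, add_zero, Finset.sum_eq_zero]
          · simp
          · intro n hn
            rw [Finset.mem_range] at hn
            rw [if_neg (by omega)]
        · rw [if_pos h3, ih h3]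
          push_cast
          ring
    exact h2 _ (pos_lt p).le
  rw [h1, map_add, map_smul, map_one, map_sum]
  have h2 : ‖∑ n ∈ Finset.range (2 * K), mop K (((f n - f (n + 1) : ℝ) : ℂ) • (fun p : Ix K => if pos p ≤ n then (1 : ℂ) else 0))‖ ≤
      ∑ n ∈ Finset.range (2 * K), (f n - f (n + 1)) * 3 := by
    refine (norm_sum_le _ _).trans (Finset.sum_le_sum (fun n _ => ?_))
    rw [map_smul, norm_smul, Complex.norm_real, Real.norm_of_nonneg (sub_nonneg.mpr (hf (Nat.le_succ n)))]
    have := sub_nonneg.mpr (hf (Nat.le_succ n))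
    have := mop_thr K n
    gcongr
  have h3 : ‖((f (2 * K) : ℝ) : ℂ) • (1 : EE K →L[ℂ] EE K)‖ ≤ f (2 * K) := by
    rw [norm_smul, Complex.norm_real, Real.norm_of_nonneg (h0 _)]
    have h4 : ‖(1 : EE K →L[ℂ] EE K)‖ ≤ 1 := ContinuousLinearMap.norm_id_le
    have := h0 (2 * K)
    nlinarith
  have h4 : ∑ n ∈ Finset.range (2 * K), (f n - f (n + 1)) * 3 = 3 * f 0 - 3 * f (2 * K) := by
    rw [← Finset.sum_mul, Finset.sum_range_sub']
    ring
  refine (norm_add_le _ _).trans ?_
  have := h0 (2 * K)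
  linarith

/-- the alternating multiplier -/
def alt (K : ℕ) : Ix K → ℂ := fun p => (-1) ^ (pos p)

theorem alt_unbounded (C : ℝ) : ∃ K : ℕ, C ≤ ‖mop K (alt K)‖ := by
  obtain ⟨K, hK⟩ := wsym_unbounded (|C|)
  refine ⟨K, ?_⟩
  have h1 : wsym K = Complex.exp (-1) • alt K := by
    funext p
    show (-1) ^ (pos p) * Complex.exp (-1) = Complex.exp (-1) * (-1) ^ (pos p)
    ring
  rw [h1, map_smul, norm_smul, Complex.norm_exp] at hK
  have h2 : Real.exp (-1 : ℂ).re ≤ 1 := by
    rw [Real.exp_le_one_iff]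
    simp
  have h3 := norm_nonneg (mop K (alt K))
  have h4 := le_abs_self C
  nlinarith

end Pool.Agent.Helper192.Dil
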