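import Mathlib
import Pool.Agent.Helper192.Inv.A
import Pool.Agent.Helper192.Inv.B
import Pool.Agent.Helper192.Inv.C
import Pool.Agent.Helper192.Inv.D
import Pool.Agent.Helper192.Dil.A
import Pool.Agent.Helper192.Dil.B
import Pool.Agent.Helper192.Dil.C
import Pool.Agent.Helper192.Dil.D
import Pool.Agent.Helper192.Dil.E
import Pool.Agent.Helper192.Dil.F
import Pool.Agent.Helper192.Dil.G
import Pool.Agent.Helper192.Dil.I
import Pool.Agent.Helper192.Dil.J
import Pool.Agent.Helper192.Dil.K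
import Pool.Agent.Helper192.Dil.L
import Pool.Agent.Helper192.Dil.M
import Pool.Agent.Helper192.Dil.N
import Pool.Agent.Helper192.Dil.O
import Pool.Agent.Helper192.Dil.P
import Pool.Agent.Helper192.Dil.Q

set_option autoImplicit false

open Filter Topology MeasureTheory
open scoped FourierTransform ENNReal

noncomputable section

namespace Pool.Agent.Helper192.Dil

open Pool.Agent.Helper192.Inv

variable {Y : Type*} [NormedAddCommGroup Y] [NormedSpace ℂ Y]

/-- symbol at time `t` -/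
def sgx (K : ℕ) (b t : ℝ) : Ix K → ℂ := fun p => ((Real.exp (-(t * b ^ (pos p))) : ℝ) : ℂ)

theorem sgx_add (K : ℕ) (b s t : ℝ) : sgx K b (s + t) = sgx K b s * sgx K b t := by
  funext p
  show ((Real.exp (-((s + t) * b ^ (pos p))) : ℝ) : ℂ) = ((Real.exp (-(s * b ^ (pos p))) : ℝ) : ℂ) * ((Real.exp (-(t * b ^ (pos p))) : ℝ) : ℂ)
  rw [← Complex.ofReal_mul, ← Real.exp_add]
  congr 2
  ring

theorem sgx_zero (K : ℕ) (b : ℝ) : sgx K b 0 = 1 := by
  funext p
  show ((Real.exp (-(0 * b ^ (pos p))) : ℝ) : ℂ) = 1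
  simp

/-- ideal multipliers -/
def zi (K i : ℕ) : Ix K → ℂ := fun p => if pos p ≤ i then 1 else 1 / 2

/-- alternating signs -/
def et (i : ℕ) : ℤ := (-1) ^ i

theorem et_abs (i : ℕ) : |et i| = 1 := by
  unfold et
  rw [abs_pow, abs_neg, abs_one, one_pow]

/-- closed form -/
def vf (j : ℕ) : ℂ := (-(-1) ^ j + (1 / 2) ^ j) / 3

theorem sG_zi (K n : ℕ) : sG (zi K) et n = fun p => vf (min n (pos p)) := by
  induction n with
  | zero =>
    funext p
    show (0 : ℂ) = vf (min 0 (pos p))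
    rw [Nat.zero_min]
    unfold vf
    norm_num
  | succ n ih =>
    funext p
    have e1 : sG (zi K) et (n + 1) = sG (zi K) et n * zi K n + ((et n : ℤ) : Ix K → ℂ) * (1 - zi K n) := rfl
    rw [e1, ih]
    show vf (min n (pos p)) * zi K n p + ((et n : ℤ) : Ix K → ℂ) p * (1 - zi K n p) = vf (min (n + 1) (pos p))
    have e2 : ((et n : ℤ) : Ix K → ℂ) p = (-1) ^ n := by
      rw [Pi.intCast_apply]
      unfold et
      push_cast
      rfl
    rw [e2]
    unfold zi
    by_cases h : pos p ≤ n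
    · rw [if_pos h, min_eq_right h, min_eq_right (by omega)]
      ring
    · rw [if_neg h, min_eq_left (by omega), min_eq_left (by omega)]
      unfold vf
      rw [pow_succ, pow_succ]
      ring

theorem vf_norm (j : ℕ) : ‖vf j‖ ≤ 1 := by
  unfold vf
  rw [norm_div]
  have h1 : ‖-(-1 : ℂ) ^ j + (1 / 2) ^ j‖ ≤ 1 + 1 := by
    refine (norm_add_le _ _).trans (add_le_add ?_ ?_)
    · rw [norm_neg, norm_pow, norm_neg, norm_one, one_pow]
    · rw [norm_pow]
      apply pow_le_one₀ (norm_nonneg _)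
      norm_num
  have h2 : ‖(3 : ℂ)‖ = 3 := by norm_num
  rw [h2]
  linarith

theorem alt_eq (K : ℕ) : alt K = (fun p => (((1 / 2 : ℝ) ^ (pos p) : ℝ) : ℂ)) - (3 : ℂ) • sG (zi K) et (2 * K) := by
  funext p
  rw [sG_zi]
  show (-1 : ℂ) ^ (pos p) = (((1 / 2 : ℝ) ^ (pos p) : ℝ) : ℂ) - 3 * vf (min (2 * K) (pos p))
  rw [min_eq_right (pos_lt p).le]
  unfold vf
  push_cast
  ring

theorem half_pow_anti : Antitone (fun j : ℕ => (1 / 2 : ℝ) ^ j) :=
  fun _ _ h => pow_le_pow_of_le_one (by norm_num) (by norm_num) h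

theorem block [CompleteSpace Y] (H : ℝ) (hH : HB Y H)
    {U : ℝ → Y →L[ℂ] Y} {M : ℝ} (hU : IsGrp U M) (K : ℕ) :
    ∃ b0 : ℝ, ∀ b : ℝ, b0 ≤ b → ∀ (J : EE K →L[ℂ] Y) (Q : Y →L[ℂ] EE K),
      (∀ t, 0 ≤ t → Q.comp ((U t).comp J) = mop K (sgx K b t)) →
      ‖mop K (alt K)‖ ≤ 3 + 3 * (‖Q‖ * (M * (‖H‖ ^ 2 * (2 * M)) + 1) * ‖J‖ + 1) := by
  obtain ⟨S, lam, R, hl, hs, hR, hb⟩ := final_bound H hH hU (2 * K)
  obtain ⟨C, hC0, hC⟩ : ∃ C : ℝ, 0 ≤ C ∧ ∀ m : Ix K → ℂ, ‖mop K m‖ ≤ C * ‖m‖ :=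
    ⟨‖LinearMap.toContinuousLinearMap (mop K).toLinearMap‖, ContinuousLinearMap.opNorm_nonneg _, fun m =>
      (LinearMap.toContinuousLinearMap (mop K).toLinearMap).le_opNorm m⟩
  obtain ⟨N, hN⟩ : ∃ N : ℝ, N = ((2 * K : ℕ) : ℝ) * (1 + 1) ^ (2 * K) := ⟨_, rfl⟩
  have hN0 : 0 ≤ N := by rw [hN]; positivity
  obtain ⟨δ, hδ0, hδ1, hδ2⟩ : ∃ δ : ℝ, 0 < δ ∧ δ ≤ 1 ∧ C * (N * ((1 + 1) * δ)) ≤ 1 := by
    refine ⟨1 / (C * N * 2 + 1), by positivity, ?_, ?_⟩
    · rw [div_le_one (by positivity)]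
      have : 0 ≤ C * N * 2 := by positivity
      linarith
    · have : C * (N * ((1 + 1) * (1 / (C * N * 2 + 1)))) = (C * N * 2) / (C * N * 2 + 1) := by
        field_simp
        ring
      rw [this, div_le_one (by positivity)]
      linarith
  have hSne : S.Nonempty := by
    rw [Finset.nonempty_iff_ne_empty]
    intro h
    rw [h] at hs
    simp at hs
  obtain ⟨s0, hs0⟩ := hSne
  have hR1 : 1 ≤ R := (hR s0 hs0).1.trans (hR s0 hs0).2
  refine ⟨max 1 (R / δ ^ 2), ?_⟩
  intro b hbb J Q hd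
  have hb1 : 1 ≤ b := (le_max_left _ _).trans hbb
  have hb2 : R / δ ^ 2 ≤ b := (le_max_right _ _).trans hbb
  obtain ⟨τ, hτ⟩ : ∃ τ : ℕ → ℝ, τ = fun i => δ / (R * b ^ i) := ⟨_, rfl⟩
  have hτ0 : ∀ i, 0 ≤ τ i := by
    intro i
    rw [hτ]
    positivity
  have htr := transfer (mop K) (fun t => sgx K b t) (fun s t _ _ => sgx_add K b s t) (sgx_zero K b) hU J Q hd
    (S := S) (lam := lam) (fun s hs => by linarith [(hR s hs).1]) τ hτ0 et (2 * K)
  obtain ⟨z, hz⟩ : ∃ z : ℕ → Ix K → ℂ, z = fun i => (1 / 2 : ℂ) • 1 + (1 / 2 : ℂ) • ∑ s ∈ S, ((lam s : ℝ) : ℂ) • sgx K b (((s.1 : ℝ) - s.2) * τ i) := ⟨_, rfl⟩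
  have hs' : ∑ s ∈ S, ((lam s : ℝ) : ℂ) = 1 := by exact_mod_cast congrArg Complex.ofReal hs
  have hzn : ∀ k, ‖z k‖ ≤ 1 := by
    intro k
    rw [pi_norm_le_iff_of_nonneg (by norm_num)]
    intro p
    have e : z k p = (1 / 2 : ℂ) + (1 / 2 : ℂ) * ∑ s ∈ S, ((lam s : ℝ) : ℂ) * sgx K b (((s.1 : ℝ) - s.2) * τ k) p := by
      rw [hz]
      simp only [Pi.add_apply, Pi.smul_apply, Pi.one_apply, smul_eq_mul, mul_one, Finset.sum_apply]
    rw [e]
    have h1 : ‖∑ s ∈ S, ((lam s : ℝ) : ℂ) * sgx K b (((s.1 : ℝ) - s.2) * τ k) p‖ ≤ 1 := by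
      refine (norm_sum_le _ _).trans ?_
      rw [← hs]
      apply Finset.sum_le_sum
      intro s hs
      rw [norm_mul, Complex.norm_real, Real.norm_of_nonneg (hl s hs)]
      have h2 : ‖sgx K b (((s.1 : ℝ) - s.2) * τ k) p‖ ≤ 1 := by
        unfold sgx
        rw [Complex.norm_real, Real.norm_of_nonneg (Real.exp_pos _).le, Real.exp_le_one_iff]
        have h3 : 0 ≤ ((s.1 : ℝ) - s.2) * τ k * b ^ (pos p) := by
          have := (hR s hs).1
          have := hτ0 k
          apply mul_nonneg (mul_nonneg (by linarith) this) (by positivity)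
        linarith
      have := hl s hs
      nlinarith
    refine (norm_add_le _ _).trans ?_
    rw [norm_mul]
    have h2 : ‖(1 / 2 : ℂ)‖ = 1 / 2 := by norm_num
    rw [h2]
    linarith
  have hzε : ∀ k, ‖zi K k - z k‖ ≤ δ := by
    intro k
    rw [pi_norm_le_iff_of_nonneg hδ0.le]
    intro p
    have e : (zi K k - z k) p = (1 / 2 : ℂ) * ∑ s ∈ S, ((lam s : ℝ) : ℂ) * ((if pos p ≤ k then 1 else 0) - sgx K b (((s.1 : ℝ) - s.2) * τ k) p) := by
      rw [hz]
      simp only [Pi.sub_apply, Pi.add_apply, Pi.smul_apply, Pi.one_apply, smul_eq_mul, mul_one, Finset.sum_apply]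
      simp only [mul_sub, Finset.sum_sub_distrib]
      rw [← Finset.sum_mul, hs']
      unfold zi
      split_ifs <;> ring
    rw [e, norm_mul]
    have h2 : ‖(1 / 2 : ℂ)‖ = 1 / 2 := by norm_num
    rw [h2]
    have h3 : ‖∑ s ∈ S, ((lam s : ℝ) : ℂ) * ((if pos p ≤ k then 1 else 0) - sgx K b (((s.1 : ℝ) - s.2) * τ k) p)‖ ≤ δ := by
      refine (norm_sum_le _ _).trans ?_
      calc ∑ s ∈ S, ‖((lam s : ℝ) : ℂ) * ((if pos p ≤ k then 1 else 0) - sgx K b (((s.1 : ℝ) - s.2) * τ k) p)‖ ≤ ∑ s ∈ S, lam s * δ := by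
            apply Finset.sum_le_sum
            intro s hs
            rw [norm_mul, Complex.norm_real, Real.norm_of_nonneg (hl s hs)]
            apply mul_le_mul_of_nonneg_left _ (hl s hs)
            obtain ⟨r1, r2⟩ := hR s hs
            unfold sgx
            have hbk : 0 < b ^ k := by positivity
            have hτk : τ k = δ / (R * b ^ k) := by rw [hτ]
            split_ifs with hp
            · have h4 : ((1 : ℂ)) - ((Real.exp (-(((s.1 : ℝ) - s.2) * τ k * b ^ (pos p))) : ℝ) : ℂ) = ((1 - Real.exp (-(((s.1 : ℝ) - s.2) * τ k * b ^ (pos p))) : ℝ) : ℂ) := by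
                push_cast; ring
              rw [h4, Complex.norm_real]
              have h5 : ((s.1 : ℝ) - s.2) * τ k * b ^ (pos p) ≤ δ := by
                rw [hτk]
                have h6 : b ^ (pos p) ≤ b ^ k := pow_le_pow_right₀ hb1 hp
                calc ((s.1 : ℝ) - s.2) * (δ / (R * b ^ k)) * b ^ (pos p) ≤ R * (δ / (R * b ^ k)) * b ^ k := by gcongr
                  _ = δ := by field_simp
              have h7 : 0 ≤ ((s.1 : ℝ) - s.2) * τ k * b ^ (pos p) := mul_nonneg (mul_nonneg (by linarith) (hτ0 k)) (by positivity)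
              have h8 := Real.add_one_le_exp (-(((s.1 : ℝ) - s.2) * τ k * b ^ (pos p)))
              have h9 : Real.exp (-(((s.1 : ℝ) - s.2) * τ k * b ^ (pos p))) ≤ 1 := Real.exp_le_one_iff.mpr (by linarith)
              rw [Real.norm_of_nonneg (by linarith)]
              linarith
            · rw [zero_sub, norm_neg, Complex.norm_real, Real.norm_of_nonneg (Real.exp_pos _).le]
              have h6 : b ^ (k + 1) ≤ b ^ (pos p) := pow_le_pow_right₀ hb1 (by omega)
              have h5 : 1 / δ ≤ ((s.1 : ℝ) - s.2) * τ k * b ^ (pos p) := by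
                rw [hτk]
                calc 1 / δ = 1 * (δ / (R * b ^ k)) * (b ^ k * (R / δ ^ 2)) := by field_simp
                  _ ≤ ((s.1 : ℝ) - s.2) * (δ / (R * b ^ k)) * (b ^ k * b) := by gcongr
                  _ = ((s.1 : ℝ) - s.2) * (δ / (R * b ^ k)) * b ^ (k + 1) := by rw [pow_succ]
                  _ ≤ _ := by
                    have : 0 ≤ ((s.1 : ℝ) - s.2) := by linarith
                    gcongr
              rw [Real.exp_neg]
              have h7 : 1 / δ ≤ Real.exp (((s.1 : ℝ) - s.2) * τ k * b ^ (pos p)) := by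
                have := Real.add_one_le_exp (((s.1 : ℝ) - s.2) * τ k * b ^ (pos p))
                linarith
              have h8 := inv_anti₀ (by positivity) h7
              simpa using h8
        _ = δ := by rw [← Finset.sum_mul, hs, one_mul]
    linarith
  have hpert := sG_pert (zi K) z et_abs (M := 1) (B := 1) (ε := δ) (by norm_num) hzn (by
    intro k
    rw [sG_zi, pi_norm_le_iff_of_nonneg (by norm_num)]
    intro p
    exact vf_norm _) hzε (2 * K)
  rw [← hN] at hpert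
  have h1 : ‖mop K (sG z et (2 * K))‖ ≤ ‖Q‖ * (M * (‖H‖ ^ 2 * (2 * M)) + 1) * ‖J‖ := by
    have e : mop K (sG z et (2 * K)) = Q.comp ((rho hU (sG (fun i => zz S lam (τ i)) et (2 * K))).comp J) := by
      rw [htr, hz]
    rw [e]
    have h2 := hb τ et et_abs
    refine (ContinuousLinearMap.opNorm_comp_le _ _).trans ?_
    rw [mul_assoc]
    gcongr
    refine (ContinuousLinearMap.opNorm_comp_le _ _).trans ?_
    gcongr
  have h2 : ‖mop K (sG (zi K) et (2 * K))‖ ≤ ‖Q‖ * (M * (‖H‖ ^ 2 * (2 * M)) + 1) * ‖J‖ + 1 := by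
    have e : sG (zi K) et (2 * K) = sG z et (2 * K) + (sG (zi K) et (2 * K) - sG z et (2 * K)) := by ring
    rw [e, map_add]
    refine (norm_add_le _ _).trans (add_le_add h1 ?_)
    refine (hC _).trans (le_trans ?_ hδ2)
    gcongr
  rw [alt_eq, map_sub, map_smul]
  refine (norm_sub_le _ _).trans (add_le_add ?_ ?_)
  · have := mop_anti K (fun j => (1 / 2 : ℝ) ^ j) half_pow_anti (fun j => by positivity)
    simpa using this
  · rw [norm_smul]
    have : ‖(3 : ℂ)‖ = 3 := by norm_num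
    rw [this]
    gcongr

end Pool.Agent.Helper192.Dil
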