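import Mathlib
import Pool.Agent.Helper192.Dil.A

set_option autoImplicit false

open Filter Topology MeasureTheory
open scoped FourierTransform ENNReal SchwartzMap

noncomputable section

namespace Pool.Agent.Helper192.Dil

section
variable {F G : Type*} [NormedAddCommGroup F] [InnerProductSpace ℂ F] [CompleteSpace F]
  [NormedAddCommGroup G] [InnerProductSpace ℂ G] [CompleteSpace G]

theorem fourier_compLp (L : F →L[ℂ] G) (f : Lp F 2 (volume : Measure ℝ)) :
    𝓕 (L.compLp f : Lp G 2 (volume : Measure ℝ)) = L.compLp (𝓕 f) := by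
  have hc1 : Continuous (fun f : Lp F 2 (volume : Measure ℝ) => 𝓕 (L.compLp f : Lp G 2 (volume : Measure ℝ))) :=
    (Lp.fourierTransformₗᵢ ℝ G).continuous.comp (L.compLpL 2 volume).continuous
  have hc2 : Continuous (fun f : Lp F 2 (volume : Measure ℝ) => (L.compLp (𝓕 f) : Lp G 2 (volume : Measure ℝ))) :=
    (L.compLpL 2 volume).continuous.comp (Lp.fourierTransformₗᵢ ℝ F).continuous
  refine DenseRange.induction_on (p := fun f : Lp F 2 (volume : Measure ℝ) => 𝓕 (L.compLp f : Lp G 2 (volume : Measure ℝ)) = L.compLp (𝓕 f))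
    (SchwartzMap.denseRange_toLpCLM (p := 2) ENNReal.ofNat_ne_top) f (isClosed_eq hc1 hc2) ?_
  intro s
  have h1 : ∀ s : 𝓢(ℝ, F), (L.compLp (s.toLp 2 volume) : Lp G 2 (volume : Measure ℝ)) = (s.postcompCLM L).toLp 2 volume := by
    intro s
    apply Lp.ext
    filter_upwards [ContinuousLinearMap.coeFn_compLp L (s.toLp 2 volume), SchwartzMap.coeFn_toLp s 2 volume,
      SchwartzMap.coeFn_toLp (s.postcompCLM L) 2 volume] with x hx1 hx2 hx3
    rw [hx1, hx2, hx3]
    rfl
  show 𝓕 (L.compLp (s.toLp 2 volume) : Lp G 2 (volume : Measure ℝ)) = L.compLp (𝓕 (s.toLp 2 volume))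
  rw [SchwartzMap.toLp_fourier_eq, h1, h1, SchwartzMap.toLp_fourier_eq]
  congr 1
  ext x
  show 𝓕 (s.postcompCLM L) x = L (𝓕 s x)
  rw [SchwartzMap.fourier_coe, SchwartzMap.fourier_coe, Real.fourier_eq, Real.fourier_eq, ← ContinuousLinearMap.integral_comp_comm]
  · apply integral_congr_ae
    refine Eventually.of_forall (fun v => ?_)
    simp only [SchwartzMap.postcompCLM_apply]
    rw [Circle.smul_def, Circle.smul_def, map_smul]
  · have := (Real.fourierIntegral_convergent_iff (μ := (volume : Measure ℝ)) (f := (s : ℝ → F)) x).mpr s.integrable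
    exact this

theorem fourierInv_compLp (L : F →L[ℂ] G) (f : Lp F 2 (volume : Measure ℝ)) :
    𝓕⁻ (L.compLp f : Lp G 2 (volume : Measure ℝ)) = L.compLp (𝓕⁻ f) := by
  have h := fourier_compLp L (𝓕⁻ f)
  rw [FourierTransform.fourier_fourierInv_eq] at h
  rw [← h, FourierTransform.fourierInv_fourier_eq]

/-- multiplication by the symbol -/
def mulS (F : Type*) [NormedAddCommGroup F] [InnerProductSpace ℂ F] : Lp F 2 (volume : Measure ℝ) →L[ℂ] Lp F 2 (volume : Measure ℝ) :=
  LinearMap.mkContinuous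
    { toFun := fun f => (memLp_hsym f).toLp _
      map_add' := by
        intro f g
        rw [← MemLp.toLp_add, MemLp.toLp_eq_toLp_iff]
        filter_upwards [Lp.coeFn_add f g] with x hx
        rw [hx]
        simp only [Pi.add_apply, smul_add]
      map_smul' := by
        intro c f
        rw [RingHom.id_apply, ← MemLp.toLp_const_smul, MemLp.toLp_eq_toLp_iff]
        filter_upwards [Lp.coeFn_smul c f] with x hx
        rw [hx]
        simp only [Pi.smul_apply]
        rw [smul_comm] } 1 (by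
    intro f
    rw [one_mul]
    apply Lp.norm_le_norm_of_ae_le
    filter_upwards [(memLp_hsym f).coeFn_toLp] with x hx
    show ‖((memLp_hsym f).toLp _ : Lp F 2 (volume : Measure ℝ)) x‖ ≤ ‖f x‖
    rw [hx, norm_smul]
    have := norm_hsym_le x
    have := norm_nonneg (f x)
    nlinarith)

omit [CompleteSpace F] in
theorem mulS_apply (f : Lp F 2 (volume : Measure ℝ)) : mulS F f = (memLp_hsym f).toLp _ := rfl

theorem mulS_compLp (L : F →L[ℂ] G) (f : Lp F 2 (volume : Measure ℝ)) : mulS G (L.compLp f) = L.compLp (mulS F f) := by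
  apply Lp.ext
  rw [mulS_apply, mulS_apply]
  filter_upwards [(memLp_hsym (L.compLp f)).coeFn_toLp, ContinuousLinearMap.coeFn_compLp L f,
    ContinuousLinearMap.coeFn_compLp L ((memLp_hsym f).toLp _), (memLp_hsym f).coeFn_toLp] with x h1 h2 h3 h4
  rw [h1, h2, h3, h4, map_smul]

/-- vector valued Hilbert transform on a Hilbert space -/
def hilbV (F : Type*) [NormedAddCommGroup F] [InnerProductSpace ℂ F] [CompleteSpace F] :
    Lp F 2 (volume : Measure ℝ) →L[ℂ] Lp F 2 (volume : Measure ℝ) :=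
  ((Lp.fourierTransformₗᵢ ℝ F).symm.toContinuousLinearEquiv : Lp F 2 (volume : Measure ℝ) →L[ℂ] Lp F 2 (volume : Measure ℝ)).comp
    ((mulS F).comp ((Lp.fourierTransformₗᵢ ℝ F).toContinuousLinearEquiv : Lp F 2 (volume : Measure ℝ) →L[ℂ] Lp F 2 (volume : Measure ℝ)))

theorem hilbV_tens (f : Lp ℂ 2 (volume : Measure ℝ)) (y : F) : hilbV F (tens f y) = tens (hilbert f) y := by
  have h1 : hilbV F (tens f y) = 𝓕⁻ (mulS F (𝓕 (tens f y))) := rfl
  have h2 : hilbert f = 𝓕⁻ (mulS ℂ (𝓕 f)) := rfl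
  rw [h1, h2]
  unfold tens
  rw [fourier_compLp, mulS_compLp, fourierInv_compLp]

theorem isUMD_hilbert (F : Type*) [NormedAddCommGroup F] [InnerProductSpace ℂ F] [CompleteSpace F] : OpUMD F :=
  ⟨hilbV F, hilbV_tens⟩

end

/-- UMD is an isomorphic invariant -/
theorem isUMD_of_equiv {X F : Type*} [NormedAddCommGroup X] [NormedSpace ℂ X] [NormedAddCommGroup F] [NormedSpace ℂ F]
    (e : X ≃L[ℂ] F) (h : OpUMD F) : OpUMD X := by
  obtain ⟨H, hH⟩ := h
  refine ⟨((e.symm : F →L[ℂ] X).compLpL 2 volume).comp (H.comp ((e : X →L[ℂ] F).compLpL 2 volume)), ?_⟩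
  intro f y
  have h1 : ((e : X →L[ℂ] F).compLpL 2 volume) (tens f y) = tens f (e y) := by
    apply Lp.ext
    filter_upwards [ContinuousLinearMap.coeFn_compLp (e : X →L[ℂ] F) (tens f y), tens_coe f y, tens_coe f (e y)] with x h1 h2 h3
    rw [h3]
    show ((e : X →L[ℂ] F).compLp (tens f y) : ℝ → F) x = _
    rw [h1, h2]
    simp
  have h2 : ∀ g : Lp ℂ 2 (volume : Measure ℝ), ((e.symm : F →L[ℂ] X).compLpL 2 volume) (tens g (e y)) = tens g y := by
    intro g
    apply Lp.ext
    filter_upwards [ContinuousLinearMap.coeFn_compLp (e.symm : F →L[ℂ] X) (tens g (e y)), tens_coe g (e y), tens_coe g y] with x h1 h2 h3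
    rw [h3]
    show ((e.symm : F →L[ℂ] X).compLp (tens g (e y)) : ℝ → X) x = _
    rw [h1, h2]
    simp
  show ((e.symm : F →L[ℂ] X).compLpL 2 volume) (H (((e : X →L[ℂ] F).compLpL 2 volume) (tens f y))) = _
  rw [h1, hH, h2]

end Pool.Agent.Helper192.Dil
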