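import Mathlib
import Pool.Agent.Helper192.Inv.A
import Pool.Agent.Helper192.Inv.B
import Pool.Agent.Helper192.Inv.C
import Pool.Agent.Helper192.Inv.D
import Pool.Agent.Helper192.Inv.E
import Pool.Agent.Helper192.Dil.A
import Pool.Agent.Helper192.Dil.B
import Pool.Agent.Helper192.Dil.C
import Pool.Agent.Helper192.Dil.D
import Pool.Agent.Helper192.Dil.E
import Pool.Agent.Helper192.Dil.F
import Pool.Agent.Helper192.Dil.G
import Pool.Agent.Helper192.Dil.I
import Pool.Agent.Helper192.Dil.J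
import Pool.Agent.Helper192.Dil.K
import Pool.Agent.Helper192.Dil.L
import Pool.Agent.Helper192.Dil.M
import Pool.Agent.Helper192.Dil.N
import Pool.Agent.Helper192.Dil.O
import Pool.Agent.Helper192.Dil.P
import Pool.Agent.Helper192.Dil.Q
import Pool.Agent.Helper192.Dil.R

set_option autoImplicit false

open Filter Topology MeasureTheory Matrix
open scoped ENNReal

noncomputable section

namespace Pool.Agent.Helper192.Dil

open Pool.Agent.Helper192.Inv

/-- block sizes -/
def kap (n : ℕ) : ℕ := (Nat.unpair n).1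

/-- block bases -/
def bas (n : ℕ) : ℝ := ((Nat.unpair n).2 : ℝ) + 1

theorem bas_ge (n : ℕ) : 1 ≤ bas n := by
  unfold bas
  have : (0 : ℝ) ≤ ((Nat.unpair n).2 : ℝ) := Nat.cast_nonneg _
  linarith

/-- the underlying Hilbert space -/
abbrev Hs := lp (fun n => EE (kap n)) 2

theorem sgx_norm (K : ℕ) {b t : ℝ} (hb : 1 ≤ b) (ht : 0 ≤ t) : ‖mop K (sgx K b t)‖ ≤ 3 := by
  have h := mop_anti K (fun j => Real.exp (-(t * b ^ j))) (by
    intro i j hij
    simp only
    apply Real.exp_le_exp.mpr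
    have := pow_le_pow_right₀ hb hij
    have := mul_le_mul_of_nonneg_left this ht
    linarith) (fun j => (Real.exp_pos _).le)
  refine le_trans h ?_
  have : Real.exp (-(t * b ^ 0)) ≤ 1 := by
    rw [Real.exp_le_one_iff, pow_zero]
    linarith
  linarith

/-- the semigroup -/
def T0 (t : ℝ) : Hs →L[ℂ] Hs :=
  dsum (fun n => mop (kap n) (sgx (kap n) (bas n) (max t 0))) 3 (fun n => sgx_norm _ (bas_ge n) (le_max_right _ _))

theorem T0_apply (t : ℝ) (x : Hs) (n : ℕ) : (T0 t x) n = mop (kap n) (sgx (kap n) (bas n) (max t 0)) (x n) := rfl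

theorem T0_norm (t : ℝ) : ‖T0 t‖ ≤ 3 := dsum_norm_le _ _ _

theorem T0_zero : T0 0 = 1 := by
  ext x n p
  rw [T0_apply, max_self, sgx_zero, map_one]
  rfl

theorem T0_add {s t : ℝ} (hs : 0 ≤ s) (ht : 0 ≤ t) (x : Hs) : T0 (s + t) x = T0 s (T0 t x) := by
  apply Subtype.ext
  funext n
  show (T0 (s + t) x) n = (T0 s (T0 t x)) n
  rw [T0_apply, T0_apply, T0_apply, max_eq_left hs, max_eq_left ht, max_eq_left (add_nonneg hs ht), sgx_add, map_mul]
  rfl

theorem T0_max (t : ℝ) (x : Hs) : T0 t x = T0 (max t 0) x := by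
  apply Subtype.ext
  funext n
  show (T0 t x) n = (T0 (max t 0) x) n
  rw [T0_apply, T0_apply, max_eq_left (le_max_right t 0)]

theorem T0_cont (x : Hs) : Continuous (fun t => T0 t x) := by
  rw [continuous_iff_continuousAt]
  intro t0
  apply tannery (fun t => T0 t x) (T0 t0 x) (fun n => 6 * ‖x n‖)
  · simp only [mul_pow]
    exact (lp_summable x).mul_left _
  · refine Eventually.of_forall (fun t n => ?_)
    have h1 : ∀ t, ‖(T0 t x) n‖ ≤ 3 * ‖x n‖ := by
      intro t
      rw [T0_apply]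
      refine (ContinuousLinearMap.le_opNorm _ _).trans ?_
      have := sgx_norm (kap n) (bas_ge n) (le_max_right t 0)
      gcongr
    have h2 := norm_sub_le ((T0 t x) n) ((T0 t0 x) n)
    have h3 := h1 t
    have h4 := h1 t0
    linarith
  · intro n
    have h1 : Continuous (fun t => mop (kap n) (sgx (kap n) (bas n) (max t 0)) (x n)) := by
      have h2 : Continuous (fun t : ℝ => sgx (kap n) (bas n) (max t 0)) := by
        unfold sgx
        apply continuous_pi
        intro p
        fun_prop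
      have h3 : Continuous (mop (kap n)) := (mop (kap n)).toLinearMap.continuous_of_finiteDimensional
      exact (h3.comp h2).clm_apply continuous_const
    exact h1.tendsto t0

/-- entries of the semigroup are nonnegative -/
theorem entry_nonneg (K : ℕ) {b t : ℝ} (hb : 1 ≤ b) (ht : 0 ≤ t) (p q : Ix K) :
    ∃ r : ℝ, 0 ≤ r ∧ mm K (sgx K b t) p q = (r : ℂ) := by
  rw [mm_eq, Matrix.add_apply, comm_apply]
  have hL : ∃ r : ℝ, 0 ≤ r ∧ Lf K p q * (sgx K b t q - sgx K b t p) = (r : ℂ) := by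
    rcases p with p | p
    · refine ⟨0, le_rfl, ?_⟩
      rcases q with q | q <;> simp [Lf]
    · rcases q with q | q
      · refine ⟨bet K * ell p q * (Real.exp (-(t * b ^ (2 * (q : ℕ)))) - Real.exp (-(t * b ^ (2 * (p : ℕ) + 1)))), ?_, ?_⟩
        · have hb0 : 0 ≤ bet K := by
            unfold bet
            positivity
          by_cases h : (q : ℕ) ≤ p
          · apply mul_nonneg (mul_nonneg hb0 (ell_nonneg _ _))
            have h1 : b ^ (2 * (q : ℕ)) ≤ b ^ (2 * (p : ℕ) + 1) := pow_le_pow_right₀ hb (by omega)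
            have h2 : Real.exp (-(t * b ^ (2 * (p : ℕ) + 1))) ≤ Real.exp (-(t * b ^ (2 * (q : ℕ)))) := by
              apply Real.exp_le_exp.mpr
              have := mul_le_mul_of_nonneg_left h1 ht
              linarith
            linarith
          · have : ell p q = 0 := by
              unfold ell
              rw [if_neg h]
            rw [this]
            simp
        · have h1 : Lf K (Sum.inr p) (Sum.inl q) = ((bet K * ell p q : ℝ) : ℂ) := by
            simp [Lf]
          have h2 : sgx K b t (Sum.inl q) = ((Real.exp (-(t * b ^ (2 * (q : ℕ)))) : ℝ) : ℂ) := rfl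
          have h3 : sgx K b t (Sum.inr p) = ((Real.exp (-(t * b ^ (2 * (p : ℕ) + 1))) : ℝ) : ℂ) := rfl
          rw [h1, h2, h3]
          push_cast
          ring
      · refine ⟨0, le_rfl, ?_⟩
        simp [Lf]
  obtain ⟨r, hr0, hr⟩ := hL
  by_cases hpq : p = q
  · subst hpq
    refine ⟨Real.exp (-(t * b ^ (pos p))) + r, by positivity, ?_⟩
    rw [hr, diagonal_apply_eq, Complex.ofReal_add]
    rfl
  · refine ⟨r, hr0, ?_⟩
    rw [hr, diagonal_apply_ne _ hpq, zero_add]

/-- domination: `v` is a nonnegative element dominating `|u|` -/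
def Dom (u v : Hs) : Prop := ∀ (n : ℕ) (p : Ix (kap n)), ‖u n p‖ ≤ (v n p).re ∧ (v n p).im = 0

theorem Dom.norm_le {u v : Hs} (h : Dom u v) : ‖u‖ ≤ ‖v‖ := by
  have h1 : ∀ n, ‖u n‖ ^ 2 ≤ ‖v n‖ ^ 2 := by
    intro n
    rw [EuclideanSpace.norm_sq_eq, EuclideanSpace.norm_sq_eq]
    apply Finset.sum_le_sum
    intro p _
    have h2 := (h n p).1.trans (Complex.re_le_norm _)
    gcongr
  have h2 : ‖u‖ ^ 2 ≤ ‖v‖ ^ 2 := by
    rw [lp_norm_sq, lp_norm_sq]
    exact Summable.tsum_le_tsum h1 (lp_summable u) (lp_summable v)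
  exact le_of_sq_le_sq h2 (norm_nonneg _)

theorem Dom.trans {u v w : Hs} (h1 : Dom u v) (h2 : Dom v w) : Dom u w := fun n p =>
  ⟨((h1 n p).1.trans (Complex.re_le_norm _)).trans (h2 n p).1, (h2 n p).2⟩

theorem Dom.add {u v u' v' : Hs} (h1 : Dom u v) (h2 : Dom u' v') : Dom (u + u') (v + v') := by
  intro n p
  have e1 : (u + u') n p = u n p + u' n p := rfl
  have e2 : (v + v') n p = v n p + v' n p := rfl
  rw [e1, e2, Complex.add_re, Complex.add_im, (h1 n p).2, (h2 n p).2, add_zero]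
  exact ⟨(norm_add_le _ _).trans (add_le_add (h1 n p).1 (h2 n p).1), rfl⟩

theorem mop_coord (K : ℕ) (f : Ix K → ℂ) (x : EE K) (p : Ix K) : (mop K f x) p = ∑ q, mm K f p q * x q := rfl

theorem Dom.T0 {u v : Hs} (h : Dom u v) (t : ℝ) : Dom (T0 t u) (T0 t v) := by
  intro n p
  rw [T0_apply, T0_apply, mop_coord, mop_coord]
  choose r hr0 hr using fun q => entry_nonneg (kap n) (bas_ge n) (le_max_right t 0) p q
  simp only [hr]
  have e : ∑ q, ((r q : ℝ) : ℂ) * v n q = ((∑ q, r q * (v n q).re : ℝ) : ℂ) := by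
    push_cast
    apply Finset.sum_congr rfl
    intro q _
    congr 1
    apply Complex.ext
    · simp
    · simp [(h n q).2]
  rw [e, Complex.ofReal_re, Complex.ofReal_im]
  refine ⟨?_, rfl⟩
  refine (norm_sum_le _ _).trans ?_
  apply Finset.sum_le_sum
  intro q _
  rw [norm_mul, Complex.norm_real, Real.norm_of_nonneg (hr0 q)]
  have := (h n q).1
  have := hr0 q
  gcongr

/-- modulus -/
def absx (x : Hs) : Hs := ⟨fun n => WithLp.toLp 2 (fun p => ((‖x n p‖ : ℝ) : ℂ)), memlp_of (b := fun n => ‖x n‖) (lp_summable x) (fun n => by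
  apply le_of_sq_le_sq _ (norm_nonneg _)
  rw [EuclideanSpace.norm_sq_eq, EuclideanSpace.norm_sq_eq]
  apply Finset.sum_le_sum
  intro p _
  simp)⟩

theorem absx_apply (x : Hs) (n : ℕ) (p : Ix (kap n)) : (absx x) n p = ((‖x n p‖ : ℝ) : ℂ) := rfl

theorem dom_absx (x : Hs) : Dom x (absx x) := by
  intro n p
  rw [absx_apply, Complex.ofReal_re, Complex.ofReal_im]
  exact ⟨le_rfl, rfl⟩

theorem Dom.absx {u v : Hs} (h : Dom u v) : Dom (absx u) v := by
  intro n p
  rw [absx_apply, Complex.norm_real, norm_norm]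
  exact h n p

theorem absx_norm (x : Hs) : ‖absx x‖ = ‖x‖ := by
  apply le_antisymm _ (dom_absx x).norm_le
  apply le_of_sq_le_sq _ (norm_nonneg _)
  rw [lp_norm_sq, lp_norm_sq]
  apply le_of_eq
  congr 1
  funext n
  rw [EuclideanSpace.norm_sq_eq, EuclideanSpace.norm_sq_eq]
  apply Finset.sum_congr rfl
  intro p _
  rw [absx_apply, Complex.norm_real, norm_norm]

/-- the new norm -/
def NN (x : Hs) : ℝ := ⨆ t : ℝ, ‖T0 t (absx x)‖

theorem NN_bdd (x : Hs) : BddAbove (Set.range (fun t : ℝ => ‖T0 t (absx x)‖)) := by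
  refine ⟨3 * ‖x‖, ?_⟩
  rintro _ ⟨t, rfl⟩
  simp only
  rw [← absx_norm x]
  refine (ContinuousLinearMap.le_opNorm _ _).trans ?_
  have := T0_norm t
  gcongr

theorem le_NN (x : Hs) (t : ℝ) : ‖T0 t (absx x)‖ ≤ NN x := le_ciSup (NN_bdd x) t

theorem norm_le_NN (x : Hs) : ‖x‖ ≤ NN x := by
  have h := le_NN x 0
  rw [T0_zero] at h
  rw [← absx_norm x]
  exact h

theorem NN_le (x : Hs) : NN x ≤ 3 * ‖x‖ := by
  apply ciSup_le
  intro t
  rw [← absx_norm x]
  refine (ContinuousLinearMap.le_opNorm _ _).trans ?_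
  have := T0_norm t
  gcongr

theorem NN_mono {x y : Hs} (h : ∀ (n : ℕ) (p : Ix (kap n)), ‖x n p‖ ≤ ‖y n p‖) : NN x ≤ NN y := by
  apply ciSup_le
  intro t
  refine le_trans ?_ (le_NN y t)
  apply Dom.norm_le
  apply Dom.T0
  intro n p
  rw [absx_apply, absx_apply, Complex.norm_real, norm_norm, Complex.ofReal_re, Complex.ofReal_im]
  exact ⟨h n p, rfl⟩

theorem NN_add (x y : Hs) : NN (x + y) ≤ NN x + NN y := by
  apply ciSup_le
  intro t
  have h1 : Dom (absx (x + y)) (absx x + absx y) := ((dom_absx x).add (dom_absx y)).absx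
  have h2 := (h1.T0 t).norm_le
  rw [map_add] at h2
  exact h2.trans ((norm_add_le _ _).trans (add_le_add (le_NN x t) (le_NN y t)))

theorem NN_smul_le (c : ℂ) (x : Hs) : NN (c • x) ≤ ‖c‖ * NN x := by
  apply ciSup_le
  intro t
  have h1 : absx (c • x) = (((‖c‖ : ℝ) : ℂ)) • absx x := by
    apply Subtype.ext
    funext n
    apply PiLp.ext
    intro p
    show (absx (c • x)) n p = ((‖c‖ : ℝ) : ℂ) * (absx x) n p
    rw [absx_apply, absx_apply]
    have : (c • x) n p = c * x n p := rfl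
    rw [this, norm_mul]
    push_cast
    rfl
  rw [h1, map_smul, norm_smul, Complex.norm_real, norm_norm]
  have := le_NN x t
  gcongr

theorem NN_smul (c : ℂ) (x : Hs) : NN (c • x) = ‖c‖ * NN x := by
  apply le_antisymm (NN_smul_le c x)
  by_cases hc : c = 0
  · subst hc
    rw [norm_zero, zero_mul]
    exact (norm_nonneg _).trans (norm_le_NN _)
  · have h1 := NN_smul_le c⁻¹ (c • x)
    rw [smul_smul, inv_mul_cancel₀ hc, one_smul, norm_inv, inv_mul_eq_div, le_div_iff₀ (norm_pos_iff.mpr hc)] at h1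
    linarith

theorem NN_T0 {s : ℝ} (hs : 0 ≤ s) (x : Hs) : NN (T0 s x) ≤ NN x := by
  have h1 : Dom (absx (T0 s x)) (T0 s (absx x)) := ((dom_absx x).T0 s).absx
  apply ciSup_le
  intro t
  have h2 := (h1.T0 t).norm_le
  have h3 : T0 t (T0 s (absx x)) = T0 (max t 0 + s) (absx x) := by
    rw [T0_add (le_max_right _ _) hs]
    rw [← T0_max]
  rw [h3] at h2
  exact h2.trans (le_NN x _)

end Pool.Agent.Helper192.Dil
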