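import Mathlib
import Pool.Agent.Helper192.Inv.A
import Pool.Agent.Helper192.Inv.B
import Pool.Agent.Helper192.Inv.C
import Pool.Agent.Helper192.Inv.D
import Pool.Agent.Helper192.Inv.E
import Pool.Agent.Helper192.Dil.Defs
import Pool.Agent.Helper192.Dil.A
import Pool.Agent.Helper192.Dil.B
import Pool.Agent.Helper192.Dil.C
import Pool.Agent.Helper192.Dil.D
import Pool.Agent.Helper192.Dil.E
import Pool.Agent.Helper192.Dil.F
import Pool.Agent.Helper192.Dil.G
import Pool.Agent.Helper192.Dil.I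
import Pool.Agent.Helper192.Dil.J
import Pool.Agent.Helper192.Dil.K
import Pool.Agent.Helper192.Dil.L
import Pool.Agent.Helper192.Dil.M
import Pool.Agent.Helper192.Dil.N
import Pool.Agent.Helper192.Dil.O
import Pool.Agent.Helper192.Dil.P
import Pool.Agent.Helper192.Dil.Q
import Pool.Agent.Helper192.Dil.R
import Pool.Agent.Helper192.Dil.S
import Pool.Agent.Helper192.Dil.T

set_option autoImplicit false

open Filter Topology MeasureTheory
open scoped ENNReal

noncomputable section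

namespace Pool.Agent.Helper192.Dil

open Pool.Agent.Helper192.Inv

universe u


section ds

variable {E : ℕ → Type} [∀ K, NormedAddCommGroup (E K)] [∀ K, NormedSpace ℂ (E K)]

/-- inclusion of a block -/
def Sg (n : ℕ) : E n →L[ℂ] lp E 2 :=
  LinearMap.mkContinuous (lp.lsingle (𝕜 := ℂ) (E := E) 2 n) 1 (fun y => by
    show ‖lp.single 2 n y‖ ≤ 1 * ‖y‖
    rw [lp.norm_single (by norm_num), one_mul])

theorem Sg_norm (n : ℕ) : ‖(Sg n : E n →L[ℂ] lp E 2)‖ ≤ 1 := LinearMap.mkContinuous_norm_le _ zero_le_one _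

theorem Sg_apply (n : ℕ) (y : E n) : (Sg n y) n = y := lp.single_apply_self 2 n y

/-- projection to a block -/
def Pr (n : ℕ) : lp E 2 →L[ℂ] E n :=
  LinearMap.mkContinuous
    { toFun := fun x => x n
      map_add' := fun _ _ => rfl
      map_smul' := fun _ _ => rfl } 1 (fun x => by
    rw [one_mul]
    exact lp.norm_apply_le_norm (by norm_num) x n)

theorem Pr_norm (n : ℕ) : ‖(Pr n : lp E 2 →L[ℂ] E n)‖ ≤ 1 := LinearMap.mkContinuous_norm_le _ zero_le_one _

theorem Pr_apply (n : ℕ) (x : lp E 2) : Pr n x = x n := rfl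

end ds

/-- inclusion of a block in `Hs` -/
def SgH (n : ℕ) : EE (kap n) →L[ℂ] Hs := Sg (E := fun n => EE (kap n)) n

/-- projection to a block of `Hs` -/
def PrH (n : ℕ) : Hs →L[ℂ] EE (kap n) := Pr (E := fun n => EE (kap n)) n

theorem SgH_norm (n : ℕ) : ‖SgH n‖ ≤ 1 := Sg_norm (E := fun n => EE (kap n)) n
theorem PrH_norm (n : ℕ) : ‖PrH n‖ ≤ 1 := Pr_norm (E := fun n => EE (kap n)) n
theorem SgH_apply (n : ℕ) (y : EE (kap n)) : (SgH n y) n = y := Sg_apply (E := fun n => EE (kap n)) n y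
theorem PrH_apply (n : ℕ) (x : Hs) : PrH n x = x n := rfl

/-- the lattice -/
def XX : Type := Hs

instance : AddCommGroup XX := inferInstanceAs (AddCommGroup Hs)
instance : Module ℂ XX := inferInstanceAs (Module ℂ Hs)
instance : Norm XX := ⟨fun x => NN x⟩

theorem XX_core : NormedSpace.Core ℂ XX where
  norm_nonneg x := (norm_nonneg _).trans (norm_le_NN x)
  norm_smul c x := NN_smul c x
  norm_triangle x y := NN_add x y
  norm_eq_zero_iff x := by
    constructor
    · intro h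
      have h1 := norm_le_NN x
      have h2 : NN x = 0 := h
      rw [h2] at h1
      exact norm_le_zero_iff.mp h1
    · intro h
      have h1 := NN_le (0 : Hs)
      rw [norm_zero, mul_zero] at h1
      rw [h]
      exact le_antisymm h1 ((norm_nonneg (0 : Hs)).trans (norm_le_NN 0))

instance : NormedAddCommGroup XX := NormedAddCommGroup.ofCore XX_core
instance : NormedSpace ℂ XX := NormedSpace.ofCore XX_core

theorem XX_norm (x : XX) : ‖x‖ = NN x := rfl

/-- identification with the Hilbert space -/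
def eX : XX ≃L[ℂ] Hs :=
  LinearEquiv.toContinuousLinearEquivOfBounds (LinearEquiv.refl ℂ Hs : XX ≃ₗ[ℂ] Hs) 1 3
    (fun x => by rw [one_mul]; exact norm_le_NN x) (fun x => NN_le x)

instance : CompleteSpace XX := (completeSpace_congr (e := eX.toEquiv) eX.isUniformEmbedding).2 inferInstance

theorem XX_umd : IsUMD XX := umd_of_op (isUMD_of_equiv eX (isUMD_hilbert Hs))

/-- evaluation -/
def evX : XX →ₗ[ℂ] ((Σ n : ℕ, Ix (kap n)) → ℂ) where
  toFun x := fun i => (eX x) i.1 i.2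
  map_add' x y := by
    funext i
    rw [map_add]
    rfl
  map_smul' c x := by
    funext i
    rw [map_smul]
    rfl

theorem evX_lattice : IsFunctionLattice evX where
  injective := by
    intro x y h
    apply eX.injective
    apply Subtype.ext
    funext n
    apply PiLp.ext
    intro p
    exact congrFun h ⟨n, p⟩
  solid := by
    intro x g hg
    have hmem : Memℓp (fun n => (WithLp.toLp 2 (fun p => g ⟨n, p⟩) : EE (kap n))) 2 := by
      apply memlp_of (b := fun n => ‖(eX x) n‖) (lp_summable _)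
      intro n
      apply le_of_sq_le_sq _ (norm_nonneg _)
      rw [EuclideanSpace.norm_sq_eq, EuclideanSpace.norm_sq_eq]
      apply Finset.sum_le_sum
      intro p _
      have := hg ⟨n, p⟩
      have h2 : ‖g ⟨n, p⟩‖ ≤ ‖(eX x) n p‖ := this
      show ‖g ⟨n, p⟩‖ ^ 2 ≤ _
      gcongr
    refine ⟨eX.symm ⟨_, hmem⟩, ?_, ?_⟩
    · funext i
      show (eX (eX.symm ⟨_, hmem⟩)) i.1 i.2 = g i
      rw [eX.apply_symm_apply]
    · have h1 : NN (⟨_, hmem⟩ : Hs) ≤ NN (eX x) := by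
        apply NN_mono
        intro n p
        exact hg ⟨n, p⟩
      exact h1

/-- the semigroup on the lattice -/
def TX (t : ℝ) : XX →L[ℂ] XX := (eX.symm : Hs →L[ℂ] XX).comp ((T0 t).comp (eX : XX →L[ℂ] Hs))

theorem TX_apply (t : ℝ) (x : XX) : TX t x = eX.symm (T0 t (eX x)) := rfl

theorem TX_semigroup : IsC0Semigroup TX where
  zero := by
    ext x
    rw [TX_apply, T0_zero]
    show eX.symm (eX x) = x
    exact eX.symm_apply_apply x
  add := by
    intro s t hs ht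
    ext x
    show TX (s + t) x = TX s (TX t x)
    rw [TX_apply, TX_apply, TX_apply, eX.apply_symm_apply, T0_add hs ht]
  cont := by
    intro x
    apply Continuous.continuousOn
    exact eX.symm.continuous.comp (T0_cont (eX x))

theorem TX_contr {t : ℝ} (ht : 0 ≤ t) : ‖TX t‖ ≤ 1 := by
  apply ContinuousLinearMap.opNorm_le_bound _ zero_le_one
  intro x
  rw [one_mul]
  exact NN_T0 ht x

theorem TX_pos (t : ℝ) (x : XX) (hx : IsNonneg evX x) : IsNonneg evX (TX t x) := by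
  have h1 : Dom (eX x) (eX x) := by
    intro n p
    obtain ⟨h2, h3⟩ := hx ⟨n, p⟩
    have h4 : (eX x) n p = (((eX x) n p).re : ℂ) := by
      apply Complex.ext
      · simp
      · rw [Complex.ofReal_im]
        exact h3
    constructor
    · rw [h4, Complex.norm_real, Complex.ofReal_re]
      exact le_of_eq (Real.norm_of_nonneg h2)
    · exact h3
  have h2 := h1.T0 t
  intro i
  obtain ⟨h3, h4⟩ := h2 i.1 i.2
  show 0 ≤ ((eX (TX t x)) i.1 i.2).re ∧ ((eX (TX t x)) i.1 i.2).im = 0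
  rw [TX_apply, eX.apply_symm_apply]
  exact ⟨(norm_nonneg _).trans h3, h4⟩

theorem no_dil (Y : Type u) [NormedAddCommGroup Y] [NormedSpace ℂ Y] [CompleteSpace Y] (hY : IsUMD Y) : ¬ HasLooseDilation TX Y := by
  rintro ⟨J, Q, U, hU, ⟨M, hM⟩, hd⟩
  obtain ⟨H, hH⟩ := hb_of_umd hY
  have hG : IsGrp U M := ⟨hU.zero, hU.add, hM⟩
  have hM0 : 0 ≤ M := (norm_nonneg _).trans (hM 0)
  choose b0 hb0 using fun K => block H hH hG K
  obtain ⟨c1, hc1⟩ : ∃ c1 : ℝ, c1 = ‖J.comp (eX.symm : Hs →L[ℂ] XX)‖ := ⟨_, rfl⟩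
  obtain ⟨c2, hc2⟩ : ∃ c2 : ℝ, c2 = ‖(eX : XX →L[ℂ] Hs).comp Q‖ := ⟨_, rfl⟩
  have hc10 : 0 ≤ c1 := by rw [hc1]; exact norm_nonneg _
  have hc20 : 0 ≤ c2 := by rw [hc2]; exact norm_nonneg _
  have key : ∀ n : ℕ, b0 (kap n) ≤ bas n → ‖mop (kap n) (alt (kap n))‖ ≤ 3 + 3 * (c2 * (M * (‖H‖ ^ 2 * (2 * M)) + 1) * c1 + 1) := by
    intro n hn
    have hSg1 : ‖SgH n‖ ≤ 1 := SgH_norm n
    have hPr1 : ‖PrH n‖ ≤ 1 := PrH_norm n
    have h1 := hb0 (kap n) (bas n) hn ((J.comp (eX.symm : Hs →L[ℂ] XX)).comp (SgH n)) ((PrH n).comp ((eX : XX →L[ℂ] Hs).comp Q)) (by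
      intro t ht
      ext1 y
      have h2 := hd t ht
      have h3 : TX t (eX.symm (SgH n y)) = Q (U t (J (eX.symm (SgH n y)))) := by
        rw [h2]
        rfl
      show PrH n (eX (Q (U t (J (eX.symm (SgH n y)))))) = mop (kap n) (sgx (kap n) (bas n) t) y
      rw [← h3, TX_apply, eX.apply_symm_apply, eX.apply_symm_apply, PrH_apply, T0_apply, SgH_apply, max_eq_left ht])
    refine h1.trans ?_
    have h2 : ‖(PrH n).comp ((eX : XX →L[ℂ] Hs).comp Q)‖ ≤ c2 := by
      refine (ContinuousLinearMap.opNorm_comp_le _ _).trans ?_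
      rw [← hc2]
      calc ‖PrH n‖ * c2 ≤ 1 * c2 := by gcongr
        _ = c2 := one_mul _
    have h3 : ‖(J.comp (eX.symm : Hs →L[ℂ] XX)).comp (SgH n)‖ ≤ c1 := by
      refine (ContinuousLinearMap.opNorm_comp_le _ _).trans ?_
      rw [← hc1]
      calc c1 * ‖SgH n‖ ≤ c1 * 1 := by gcongr
        _ = c1 := mul_one _
    gcongr
  obtain ⟨K, hK⟩ := alt_unbounded (3 + 3 * (c2 * (M * (‖H‖ ^ 2 * (2 * M)) + 1) * c1 + 1) + 1)
  obtain ⟨j, hj⟩ := exists_nat_ge (b0 K)
  have hk : kap (Nat.pair K j) = K := by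
    unfold kap
    rw [Nat.unpair_pair]
  have hb : bas (Nat.pair K j) = (j : ℝ) + 1 := by
    unfold bas
    rw [Nat.unpair_pair]
  have h1 := key (Nat.pair K j) (by rw [hk, hb]; linarith)
  have h2 : ∀ K', K' = K → ‖mop K' (alt K')‖ = ‖mop K (alt K)‖ := by
    rintro _ rfl
    rfl
  rw [h2 _ hk] at h1
  linarith

theorem main_result : ∃ (ι : Type) (X : Type) (_ : NormedAddCommGroup X) (_ : NormedSpace ℂ X) (_ : CompleteSpace X)
    (ev : X →ₗ[ℂ] (ι → ℂ)) (T : ℝ → X →L[ℂ] X),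
    Countable ι ∧ IsFunctionLattice ev ∧ IsUMD X ∧
    (∃ (F : Type) (_ : NormedAddCommGroup F) (_ : InnerProductSpace ℂ F) (_ : CompleteSpace F), Nonempty (X ≃L[ℂ] F)) ∧
    IsC0Semigroup T ∧ (∀ t, 0 ≤ t → ‖T t‖ ≤ 1) ∧
    (∀ t, 0 ≤ t → ∀ x, IsNonneg ev x → IsNonneg ev (T t x)) ∧
    ∀ (Y : Type u) [NormedAddCommGroup Y] [NormedSpace ℂ Y] [CompleteSpace Y], IsUMD Y →
      ¬ HasLooseDilation T Y ∧ ¬ HasStrictDilation T Y := by
  refine ⟨(Σ n : ℕ, Ix (kap n)), XX, inferInstance, inferInstance, inferInstance, evX, TX, inferInstance, evX_lattice, XX_umd,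
    ⟨Hs, inferInstance, inferInstance, inferInstance, ⟨eX⟩⟩, TX_semigroup,
    fun t ht => TX_contr ht, fun t _ x hx => TX_pos t x hx, ?_⟩
  intro Y _ _ _ hY
  refine ⟨no_dil Y hY, ?_⟩
  rintro ⟨J, Q, U, _, _, hU, hiso, hd⟩
  exact no_dil Y hY ⟨J, Q, U, hU, ⟨1, fun t => ContinuousLinearMap.opNorm_le_bound _ zero_le_one (fun y => by rw [one_mul, hiso])⟩, hd⟩

end Pool.Agent.Helper192.Dil
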